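import Pool.Agent.Lib.MP_ec58cd_gt.Touch

/-!
# AVOID: the avoidance principle (strict barriers)

PROOF. `u (t, p) := Φ t (F t p)` is continuous on `Icc a b ×ˢ univ` (`h.smooth.continuousOn`, `b < T`).
Suppose `K := {(t, p) | t ∈ Icc a b, 0 ≤ u (t, p)}` is nonempty; it is compact, let `(t₀, p₀)` be a
point of `K` with minimal `t₀`. `t₀ ≠ a` by `h0`, so `a < t₀`. For `t ∈ [a, t₀)` and all `p`:
`u (t, p) < 0`, by continuity in `t` `u (t₀, p) ≤ 0` for all `p`; so `u (t₀, p₀) = 0` is the maximum of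
`u (t₀, ·)`.  `touch` with `f := F t₀`, `Φ := Φ t₀`: `w` with `∑ D²Φ(w i, w i) + DΦ(MCV) ≤ 0`.
`s ↦ Φ s (F s p₀)` has derivative `deriv (fun s => Φ s (F t₀ p₀)) t₀ + DΦ_{t₀}(MCV n (F t₀) p₀)` at `t₀`
(chain rule for the total derivative of `hΦ`; `h.flow` at the interior point `t₀`), and this is `≥ 0`
because the function is `< 0` on `[a, t₀)` and `= 0` at `t₀`.  So
`deriv (fun s => Φ s (F t₀ p₀)) t₀ ≥ - DΦ(MCV) ≥ ∑ D²Φ(w i, w i)`, contradiction to `hbar`.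
-/

noncomputable section

open Set Filter Topology MeasureTheory Metric
open scoped Manifold ContDiff RealInnerProductSpace ENNReal

namespace Pool.Agent.Lib.MP_ec58cd_gt

variable {n : ℕ} {E : Type*} [NormedAddCommGroup E] [InnerProductSpace ℝ E] [FiniteDimensional ℝ E]
variable {M : Type*} [TopologicalSpace M] [ChartedSpace (EuclideanSpace ℝ (Fin n)) M]
  [IsManifold (𝓡 n) ∞ M] [CompactSpace M]

theorem avoid {F : ℝ → M → E} {T : ℝ} {f : M → E} (h : IsMCF n F T f) {Φ : ℝ → E → ℝ}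
    (hΦ : ContDiff ℝ 2 (fun q : ℝ × E => Φ q.1 q.2)) {a b : ℝ} (ha : 0 ≤ a) (hbT : b < T)
    (h0 : ∀ p, Φ a (F a p) < 0)
    (hbar : ∀ t ∈ Ioc a b, ∀ p, Φ t (F t p) = 0 → ∀ w : Fin n → E, Orthonormal ℝ w →
      (∀ i, fderiv ℝ (Φ t) (F t p) (w i) = 0) →
      deriv (fun s => Φ s (F t p)) t < ∑ i, fderiv ℝ (fderiv ℝ (Φ t)) (F t p) (w i) (w i)) :
    ∀ t ∈ Icc a b, ∀ p, Φ t (F t p) < 0 := by
  by_contra hcon
  push Not at hcon
  obtain ⟨t1, ht1, p1, hp1⟩ := hcon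
  have hsub : Icc a b ×ˢ (univ : Set M) ⊆ Ico 0 T ×ˢ univ := by
    rintro ⟨t, p⟩ ⟨ht, -⟩
    exact ⟨⟨ha.trans ht.1, ht.2.trans_lt hbT⟩, mem_univ _⟩
  have hFc : ContinuousOn (fun q : ℝ × M => F q.1 q.2) (Icc a b ×ˢ univ) :=
    h.smooth.continuousOn.mono hsub
  have huc : ContinuousOn (fun q : ℝ × M => Φ q.1 (F q.1 q.2)) (Icc a b ×ˢ univ) := by
    have h1 : ContinuousOn (fun q : ℝ × M => (q.1, F q.1 q.2)) (Icc a b ×ˢ univ) :=
      continuousOn_fst.prodMk hFc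
    exact hΦ.continuous.comp_continuousOn h1
  have hS : IsCompact (Icc a b ×ˢ (univ : Set M)) := isCompact_Icc.prod isCompact_univ
  have hScl : IsClosed (Icc a b ×ˢ (univ : Set M)) := isClosed_Icc.prod isClosed_univ
  have hK : IsClosed ((Icc a b ×ˢ (univ : Set M)) ∩
      (fun q : ℝ × M => Φ q.1 (F q.1 q.2)) ⁻¹' Ici 0) :=
    huc.preimage_isClosed_of_isClosed hScl isClosed_Ici
  have hKc := hS.of_isClosed_subset hK inter_subset_left
  obtain ⟨⟨t0, p0⟩, hq0, hmin⟩ := hKc.exists_isMinOn ⟨(t1, p1), ⟨⟨ht1, mem_univ _⟩, hp1⟩⟩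
    continuous_fst.continuousOn
  obtain ⟨⟨ht0, -⟩, hu0⟩ := hq0
  replace ht0 : t0 ∈ Icc a b := ht0
  simp only [mem_preimage, mem_Ici] at hu0
  have hneg : ∀ t, a ≤ t → t < t0 → ∀ p, Φ t (F t p) < 0 := by
    intro t hat htt p
    by_contra hc
    have h2 : ((t, p) : ℝ × M) ∈ ((Icc a b ×ˢ (univ : Set M)) ∩
        (fun q : ℝ × M => Φ q.1 (F q.1 q.2)) ⁻¹' Ici 0) :=
      ⟨⟨⟨hat, htt.le.trans ht0.2⟩, mem_univ _⟩, not_lt.1 hc⟩
    have h3 := hmin h2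
    exact absurd htt (not_lt.2 h3)
  have hat0 : a < t0 := by
    rcases ht0.1.eq_or_lt with h2 | h2
    · exact absurd hu0 (not_le.2 (h2 ▸ h0 p0))
    · exact h2
  have hle0 : ∀ p, Φ t0 (F t0 p) ≤ 0 := by
    intro p
    have h1 : ContinuousWithinAt (fun q : ℝ × M => Φ q.1 (F q.1 q.2))
        (Icc a b ×ˢ (univ : Set M)) (t0, p) := huc (t0, p) ⟨ht0, mem_univ _⟩
    have h2 : Tendsto (fun s : ℝ => (s, p)) (𝓝[<] t0) (𝓝[Icc a b ×ˢ (univ : Set M)] (t0, p)) := by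
      apply tendsto_nhdsWithin_iff.2
      refine ⟨?_, ?_⟩
      · exact (Continuous.prodMk_left p).continuousAt.tendsto.mono_left nhdsWithin_le_nhds
      · filter_upwards [Ioo_mem_nhdsLT hat0] with s hs
        exact ⟨⟨hs.1.le, hs.2.le.trans ht0.2⟩, mem_univ _⟩
    have h3 : Tendsto (fun s : ℝ => Φ s (F s p)) (𝓝[<] t0) (𝓝 (Φ t0 (F t0 p))) :=
      Tendsto.comp h1.tendsto h2
    refine le_of_tendsto h3 ?_
    filter_upwards [Ioo_mem_nhdsLT hat0] with s hs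
    exact (hneg s hs.1.le hs.2 p).le
  have heq : Φ t0 (F t0 p0) = 0 := le_antisymm (hle0 p0) hu0
  have ht0T : t0 ∈ Ico 0 T := ⟨ha.trans ht0.1, ht0.2.trans_lt hbT⟩
  have hΦt : ContDiff ℝ 2 (Φ t0) := hΦ.comp (contDiff_const.prodMk contDiff_id)
  obtain ⟨w, hw, hw0, hwle⟩ := touch (h.imm t0 ht0T) (Φ := Φ t0) (p := p0) hΦt.contDiffAt
    (Eventually.of_forall fun q => by
      simp only [heq]
      exact hle0 q)
  have hb := hbar t0 ⟨hat0, ht0.2⟩ p0 heq w hw hw0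
  -- the time derivative
  have hd : HasFDerivAt (fun q : ℝ × E => Φ q.1 q.2)
      (fderiv ℝ (fun q : ℝ × E => Φ q.1 q.2) (t0, F t0 p0)) (t0, F t0 p0) :=
    (hΦ.differentiable (by norm_num)).differentiableAt.hasFDerivAt
  have hc1 : HasDerivWithinAt (fun s : ℝ => (s, F s p0)) ((1 : ℝ), MCV n (F t0) p0) (Ico 0 T) t0 :=
    (hasDerivWithinAt_id t0 _).prodMk (h.flow t0 ht0T p0)
  have hc2 : HasDerivWithinAt (fun s : ℝ => Φ s (F s p0))
      (fderiv ℝ (fun q : ℝ × E => Φ q.1 q.2) (t0, F t0 p0) ((1 : ℝ), MCV n (F t0) p0))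
      (Ico 0 T) t0 := by
    have := HasFDerivAt.comp_hasDerivWithinAt t0 (f := fun s : ℝ => (s, F s p0)) hd hc1
    exact this
  have hc3 : HasDerivAt (fun s : ℝ => Φ s (F t0 p0))
      (fderiv ℝ (fun q : ℝ × E => Φ q.1 q.2) (t0, F t0 p0) ((1 : ℝ), (0 : E))) t0 := by
    have h1 : HasDerivAt (fun s : ℝ => (s, F t0 p0)) ((1 : ℝ), (0 : E)) t0 :=
      (hasDerivAt_id t0).prodMk (hasDerivAt_const t0 _)
    exact HasFDerivAt.comp_hasDerivAt t0 (f := fun s : ℝ => (s, F t0 p0)) hd h1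
  have hc4 : HasFDerivAt (Φ t0)
      ((fderiv ℝ (fun q : ℝ × E => Φ q.1 q.2) (t0, F t0 p0)).comp
        (ContinuousLinearMap.inr ℝ ℝ E)) (F t0 p0) := by
    have h1 : HasFDerivAt (fun x : E => ((t0 : ℝ), x)) (ContinuousLinearMap.inr ℝ ℝ E) (F t0 p0) :=
      hasFDerivAt_prodMk_right t0 (F t0 p0)
    exact HasFDerivAt.comp (F t0 p0) (f := fun x : E => ((t0 : ℝ), x)) hd h1
  have hsplit : fderiv ℝ (fun q : ℝ × E => Φ q.1 q.2) (t0, F t0 p0) ((1 : ℝ), MCV n (F t0) p0) =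
      deriv (fun s => Φ s (F t0 p0)) t0 + fderiv ℝ (Φ t0) (F t0 p0) (MCV n (F t0) p0) := by
    rw [hc3.deriv, hc4.fderiv]
    simp only [ContinuousLinearMap.comp_apply, ContinuousLinearMap.inr_apply]
    rw [← map_add]
    simp
  rw [hsplit] at hc2
  have hnn : 0 ≤ deriv (fun s => Φ s (F t0 p0)) t0 + fderiv ℝ (Φ t0) (F t0 p0) (MCV n (F t0) p0) := by
    have h1 : HasDerivWithinAt (fun s : ℝ => Φ s (F s p0))
        (deriv (fun s => Φ s (F t0 p0)) t0 + fderiv ℝ (Φ t0) (F t0 p0) (MCV n (F t0) p0))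
        (Ioo a t0) t0 := hc2.mono fun s hs => ⟨ha.trans hs.1.le, hs.2.trans ht0T.2⟩
    rw [hasDerivWithinAt_iff_tendsto_slope' (by simp), nhdsWithin_Ioo_eq_nhdsLT hat0] at h1
    refine ge_of_tendsto h1 ?_
    filter_upwards [Ioo_mem_nhdsLT hat0] with s hs
    rw [slope_def_field, heq, sub_zero]
    exact div_nonneg_of_nonpos (hneg s hs.1.le hs.2 p0).le (sub_nonpos.2 hs.2.le)
  linarith

end Pool.Agent.Lib.MP_ec58cd_gt
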