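import Pool.Agent.Lib.MP_ec58cd_gt.Defs

/-!
# SURFACE: the initial embedding `f0 : S² → ℝ³`

`f0 (x, y, ζ) = (x s(ζ²), y s(ζ²), (11/4) ζ)` with `50 s(y) = 33 + 140 y - 175 y² + 90 y³`.

PROOFS.  `Sy_pos`: on `[0, 1]` `Sy' (y) = (140 - 350 y + 270 y²)/50 > 0` (discriminant
`350² - 4·140·270 < 0`), `Sy 0 = 33/50`; or `nlinarith`.
`isImm_f0`: `f0 = A ∘ (↑)` with the polynomial map
`A v = (v 0 * Sy (v 2 ^ 2), v 1 * Sy (v 2 ^ 2), 11/4 * v 2)`; `contMDiff_coe_sphere` (and `ContDiff ℝ ∞ A`),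
`fderiv A v` is injective if `Sy (v 2 ^ 2) ≠ 0` (third component first), and
`injective_mvfderiv_subtypeVal_sphere` / `mfderiv_coe_sphere_injective`.
`f0_injective`: the third component gives `ζ`, then `Sy > 0` gives `x` and `y`.
-/

noncomputable section

open Set Filter Topology MeasureTheory Metric
open scoped Manifold ContDiff RealInnerProductSpace ENNReal

namespace Pool.Agent.Lib.MP_ec58cd_gt

/-- The profile polynomial. -/
def Sy (y : ℝ) : ℝ := (33 + 140 * y - 175 * y ^ 2 + 90 * y ^ 3) / 50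
/-- Its derivative. -/
def Sy1 (y : ℝ) : ℝ := (140 - 350 * y + 270 * y ^ 2) / 50
/-- Its second derivative. -/
def Sy2 (y : ℝ) : ℝ := (-350 + 540 * y) / 50

/-- The initial surface. -/
def f0 (p : S2) : E3 :=
  !₂[p.1 0 * Sy (p.1 2 ^ 2), p.1 1 * Sy (p.1 2 ^ 2), 11 / 4 * p.1 2]

/-- The north pole. -/
def north : S2 := ⟨!₂[0, 0, 1], by
  rw [mem_sphere_zero_iff_norm, EuclideanSpace.norm_eq, Fin.sum_univ_three]; simp⟩

/-- The south pole. -/
def south : S2 := ⟨!₂[0, 0, -1], by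
  rw [mem_sphere_zero_iff_norm, EuclideanSpace.norm_eq, Fin.sum_univ_three]; simp⟩

theorem sphere_sq (p : S2) : p.1 0 ^ 2 + p.1 1 ^ 2 + p.1 2 ^ 2 = 1 := by
  have h := p.2
  rw [mem_sphere_zero_iff_norm, EuclideanSpace.norm_eq, Fin.sum_univ_three,
    Real.sqrt_eq_one] at h
  simpa using h

theorem sphere_sq_le (p : S2) : p.1 2 ^ 2 ≤ 1 := by
  nlinarith [sphere_sq p, sq_nonneg (p.1 0), sq_nonneg (p.1 1)]

theorem Sy_pos {y : ℝ} (h0 : 0 ≤ y) (_h1 : y ≤ 1) : 0 < Sy y := by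
  unfold Sy
  have h : 0 ≤ y * (140 - 175 * y + 90 * y ^ 2) :=
    mul_nonneg h0 (by nlinarith [sq_nonneg (y - 35 / 36)])
  nlinarith

theorem hasDerivAt_Sy (y : ℝ) : HasDerivAt Sy (Sy1 y) y := by
  have h1 := (hasDerivAt_id y)
  have h := (((((hasDerivAt_const y (33 : ℝ)).add (h1.const_mul 140)).sub
    ((h1.pow 2).const_mul 175)).add ((h1.pow 3).const_mul 90)).div_const 50)
  refine h.congr_deriv ?_
  simp only [Sy1, id]
  push_cast
  ring

theorem hasDerivAt_Sy1 (y : ℝ) : HasDerivAt Sy1 (Sy2 y) y := by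
  have h1 := (hasDerivAt_id y)
  have h := ((((hasDerivAt_const y (140 : ℝ)).sub (h1.const_mul 350)).add
    ((h1.pow 2).const_mul 270)).div_const 50)
  refine h.congr_deriv ?_
  simp only [Sy2, id]
  push_cast
  ring

/-- the ambient polynomial map -/
def amb (v : E3) : E3 := !₂[v 0 * Sy (v 2 ^ 2), v 1 * Sy (v 2 ^ 2), 11 / 4 * v 2]

theorem contDiff_Sy : ContDiff ℝ ∞ Sy := by
  unfold Sy
  fun_prop

theorem contDiff_amb : ContDiff ℝ ∞ amb := by
  have hc : ∀ i : Fin 3, ContDiff ℝ ∞ (fun v : E3 => v i) := fun i => by fun_prop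
  rw [contDiff_euclidean]
  intro i
  fin_cases i
  · exact (hc 0).mul (contDiff_Sy.comp ((hc 2).pow 2))
  · exact (hc 1).mul (contDiff_Sy.comp ((hc 2).pow 2))
  · exact contDiff_const.mul (hc 2)

theorem amb_fderiv_inj (v : E3) (hv : Sy (v 2 ^ 2) ≠ 0) :
    Function.Injective (fderiv ℝ amb v) := by
  have hA : HasFDerivAt amb (fderiv ℝ amb v) v :=
    (contDiff_amb.differentiable (by simp) v).hasFDerivAt
  rw [injective_iff_map_eq_zero]
  intro w hw
  have hline : HasDerivAt (fun s : ℝ => v + s • w) w 0 := by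
    have := ((hasDerivAt_id (0 : ℝ)).smul_const w).const_add v
    simpa using this
  have hA' : HasFDerivAt amb (fderiv ℝ amb v) ((fun s : ℝ => v + s • w) 0) := by
    simpa using hA
  have hcomp : HasDerivAt (fun s : ℝ => amb (v + s • w)) (0 : E3) 0 := by
    have := hA'.comp_hasDerivAt (0 : ℝ) hline
    rw [hw] at this
    exact this
  have hi : ∀ i : Fin 3, HasDerivAt (fun s : ℝ => amb (v + s • w) i) 0 0 := by
    intro i
    have h := (EuclideanSpace.proj i : E3 →L[ℝ] ℝ).hasFDerivAt.comp_hasDerivAt (0 : ℝ) hcomp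
    rw [map_zero] at h
    exact h
  have hl : ∀ i : Fin 3, HasDerivAt (fun s : ℝ => v i + s * w i) (w i) 0 := by
    intro i
    have := ((hasDerivAt_id (0 : ℝ)).mul_const (w i)).const_add (v i)
    simpa using this
  have h2 : w 2 = 0 := by
    have e : (fun s : ℝ => amb (v + s • w) 2) = fun s : ℝ => 11 / 4 * (v 2 + s * w 2) := by
      funext s
      simp [amb]
    have h := hi 2
    rw [e] at h
    have h' := ((hl 2).const_mul (11 / 4 : ℝ)).unique h
    linarith
  have h0 : w 0 = 0 := by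
    have e : (fun s : ℝ => amb (v + s • w) 0) = fun s : ℝ => (v 0 + s * w 0) * Sy (v 2 ^ 2) := by
      funext s
      simp [amb, h2]
    have h := hi 0
    rw [e] at h
    have h' := ((hl 0).mul_const (Sy (v 2 ^ 2))).unique h
    exact (mul_eq_zero.1 h').resolve_right hv
  have h1 : w 1 = 0 := by
    have e : (fun s : ℝ => amb (v + s • w) 1) = fun s : ℝ => (v 1 + s * w 1) * Sy (v 2 ^ 2) := by
      funext s
      simp [amb, h2]
    have h := hi 1
    rw [e] at h
    have h' := ((hl 1).mul_const (Sy (v 2 ^ 2))).unique h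
    exact (mul_eq_zero.1 h').resolve_right hv
  ext i
  fin_cases i
  · exact h0
  · exact h1
  · exact h2

theorem f0_eq : f0 = amb ∘ (fun p : S2 => (p : E3)) := rfl

theorem coe_contMDiff : ContMDiff (𝓡 2) 𝓘(ℝ, E3) ∞ (fun p : S2 => (p : E3)) := by
  have : Fact (Module.finrank ℝ E3 = 2 + 1) := ⟨finrank_euclideanSpace_fin⟩
  exact contMDiff_coe_sphere (n := 2)

theorem coe_mfderiv_inj (p : S2) :
    Function.Injective (mfderiv (𝓡 2) 𝓘(ℝ, E3) (fun p : S2 => (p : E3)) p) := by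
  have : Fact (Module.finrank ℝ E3 = 2 + 1) := ⟨finrank_euclideanSpace_fin⟩
  exact injective_mvfderiv_subtypeVal_sphere (n := 2) p

theorem isImm_f0 : IsImm 2 f0 := by
  refine ⟨?_, fun p => ?_⟩
  · rw [f0_eq]
    exact contDiff_amb.contMDiff.comp coe_contMDiff
  · have h1 : MDifferentiableAt 𝓘(ℝ, E3) 𝓘(ℝ, E3) amb ((fun p : S2 => (p : E3)) p) :=
      (contDiff_amb.differentiable (by simp) _).mdifferentiableAt
    have h2 : MDifferentiableAt (𝓡 2) 𝓘(ℝ, E3) (fun p : S2 => (p : E3)) p :=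
      (coe_contMDiff p).mdifferentiableAt (by simp)
    rw [f0_eq, mfderiv_comp p h1 h2, mfderiv_eq_fderiv]
    have h3 : Sy ((p : E3) 2 ^ 2) ≠ 0 :=
      (Sy_pos (sq_nonneg _) (sphere_sq_le p)).ne'
    exact (amb_fderiv_inj _ h3).comp (coe_mfderiv_inj p)

theorem f0_injective : Function.Injective f0 := by
  intro p q h
  have hc : ∀ i : Fin 3, f0 p i = f0 q i := fun i => by rw [h]
  have e2 : p.1 2 = q.1 2 := by
    have := hc 2
    simp only [f0, PiLp.toLp_apply, Matrix.cons_val] at this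
    linarith
  have hs : Sy (q.1 2 ^ 2) ≠ 0 := (Sy_pos (sq_nonneg _) (sphere_sq_le q)).ne'
  have e0 : p.1 0 = q.1 0 := by
    have := hc 0
    simp only [f0, PiLp.toLp_apply, Matrix.cons_val_zero, e2] at this
    exact mul_right_cancel₀ hs this
  have e1 : p.1 1 = q.1 1 := by
    have := hc 1
    simp only [f0, PiLp.toLp_apply, Matrix.cons_val_one, Matrix.cons_val_zero, e2] at this
    exact mul_right_cancel₀ hs this
  apply Subtype.ext
  ext i
  fin_cases i
  · exact e0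
  · exact e1
  · exact e2

end Pool.Agent.Lib.MP_ec58cd_gt
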