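import Pool.Agent.Lib.MP_ec58cd_gt.Conj
import Pool.Agent.Lib.MP_ec58cd_gt.Surface

/-!
# AXIS: the poles stay on the axis

PROOF.  `rotE = diag(-1, -1, 1)` is a linear isometry of `E3` (build it with
`LinearIsometryEquiv` from an explicit involution, or as a product of reflections), `rotS` its
restriction to the sphere: smooth by `ContMDiff.codRestrict_sphere`, an involution.
`f0 (rotS p) = rotE (f0 p)`, hence `rotE (f0 (rotS p)) = f0 p`.  `isMCF_conj` and uniqueness
(`T' = T`): `rotE (F t (rotS p)) = F t p` on `[0, T)`.  At a fixed point `p` of `rotS` (the poles):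
the first two coordinates are equal to their negatives.
-/

noncomputable section

open Set Filter Topology MeasureTheory Metric
open scoped Manifold ContDiff RealInnerProductSpace ENNReal

namespace Pool.Agent.Lib.MP_ec58cd_gt

/-- The half turn about the axis, as a linear map. -/
def axisLin : E3 →ₗ[ℝ] E3 where
  toFun v := !₂[-v 0, -v 1, v 2]
  map_add' v w := by
    ext i
    fin_cases i <;> simp <;> ring
  map_smul' c v := by
    ext i
    fin_cases i <;> simp

/-- The half turn about the axis, as a linear isometry. -/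
def axisIso : E3 →ₗᵢ[ℝ] E3 where
  toLinearMap := axisLin
  norm_map' v := by
    rw [EuclideanSpace.norm_eq, EuclideanSpace.norm_eq]
    simp [axisLin, Fin.sum_univ_three]

/-- The half turn about the axis. -/
def axisE : E3 ≃ₗᵢ[ℝ] E3 := axisIso.toLinearIsometryEquiv rfl

theorem axisE_apply (v : E3) : axisE v = !₂[-v 0, -v 1, v 2] := rfl

theorem axisE_mem (p : S2) : axisE p.1 ∈ sphere (0 : E3) 1 := by
  rw [mem_sphere_zero_iff_norm, axisE.norm_map]
  exact mem_sphere_zero_iff_norm.1 p.2

/-- The half turn of the sphere. -/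
def axisS : S2 → S2 := Set.codRestrict (fun p : S2 => axisE p.1) (sphere (0 : E3) 1) axisE_mem

theorem axisS_smooth : ContMDiff (𝓡 2) (𝓡 2) ∞ axisS := by
  haveI : Fact (Module.finrank ℝ E3 = 2 + 1) := ⟨by simp⟩
  have h1 : ContMDiff 𝓘(ℝ, E3) 𝓘(ℝ, E3) ∞ (fun v : E3 => axisE v) :=
    (axisE.toContinuousLinearEquiv.contDiff (n := ∞)).contMDiff
  have h2 : ContMDiff (𝓡 2) 𝓘(ℝ, E3) ∞ (fun p : S2 => axisE p.1) :=
    h1.comp contMDiff_coe_sphere
  exact h2.codRestrict_sphere axisE_mem

theorem axisS_invol (p : S2) : axisS (axisS p) = p := by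
  apply Subtype.ext
  change axisE (axisE p.1) = p.1
  rw [axisE_apply, axisE_apply]
  ext i
  fin_cases i <;> simp

theorem f0_axis (p : S2) : axisE (f0 (axisS p)) = f0 p := by
  have h1 : (axisS p).1 = !₂[-p.1 0, -p.1 1, p.1 2] := rfl
  rw [axisE_apply]
  unfold f0
  rw [h1]
  ext i
  fin_cases i <;> simp

theorem axisS_fix {p : S2} (h0 : p.1 0 = 0) (h1 : p.1 1 = 0) : axisS p = p := by
  apply Subtype.ext
  change axisE p.1 = p.1
  rw [axisE_apply]
  ext i
  fin_cases i <;> simp [h0, h1]

theorem axis {F : ℝ → S2 → E3} {T : ℝ} (h : IsMCF 2 F T f0)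
    (hu : ∀ T' F', IsMCF 2 F' T' f0 → T' ≤ T ∧ ∀ t ∈ Ico 0 T', F' t = F t) :
    ∀ t ∈ Ico 0 T, (F t north 0 = 0 ∧ F t north 1 = 0) ∧ (F t south 0 = 0 ∧ F t south 1 = 0) := by
  intro t ht
  have h1 := isMCF_conj axisE axisS_smooth axisS_invol h f0_axis
  have h2 := (hu T _ h1).2 t ht
  have key : ∀ p : S2, p.1 0 = 0 → p.1 1 = 0 → F t p 0 = 0 ∧ F t p 1 = 0 := by
    intro p hp0 hp1
    have h3 : axisE (F t (axisS p)) = F t p := congrFun h2 p
    rw [axisS_fix hp0 hp1, axisE_apply] at h3
    constructor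
    · have h4 := congrArg (fun v : E3 => v 0) h3
      simp at h4
      linarith
    · have h4 := congrArg (fun v : E3 => v 1) h3
      simp at h4
      linarith
  exact ⟨key north (by simp [north]) (by simp [north]), key south (by simp [south]) (by simp [south])⟩

end Pool.Agent.Lib.MP_ec58cd_gt
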