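import Pool.Agent.Lib.MP_ec58cd_gt.Poly

/-!
# BERN: positivity certificates on boxes

For `y = (lo + hi a) / (N (1 + a))`, `a ≥ 0`, `N > 0` (so `y` runs through `[lo/N, hi/N)`), put
`D = N (1 + a)`, `D y = lo + hi a`.

PROOFS (inductions).
`ev1_lin : ev1 (lin lo hi c l) a = c + (lo + hi * a) * ev1 l a`.
`ev1_powN : ev1 (powN N m) a = (N * (1 + a)) ^ m`.
`comb_map : ev1 (comb l (T.map (lin lo hi 0))) a = (lo + hi * a) * ev1 (comb l T) a`.
`ev1_comb : l.length ≤ m + 1 → D y = lo + hi a → ev1 (comb l (tab lo hi N m)) a = D ^ m * ev1 l y`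
by induction on `m` generalising `l`: `D ^ (m+1) (c + y R) = c D ^ (m+1) + (lo + hi a) (D ^ m R)`.
The same for `combR` (rows as coefficients):
`ev2_combR : ev2 (combR l (tab lo hi N m)) a b = D ^ m * ev2 l y b`.
`good1, good2`: all coefficients `≥ 0`, the constant one `> 0`, so positive for `a, b ≥ 0`.
`pos1_sound`, `pos2_sound`: take `a := (N y - lo) / (hi - N y) ≥ 0`.
`check1_sound` (depth `k`), `check2_sound` (tree): induction; the box is split in the middle
(`[2 lo, lo + hi] / 2N`, `[lo + hi, 2 hi] / 2N`).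
-/

noncomputable section

open Set Filter Topology

namespace Pool.Agent.Lib.MP_ec58cd_gt

/-- `(lo + hi a) * l + c` -/
def lin (lo hi : ℤ) : ℤ → List ℤ → List ℤ
  | c, [] => [c]
  | c, x :: l => (lo * x + c) :: lin lo hi (hi * x) l

/-- `(N (1 + a)) ^ m` -/
def powN (N : ℤ) : ℕ → List ℤ
  | 0 => [1]
  | m + 1 => lin N N 0 (powN N m)

/-- the polynomials `(lo + hi a) ^ k (N (1 + a)) ^ (m - k)`, `k = 0, .., m` -/
def tab (lo hi N : ℤ) : ℕ → List (List ℤ)
  | 0 => [[1]]
  | m + 1 => powN N (m + 1) :: (tab lo hi N m).map (lin lo hi 0)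

/-- `∑ c_k T_k` -/
def comb : List ℤ → List (List ℤ) → List ℤ
  | [], _ => []
  | _, [] => []
  | c :: l, r :: T => add1 (sc1 c r) (comb l T)

/-- `∑ r_k(b) T_k(a)` -/
def combR : List (List ℤ) → List (List ℤ) → List (List ℤ)
  | [], _ => []
  | _, [] => []
  | r :: l, c :: T => add2 (c.map fun x => sc1 x r) (combR l T)

/-- numerator polynomial in two variables -/
def hom2 (y0 y1 Ny t0 t1 Nt : ℤ) (n m : ℕ) (l : List (List ℤ)) : List (List ℤ) :=
  combR (l.map fun r => comb r (tab t0 t1 Nt m)) (tab y0 y1 Ny n)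

/-- first coefficient positive, the others nonnegative -/
def good1 : List ℤ → Bool
  | [] => false
  | c :: l => decide (0 < c) && l.all fun x => decide (0 ≤ x)

/-- first coefficient positive, the others nonnegative -/
def good2 : List (List ℤ) → Bool
  | [] => false
  | r :: l => good1 r && l.all fun s => s.all fun x => decide (0 ≤ x)

/-- certified positive on `[lo/N, hi/N)` -/
def pos1 (lo hi N : ℤ) (m : ℕ) (l : List ℤ) : Bool :=
  decide (l.length ≤ m + 1) && good1 (comb l (tab lo hi N m))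

/-- certified positive on `[y0/Ny, y1/Ny) × [t0/Nt, t1/Nt)` -/
def pos2 (y0 y1 Ny t0 t1 Nt : ℤ) (n m : ℕ) (l : List (List ℤ)) : Bool :=
  decide (l.length ≤ n + 1) && (l.all fun r => decide (r.length ≤ m + 1)) &&
    good2 (hom2 y0 y1 Ny t0 t1 Nt n m l)

/-- recursive subdivision in one variable -/
def check1 (test : ℤ → ℤ → ℤ → Bool) : ℕ → ℤ → ℤ → ℤ → Bool
  | 0, lo, hi, N => test lo hi N
  | k + 1, lo, hi, N => test lo hi N ||
      (check1 test k (2 * lo) (lo + hi) (2 * N) && check1 test k (lo + hi) (2 * hi) (2 * N))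

/-- subdivision trees; a leaf says which test is used -/
inductive Tr
  | lf (k : ℕ)
  | nd (l r : Tr)

/-- recursive subdivision in two variables: split `y` if the box is at least `3` times wider in `y`
than in `t` -/
def check2 (test : ℕ → ℤ → ℤ → ℤ → ℤ → ℤ → ℤ → Bool) : Tr → ℤ → ℤ → ℤ → ℤ → ℤ → ℤ → Bool
  | .lf k, y0, y1, Ny, t0, t1, Nt => test k y0 y1 Ny t0 t1 Nt
  | .nd l r, y0, y1, Ny, t0, t1, Nt =>
      if 3 * ((t1 - t0) * Ny) ≤ (y1 - y0) * Nt then
        (check2 test l (2 * y0) (y0 + y1) (2 * Ny) t0 t1 Nt &&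
          check2 test r (y0 + y1) (2 * y1) (2 * Ny) t0 t1 Nt)
      else
        (check2 test l y0 y1 Ny (2 * t0) (t0 + t1) (2 * Nt) &&
          check2 test r y0 y1 Ny (t0 + t1) (2 * t1) (2 * Nt))

theorem ev1_nil (x : ℝ) : ev1 [] x = 0 := rfl
theorem ev1_cons (a : ℤ) (l : List ℤ) (x : ℝ) : ev1 (a :: l) x = a + x * ev1 l x := rfl
theorem ev2_nil (y t : ℝ) : ev2 [] y t = 0 := rfl
theorem ev2_cons (a : List ℤ) (l : List (List ℤ)) (y t : ℝ) :
    ev2 (a :: l) y t = ev1 a t + y * ev2 l y t := rfl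

theorem ev1_lin (lo hi c : ℤ) (l : List ℤ) (a : ℝ) :
    ev1 (lin lo hi c l) a = c + (lo + hi * a) * ev1 l a := by
  induction l generalizing c with
  | nil => simp [lin, ev1]
  | cons x l ih =>
    rw [lin, ev1_cons, ih, ev1_cons]
    push_cast
    ring

theorem ev1_powN (N : ℤ) (m : ℕ) (a : ℝ) : ev1 (powN N m) a = (N * (1 + a)) ^ m := by
  induction m with
  | zero => simp [powN, ev1]
  | succ m ih =>
    rw [powN, ev1_lin, ih]
    push_cast
    ring

theorem comb_map (lo hi : ℤ) (l : List ℤ) (T : List (List ℤ)) (a : ℝ) :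
    ev1 (comb l (T.map (lin lo hi 0))) a = (lo + hi * a) * ev1 (comb l T) a := by
  induction l generalizing T with
  | nil => simp [comb, ev1]
  | cons c l ih =>
    cases T with
    | nil => simp [comb, ev1]
    | cons r T =>
      rw [List.map_cons, comb, comb, ev1_add, ev1_add, ih, ev1_sc, ev1_sc, ev1_lin]
      push_cast
      ring

theorem comb_nil_left (T : List (List ℤ)) : comb [] T = [] := by
  cases T <;> rfl

theorem combR_nil_left (T : List (List ℤ)) : combR [] T = [] := by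
  cases T <;> rfl

theorem ev1_comb (lo hi N : ℤ) (m : ℕ) (l : List ℤ) (hl : l.length ≤ m + 1) {a y : ℝ}
    (hy : (N * (1 + a)) * y = lo + hi * a) :
    ev1 (comb l (tab lo hi N m)) a = (N * (1 + a)) ^ m * ev1 l y := by
  induction m generalizing l with
  | zero =>
    cases l with
    | nil => simp [comb_nil_left, ev1]
    | cons c l =>
      have : l = [] := by
        cases l with
        | nil => rfl
        | cons _ _ => simp at hl
      subst this
      rw [tab, comb, ev1_add, ev1_sc, comb_nil_left, ev1_nil, ev1_cons, ev1_cons, ev1_nil, ev1_nil]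
      simp
  | succ m ih =>
    cases l with
    | nil => simp [comb_nil_left, ev1]
    | cons c l =>
      have hl' : l.length ≤ m + 1 := by simpa using hl
      rw [tab, comb, ev1_add, ev1_sc, ev1_powN, comb_map, ih l hl', ev1_cons, ← hy]
      ring

theorem ev2_mapsc (c : List ℤ) (r : List ℤ) (a b : ℝ) :
    ev2 (c.map fun x => sc1 x r) a b = ev1 c a * ev1 r b := by
  induction c with
  | nil => simp [ev1, ev2]
  | cons x c ih =>
    rw [List.map_cons, ev2_cons, ih, ev1_sc, ev1_cons]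
    ring

theorem combR_map (lo hi : ℤ) (l : List (List ℤ)) (T : List (List ℤ)) (a b : ℝ) :
    ev2 (combR l (T.map (lin lo hi 0))) a b = (lo + hi * a) * ev2 (combR l T) a b := by
  induction l generalizing T with
  | nil => simp [combR, ev2]
  | cons c l ih =>
    cases T with
    | nil => simp [combR, ev2]
    | cons r T =>
      rw [List.map_cons, combR, combR, ev2_add, ev2_add, ih, ev2_mapsc, ev2_mapsc, ev1_lin]
      push_cast
      ring

theorem ev2_combR (lo hi N : ℤ) (m : ℕ) (l : List (List ℤ)) (hl : l.length ≤ m + 1) {a y : ℝ}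
    (b : ℝ) (hy : (N * (1 + a)) * y = lo + hi * a) :
    ev2 (combR l (tab lo hi N m)) a b = (N * (1 + a)) ^ m * ev2 l y b := by
  induction m generalizing l with
  | zero =>
    cases l with
    | nil => simp [combR_nil_left, ev2]
    | cons c l =>
      have : l = [] := by
        cases l with
        | nil => rfl
        | cons _ _ => simp at hl
      subst this
      rw [tab, combR, ev2_add, ev2_mapsc, combR_nil_left, ev2_nil, ev1_cons, ev2_cons, ev1_nil,
        ev2_nil]
      simp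
  | succ m ih =>
    cases l with
    | nil => simp [combR_nil_left, ev2]
    | cons c l =>
      have hl' : l.length ≤ m + 1 := by simpa using hl
      rw [tab, combR, ev2_add, ev2_mapsc, ev1_powN, combR_map, ih l hl', ev2_cons, ← hy]
      ring

theorem ev2_map_rows (lo hi N : ℤ) (m : ℕ) (l : List (List ℤ)) (hl : ∀ r ∈ l, r.length ≤ m + 1)
    {b t : ℝ} (y : ℝ) (ht : (N * (1 + b)) * t = lo + hi * b) :
    ev2 (l.map fun r => comb r (tab lo hi N m)) y b = (N * (1 + b)) ^ m * ev2 l y t := by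
  induction l with
  | nil => simp [ev2]
  | cons r l ih =>
    rw [List.map_cons, ev2_cons, ih (fun s hs => hl s (List.mem_cons_of_mem _ hs)),
      ev1_comb lo hi N m r (hl r List.mem_cons_self) ht, ev2_cons]
    ring

theorem ev1_nonneg {l : List ℤ} (h : ∀ x ∈ l, (0 : ℤ) ≤ x) {a : ℝ} (ha : 0 ≤ a) : 0 ≤ ev1 l a := by
  induction l with
  | nil => simp [ev1]
  | cons x l ih =>
    rw [ev1_cons]
    have h1 : (0 : ℝ) ≤ x := by exact_mod_cast h x List.mem_cons_self
    have h2 := ih (fun y hy => h y (List.mem_cons_of_mem _ hy))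
    positivity

theorem good1_pos {l : List ℤ} (h : good1 l = true) {a : ℝ} (ha : 0 ≤ a) : 0 < ev1 l a := by
  cases l with
  | nil => simp [good1] at h
  | cons c l =>
    simp only [good1, Bool.and_eq_true, decide_eq_true_eq, List.all_eq_true] at h
    rw [ev1_cons]
    have h1 : (0 : ℝ) < c := by exact_mod_cast h.1
    have h2 := ev1_nonneg h.2 ha
    positivity

theorem ev2_nonneg {l : List (List ℤ)} (h : ∀ r ∈ l, ∀ x ∈ r, (0 : ℤ) ≤ x) {a b : ℝ} (ha : 0 ≤ a)
    (hb : 0 ≤ b) : 0 ≤ ev2 l a b := by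
  induction l with
  | nil => simp [ev2]
  | cons x l ih =>
    rw [ev2_cons]
    have h1 := ev1_nonneg (h x List.mem_cons_self) hb
    have h2 := ih (fun y hy => h y (List.mem_cons_of_mem _ hy))
    positivity

theorem good2_pos {l : List (List ℤ)} (h : good2 l = true) {a b : ℝ} (ha : 0 ≤ a) (hb : 0 ≤ b) :
    0 < ev2 l a b := by
  cases l with
  | nil => simp [good2] at h
  | cons c l =>
    simp only [good2, Bool.and_eq_true, decide_eq_true_eq, List.all_eq_true] at h
    rw [ev2_cons]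
    have h1 := good1_pos h.1 hb
    have h2 := ev2_nonneg h.2 ha hb
    positivity

/-- the parameter of a point of the interval -/
theorem param {lo hi N : ℤ} (hN : 0 < N) {y : ℝ} (h0 : (lo : ℝ) / N ≤ y) (h1 : y < hi / N) :
    ∃ a : ℝ, 0 ≤ a ∧ (N * (1 + a)) * y = lo + hi * a := by
  have hN' : (0 : ℝ) < N := by exact_mod_cast hN
  rw [div_le_iff₀ hN'] at h0
  rw [lt_div_iff₀ hN'] at h1
  have h2 : (0 : ℝ) < hi - y * N := by linarith
  refine ⟨(y * N - lo) / (hi - y * N), div_nonneg (by linarith) h2.le, ?_⟩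
  have h3 : 1 + (y * N - lo) / (hi - y * N) = (hi - lo) / (hi - y * N) := by
    rw [eq_div_iff h2.ne', add_mul, div_mul_cancel₀ _ h2.ne']
    ring
  have h4 : (lo : ℝ) + hi * ((y * N - lo) / (hi - y * N)) =
      (lo * (hi - y * N) + hi * (y * N - lo)) / (hi - y * N) := by
    rw [eq_div_iff h2.ne', add_mul, mul_assoc, div_mul_cancel₀ _ h2.ne']
  rw [h3, h4, mul_div_assoc', div_mul_eq_mul_div]
  congr 1
  ring

theorem pos1_sound {lo hi N : ℤ} (hN : 0 < N) {m : ℕ} {l : List ℤ} (h : pos1 lo hi N m l = true)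
    {y : ℝ} (h0 : (lo : ℝ) / N ≤ y) (h1 : y < hi / N) : 0 < ev1 l y := by
  obtain ⟨a, ha, hay⟩ := param hN h0 h1
  rw [pos1, Bool.and_eq_true, decide_eq_true_eq] at h
  have h2 := good1_pos h.2 ha
  rw [ev1_comb lo hi N m l h.1 hay] at h2
  have hN' : (0 : ℝ) < N := by exact_mod_cast hN
  have h3 : (0 : ℝ) < (N * (1 + a)) ^ m := by positivity
  exact (pos_iff_pos_of_mul_pos h2).1 h3

theorem pos2_sound {y0 y1 Ny t0 t1 Nt : ℤ} (hNy : 0 < Ny) (hNt : 0 < Nt) {n m : ℕ}
    {l : List (List ℤ)} (h : pos2 y0 y1 Ny t0 t1 Nt n m l = true) {y t : ℝ}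
    (h0 : (y0 : ℝ) / Ny ≤ y) (h1 : y < y1 / Ny) (h2 : (t0 : ℝ) / Nt ≤ t) (h3 : t < t1 / Nt) :
    0 < ev2 l y t := by
  obtain ⟨a, ha, hay⟩ := param hNy h0 h1
  obtain ⟨b, hb, hbt⟩ := param hNt h2 h3
  rw [pos2, Bool.and_eq_true, Bool.and_eq_true, decide_eq_true_eq, List.all_eq_true] at h
  have h4 := good2_pos h.2 ha hb
  have hl : (l.map fun r => comb r (tab t0 t1 Nt m)).length ≤ n + 1 := by
    rw [List.length_map]; exact h.1.1
  rw [hom2, ev2_combR y0 y1 Ny n _ hl b hay,
    ev2_map_rows t0 t1 Nt m l (fun r hr => by simpa using h.1.2 r hr) y hbt] at h4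
  have hNy' : (0 : ℝ) < Ny := by exact_mod_cast hNy
  have hNt' : (0 : ℝ) < Nt := by exact_mod_cast hNt
  have h5 : (0 : ℝ) < (Ny * (1 + a)) ^ n := by positivity
  have h6 : (0 : ℝ) < (Nt * (1 + b)) ^ m := by positivity
  exact (pos_iff_pos_of_mul_pos ((pos_iff_pos_of_mul_pos h4).1 h5)).1 h6

theorem check1_sound {test : ℤ → ℤ → ℤ → Bool} {P : ℝ → Prop}
    (ht : ∀ lo hi N : ℤ, 0 < N → test lo hi N = true → ∀ y : ℝ, (lo : ℝ) / N ≤ y → y < hi / N → P y)
    {k : ℕ} {lo hi N : ℤ} (hN : 0 < N) (h : check1 test k lo hi N = true)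
    {y : ℝ} (h0 : (lo : ℝ) / N ≤ y) (h1 : y < hi / N) : P y := by
  induction k generalizing lo hi N with
  | zero => exact ht lo hi N hN h y h0 h1
  | succ k ih =>
    have hN' : (0 : ℝ) < N := by exact_mod_cast hN
    rw [check1, Bool.or_eq_true, Bool.and_eq_true] at h
    rcases h with h | ⟨ha, hb⟩
    · exact ht lo hi N hN h y h0 h1
    · rcases lt_or_ge y (((lo + hi : ℤ) : ℝ) / ((2 * N : ℤ) : ℝ)) with hy | hy
      · refine ih (by omega) ha ?_ hy
        push_cast
        rw [mul_div_mul_left _ _ two_ne_zero]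
        exact h0
      · refine ih (by omega) hb hy ?_
        push_cast
        rw [mul_div_mul_left _ _ two_ne_zero]
        exact h1

theorem check2_sound {test : ℕ → ℤ → ℤ → ℤ → ℤ → ℤ → ℤ → Bool} {P : ℝ → ℝ → Prop}
    (ht : ∀ (k : ℕ) (y0 y1 Ny t0 t1 Nt : ℤ), 0 < Ny → 0 < Nt → test k y0 y1 Ny t0 t1 Nt = true →
      ∀ y t : ℝ, (y0 : ℝ) / Ny ≤ y → y < y1 / Ny → (t0 : ℝ) / Nt ≤ t → t < t1 / Nt → P y t)
    {T : Tr} {y0 y1 Ny t0 t1 Nt : ℤ} (hNy : 0 < Ny) (hNt : 0 < Nt)
    (h : check2 test T y0 y1 Ny t0 t1 Nt = true) {y t : ℝ}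
    (h0 : (y0 : ℝ) / Ny ≤ y) (h1 : y < y1 / Ny) (h2 : (t0 : ℝ) / Nt ≤ t) (h3 : t < t1 / Nt) :
    P y t := by
  induction T generalizing y0 y1 Ny t0 t1 Nt with
  | lf k => exact ht k y0 y1 Ny t0 t1 Nt hNy hNt h y t h0 h1 h2 h3
  | nd l r ihl ihr =>
    rw [check2] at h
    split_ifs at h with hc
    · rw [Bool.and_eq_true] at h
      rcases lt_or_ge y (((y0 + y1 : ℤ) : ℝ) / ((2 * Ny : ℤ) : ℝ)) with hy | hy
      · refine ihl (by omega) hNt h.1 ?_ hy h2 h3
        push_cast
        rw [mul_div_mul_left _ _ two_ne_zero]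
        exact h0
      · refine ihr (by omega) hNt h.2 hy ?_ h2 h3
        push_cast
        rw [mul_div_mul_left _ _ two_ne_zero]
        exact h1
    · rw [Bool.and_eq_true] at h
      rcases lt_or_ge t (((t0 + t1 : ℤ) : ℝ) / ((2 * Nt : ℤ) : ℝ)) with hy | hy
      · refine ihl hNy (by omega) h.1 h0 h1 ?_ hy
        push_cast
        rw [mul_div_mul_left _ _ two_ne_zero]
        exact h2
      · refine ihr hNy (by omega) h.2 h0 h1 hy ?_
        push_cast
        rw [mul_div_mul_left _ _ two_ne_zero]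
        exact h3

end Pool.Agent.Lib.MP_ec58cd_gt
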