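import Pool.Agent.Lib.MP_ec58cd_gt.Second

/-!
# CONJA: invariance of the mean curvature vector of a patch

PROOF.  Put `y = τ x`, `L = fderiv X y`, `D = fderiv τ x`, `X' = R ∘ X ∘ τ`.  `fderiv X' x = R ∘ L ∘ D`.
Take `u` with `fderiv X' x (u i)` orthonormal; then `L (D (u i))` is orthonormal.
`meanCurv_eq_frame` for both sides.  Both sides are orthogonal to `tangent X' x`, and for `c`
orthogonal to `tangent X' x` compare the values of `⟪c, ·⟫` with `apply_secondFF`.
-/

noncomputable section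

open Set Filter Topology MeasureTheory Metric
open scoped Manifold ContDiff RealInnerProductSpace ENNReal

namespace Pool.Agent.Lib.MP_ec58cd_gt

variable {n : ℕ} {E : Type*} [NormedAddCommGroup E] [InnerProductSpace ℝ E] [FiniteDimensional ℝ E]

theorem conjA_fderiv2_clm {W : Type*} [NormedAddCommGroup W] [NormedSpace ℝ W] (ψ : E →L[ℝ] ℝ)
    {X : W → E} {y : W} (hX : ContDiffAt ℝ 2 X y) (a b : W) :
    fderiv ℝ (fderiv ℝ (fun z => ψ (X z))) y a b = ψ (fderiv ℝ (fderiv ℝ X) y a b) := by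
  have h := fderiv2_comp (Φ := fun v => ψ v) (X := X) (x := y) ψ.contDiff.contDiffAt hX a b
  have h1 : fderiv ℝ (fun v => ψ v) = fun _ => ψ := by
    ext1 v
    exact ψ.fderiv
  rw [h, h1]
  simp

/-- Invariance of `meanCurv` under an isometry and a change of parameters. -/
theorem meanCurv_comp (R : E ≃ₗᵢ[ℝ] E) {X : EuclideanSpace ℝ (Fin n) → E}
    {τ : EuclideanSpace ℝ (Fin n) → EuclideanSpace ℝ (Fin n)} {x : EuclideanSpace ℝ (Fin n)}
    (hX : ContDiffAt ℝ 2 X (τ x)) (hτ : ContDiffAt ℝ 2 τ x)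
    (hXi : Function.Injective (fderiv ℝ X (τ x))) (hτi : Function.Injective (fderiv ℝ τ x)) :
    meanCurv (fun y => R (X (τ y))) x = R (meanCurv X (τ x)) := by
  set Rc : E →L[ℝ] E := (R.toContinuousLinearEquiv : E →L[ℝ] E) with hRc
  have hRa : ∀ v, Rc v = R v := fun v => rfl
  have h1 : fderiv ℝ (fun y => R (X (τ y))) x = Rc.comp ((fderiv ℝ X (τ x)).comp (fderiv ℝ τ x)) := by
    have hd1 : HasFDerivAt τ (fderiv ℝ τ x) x := (hτ.differentiableAt (by norm_num)).hasFDerivAt
    have hd2 : HasFDerivAt X (fderiv ℝ X (τ x)) (τ x) :=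
      (hX.differentiableAt (by norm_num)).hasFDerivAt
    exact (Rc.hasFDerivAt.comp x (hd2.comp x hd1)).fderiv
  have h1a : ∀ v, fderiv ℝ (fun y => R (X (τ y))) x v = R (fderiv ℝ X (τ x) (fderiv ℝ τ x v)) := by
    intro v
    rw [h1]
    rfl
  have hDs : Function.Surjective (fderiv ℝ τ x) :=
    (LinearMap.injective_iff_surjective (f := (fderiv ℝ τ x : EuclideanSpace ℝ (Fin n) →ₗ[ℝ] _))).1
      hτi
  have hinj : Function.Injective (fderiv ℝ (fun y => R (X (τ y))) x) := by
    intro v w hvw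
    rw [h1a, h1a] at hvw
    exact hτi (hXi (R.injective hvw))
  obtain ⟨u, hu⟩ := exists_frame _ hinj
  have hu' : Orthonormal ℝ (fun i => fderiv ℝ X (τ x) (fderiv ℝ τ x (u i))) := by
    rw [orthonormal_iff_ite] at hu ⊢
    intro i j
    rw [← hu i j, h1a, h1a, LinearIsometryEquiv.inner_map_map]
  have e1 := meanCurv_eq_frame _ x u hu
  have e2 := meanCurv_eq_frame X (τ x) (fun i => fderiv ℝ τ x (u i)) hu'
  -- orthogonal functionals
  have key : ∀ c : E, (∀ v, ⟪c, fderiv ℝ (fun y => R (X (τ y))) x v⟫ = 0) →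
      ⟪c, meanCurv (fun y => R (X (τ y))) x⟫ = ⟪c, R (meanCurv X (τ x))⟫ := by
    intro c hc
    set φ : E →L[ℝ] ℝ := innerSL ℝ c with hφ
    have hφa : ∀ v, φ v = ⟪c, v⟫ := fun v => rfl
    set ψ : E →L[ℝ] ℝ := φ.comp Rc with hψ
    have hψa : ∀ v, ψ v = ⟪c, R v⟫ := fun v => rfl
    have hψL : ∀ w, ψ (fderiv ℝ X (τ x) w) = 0 := by
      intro w
      obtain ⟨v, rfl⟩ := hDs w
      rw [hψa, ← h1a]
      exact hc v
    have hcd : ContDiffAt ℝ 2 (fun y => R (X (τ y))) x :=
      Rc.contDiff.contDiffAt.comp x (hX.comp x hτ)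
    rw [e1, e2, map_sum, inner_sum, inner_sum]
    refine Finset.sum_congr rfl fun i _ => ?_
    rw [← hφa, apply_secondFF _ x φ (fun v => hc v), ← hψa, apply_secondFF X (τ x) ψ hψL,
      ← conjA_fderiv2_clm φ hcd, ← conjA_fderiv2_clm ψ hX]
    have h2 := fderiv2_comp (Φ := fun w => ψ (X w)) (X := τ) (x := x)
      (ψ.contDiff.contDiffAt.comp _ hX) hτ (u i) (u i)
    have h3 : fderiv ℝ (fun w => ψ (X w)) (τ x) = 0 := by
      have hd2 : HasFDerivAt X (fderiv ℝ X (τ x)) (τ x) :=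
        (hX.differentiableAt (by norm_num)).hasFDerivAt
      have h4 : fderiv ℝ (fun w => ψ (X w)) (τ x) = ψ.comp (fderiv ℝ X (τ x)) :=
        (ψ.hasFDerivAt.comp (τ x) hd2).fderiv
      rw [h4]
      ext1 w
      exact hψL w
    rw [h3] at h2
    have h5 : (fun z => φ (R (X (τ z)))) = fun y => ψ (X (τ y)) := rfl
    rw [h5]
    simpa using h2
  apply ext_inner_left ℝ
  intro c
  set K := tangent (fun y => R (X (τ y))) x with hK
  have hc1 : K.starProjection c ∈ K := K.starProjection_apply_mem c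
  have hc2 : c - K.starProjection c ∈ Kᗮ := K.sub_starProjection_mem_orthogonal c
  obtain ⟨v, hv⟩ := hc1
  have hv' : fderiv ℝ (fun y => R (X (τ y))) x v = K.starProjection c := hv
  have hn : ⟪c - K.starProjection c, meanCurv (fun y => R (X (τ y))) x⟫ =
      ⟪c - K.starProjection c, R (meanCurv X (τ x))⟫ := by
    apply key
    intro w
    have : fderiv ℝ (fun y => R (X (τ y))) x w ∈ K := ⟨w, rfl⟩
    rw [real_inner_comm]
    exact hc2 _ this
  have ht1 : ⟪K.starProjection c, meanCurv (fun y => R (X (τ y))) x⟫ = 0 := by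
    rw [← hv']
    exact inner_meanCurv _ x v
  have ht2 : ⟪K.starProjection c, R (meanCurv X (τ x))⟫ = 0 := by
    rw [← hv', h1a, LinearIsometryEquiv.inner_map_map]
    exact inner_meanCurv X (τ x) _
  rw [inner_sub_left, inner_sub_left, ht1, ht2, sub_zero, sub_zero] at hn
  exact hn

end Pool.Agent.Lib.MP_ec58cd_gt
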