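import Pool.Agent.Lib.MP_ec58cd_gt.Touch
import Pool.Agent.Lib.MP_ec58cd_gt.ConjA

/-!
# CONJ: invariance of the mean curvature vector under isometries and reparametrisations

PROOF of `MCV_conj`.  `X := writtenInExtChartAt … (ρ p) f`, `y := extChartAt (ρ p) (ρ p)`,
`X' := writtenInExtChartAt … p (fun q => R (f (ρ q)))`, `x := extChartAt p p`,
`τ := extChartAt (ρ p) ∘ ρ ∘ (extChartAt p).symm`: smooth near `x`, `τ x = y`, and
`X' =ᶠ[𝓝 x] R ∘ X ∘ τ`.  `fderiv τ x` is the derivative of `ρ` at `p`, injective because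
`ρ ∘ ρ = id`.  Then `meanCurv_comp` (`meanCurv` depends on the germ only).
-/

noncomputable section

open Set Filter Topology MeasureTheory Metric
open scoped Manifold ContDiff RealInnerProductSpace ENNReal

namespace Pool.Agent.Lib.MP_ec58cd_gt

variable {n : ℕ} {E : Type*} [NormedAddCommGroup E] [InnerProductSpace ℝ E] [FiniteDimensional ℝ E]
variable {M : Type*} [TopologicalSpace M] [ChartedSpace (EuclideanSpace ℝ (Fin n)) M]
  [IsManifold (𝓡 n) ∞ M]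

theorem conj_meanCurv_congr {X X' : EuclideanSpace ℝ (Fin n) → E} {x : EuclideanSpace ℝ (Fin n)}
    (h : X =ᶠ[𝓝 x] X') : meanCurv X x = meanCurv X' x := by
  have h1 : fderiv ℝ X x = fderiv ℝ X' x := h.fderiv_eq
  have h2 : fderiv ℝ (fderiv ℝ X) x = fderiv ℝ (fderiv ℝ X') x := h.fderiv.fderiv_eq
  have h3 : tangent X x = tangent X' x := by
    unfold tangent
    rw [h1]
  have h4 : gram X x = gram X' x := by
    unfold gram
    rw [h1]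
  have h5 : ∀ v w, secondFF X x v w = secondFF X' x v w := by
    intro v w
    simp only [secondFF, h3, h2]
  unfold meanCurv
  rw [h4]
  simp only [h5]

theorem conj_mfderiv_injective {ρ : M → M} (hρ : ContMDiff (𝓡 n) (𝓡 n) ∞ ρ)
    (hρ2 : ∀ p, ρ (ρ p) = p) (p : M) : Function.Injective (mfderiv (𝓡 n) (𝓡 n) ρ p) := by
  have hd : MDifferentiable (𝓡 n) (𝓡 n) ρ := hρ.mdifferentiable (by simp)
  have h1 : mfderiv (𝓡 n) (𝓡 n) (ρ ∘ ρ) p =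
      (mfderiv (𝓡 n) (𝓡 n) ρ (ρ p)).comp (mfderiv (𝓡 n) (𝓡 n) ρ p) :=
    mfderiv_comp p (hd _) (hd _)
  have h2 : ρ ∘ ρ = id := funext hρ2
  have h3 : mfderiv (𝓡 n) (𝓡 n) (ρ ∘ ρ) p = ContinuousLinearMap.id ℝ (EuclideanSpace ℝ (Fin n)) := by
    rw [h2]
    exact mfderiv_id
  intro v w hvw
  have h4 : ∀ v, (mfderiv (𝓡 n) (𝓡 n) ρ (ρ p)) (mfderiv (𝓡 n) (𝓡 n) ρ p v) = v := by
    intro v
    have := congrArg (fun L => L v) (h1.symm.trans h3)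
    exact this
  have h5 := h4 v
  rw [hvw, h4 w] at h5
  exact h5.symm

theorem isImm_conj (R : E ≃ₗᵢ[ℝ] E) {ρ : M → M} (hρ : ContMDiff (𝓡 n) (𝓡 n) ∞ ρ)
    (hρ2 : ∀ p, ρ (ρ p) = p) {f : M → E} (hf : IsImm n f) : IsImm n (fun q => R (f (ρ q))) := by
  have hR : ContMDiff 𝓘(ℝ, E) 𝓘(ℝ, E) ∞ (fun v : E => R v) :=
    (R.toContinuousLinearEquiv.contDiff (n := ∞)).contMDiff
  refine ⟨hR.comp (hf.1.comp hρ), fun p => ?_⟩
  have hd : MDifferentiableAt (𝓡 n) (𝓡 n) ρ p := hρ.mdifferentiable (by simp) p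
  have hfd : MDifferentiableAt (𝓡 n) 𝓘(ℝ, E) f (ρ p) := hf.1.mdifferentiable (by simp) _
  have hRd : MDifferentiableAt 𝓘(ℝ, E) 𝓘(ℝ, E) (fun v : E => R v) (f (ρ p)) :=
    hR.mdifferentiable (by simp) _
  have h1 : mfderiv (𝓡 n) 𝓘(ℝ, E) (f ∘ ρ) p =
      (mfderiv (𝓡 n) 𝓘(ℝ, E) f (ρ p)).comp (mfderiv (𝓡 n) (𝓡 n) ρ p) :=
    mfderiv_comp p hfd hd
  have h2 : mfderiv (𝓡 n) 𝓘(ℝ, E) ((fun v : E => R v) ∘ (f ∘ ρ)) p =
      (mfderiv 𝓘(ℝ, E) 𝓘(ℝ, E) (fun v : E => R v) (f (ρ p))).comp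
        (mfderiv (𝓡 n) 𝓘(ℝ, E) (f ∘ ρ) p) :=
    mfderiv_comp p hRd (hfd.comp p hd)
  have h3 : mfderiv 𝓘(ℝ, E) 𝓘(ℝ, E) (fun v : E => R v) (f (ρ p)) =
      (R.toContinuousLinearEquiv : E →L[ℝ] E) := by
    rw [mfderiv_eq_fderiv]
    exact R.toContinuousLinearEquiv.fderiv
  intro v w hvw
  have h4 : ∀ v, mfderiv (𝓡 n) 𝓘(ℝ, E) (fun q => R (f (ρ q))) p v =
      R ((mfderiv (𝓡 n) 𝓘(ℝ, E) f (ρ p)) (mfderiv (𝓡 n) (𝓡 n) ρ p v)) := by
    intro v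
    have h5 : mfderiv (𝓡 n) 𝓘(ℝ, E) (fun q => R (f (ρ q))) p =
      (R.toContinuousLinearEquiv : E →L[ℝ] E).comp
        ((mfderiv (𝓡 n) 𝓘(ℝ, E) f (ρ p)).comp (mfderiv (𝓡 n) (𝓡 n) ρ p)) := by
      refine h2.trans ?_
      rw [h3, h1]
      rfl
    rw [h5]
    rfl
  rw [h4, h4] at hvw
  exact conj_mfderiv_injective hρ hρ2 p (hf.2 _ (R.injective hvw))

theorem MCV_conj (R : E ≃ₗᵢ[ℝ] E) {ρ : M → M} (hρ : ContMDiff (𝓡 n) (𝓡 n) ∞ ρ)
    (hρ2 : ∀ p, ρ (ρ p) = p) {f : M → E} (hf : IsImm n f) (p : M) :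
    MCV n (fun q => R (f (ρ q))) p = R (MCV n f (ρ p)) := by
  set x := extChartAt (𝓡 n) p p with hx
  set X := writtenInExtChartAt (𝓡 n) 𝓘(ℝ, E) (ρ p) f with hX
  set τ := writtenInExtChartAt (𝓡 n) (𝓡 n) p ρ with hτ
  have hτx : τ x = extChartAt (𝓡 n) (ρ p) (ρ p) := by
    simp [hτ, hx, writtenInExtChartAt]
  have hr : range (𝓡 n) = univ := by simp
  have hτc : ContDiffAt ℝ ∞ τ x := by
    have h1 := (contMDiffAt_iff.1 (hρ p)).2
    rw [hr, contDiffWithinAt_univ] at h1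
    exact h1
  have hXc : ContDiffAt ℝ ∞ X (τ x) := by
    rw [hτx]
    exact chart_contDiffAt hf (ρ p)
  have hXi : Function.Injective (fderiv ℝ X (τ x)) := by
    rw [hτx]
    exact chart_injective hf (ρ p)
  have hτi : Function.Injective (fderiv ℝ τ x) := by
    have h1 := conj_mfderiv_injective hρ hρ2 p
    have hd : MDifferentiableAt (𝓡 n) (𝓡 n) ρ p := hρ.mdifferentiable (by simp) p
    rw [hd.mfderiv, hr, fderivWithin_univ] at h1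
    exact h1
  have hgerm : writtenInExtChartAt (𝓡 n) 𝓘(ℝ, E) p (fun q => R (f (ρ q))) =ᶠ[𝓝 x]
      fun z => R (X (τ z)) := by
    have hc : ContinuousAt (fun z => ρ ((extChartAt (𝓡 n) p).symm z)) x := by
      have h1 : ContinuousAt (extChartAt (𝓡 n) p).symm x := continuousAt_extChartAt_symm p
      exact ContinuousAt.comp (hρ.continuous.continuousAt) h1
    have hs : (extChartAt (𝓡 n) (ρ p)).source ∈ 𝓝 (ρ ((extChartAt (𝓡 n) p).symm x)) := by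
      rw [hx, extChartAt_to_inv]
      exact extChartAt_source_mem_nhds (ρ p)
    filter_upwards [hc hs] with z hz
    have hz' : ρ ((extChartAt (𝓡 n) p).symm z) ∈ (extChartAt (𝓡 n) (ρ p)).source := hz
    have h2 : (extChartAt (𝓡 n) (ρ p)).symm
        (extChartAt (𝓡 n) (ρ p) (ρ ((extChartAt (𝓡 n) p).symm z))) =
        ρ ((extChartAt (𝓡 n) p).symm z) := (extChartAt (𝓡 n) (ρ p)).left_inv hz'
    have h3 : writtenInExtChartAt (𝓡 n) 𝓘(ℝ, E) p (fun q => R (f (ρ q))) z =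
        R (f (ρ ((extChartAt (𝓡 n) p).symm z))) := rfl
    have h4 : X (τ z) = f ((extChartAt (𝓡 n) (ρ p)).symm
        (extChartAt (𝓡 n) (ρ p) (ρ ((extChartAt (𝓡 n) p).symm z)))) := rfl
    rw [h3, h4, h2]
  have h2 : (2 : WithTop ℕ∞) ≤ ((⊤ : ℕ∞) : WithTop ℕ∞) :=
    show ((2 : ℕ∞) : WithTop ℕ∞) ≤ ((⊤ : ℕ∞) : WithTop ℕ∞) from WithTop.coe_le_coe.2 le_top
  unfold MCV
  rw [← hx, conj_meanCurv_congr hgerm, meanCurv_comp R (hXc.of_le h2) (hτc.of_le h2) hXi hτi, hτx]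

theorem isMCF_conj (R : E ≃ₗᵢ[ℝ] E) {ρ : M → M} (hρ : ContMDiff (𝓡 n) (𝓡 n) ∞ ρ)
    (hρ2 : ∀ p, ρ (ρ p) = p) {F : ℝ → M → E} {T : ℝ} {f : M → E} (h : IsMCF n F T f)
    (hf : ∀ p, R (f (ρ p)) = f p) : IsMCF n (fun t p => R (F t (ρ p))) T f := by
  have hR : ContMDiff 𝓘(ℝ, E) 𝓘(ℝ, E) ∞ (fun v : E => R v) :=
    (R.toContinuousLinearEquiv.contDiff (n := ∞)).contMDiff
  refine ⟨h.pos, ?_, ?_, fun t ht => isImm_conj R hρ hρ2 (h.imm t ht), fun t ht p => ?_⟩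
  · ext1 p
    rw [h.init]
    exact hf p
  · have h1 : ContMDiff (𝓘(ℝ, ℝ).prod (𝓡 n)) (𝓘(ℝ, ℝ).prod (𝓡 n)) ∞
        (fun q : ℝ × M => (q.1, ρ q.2)) :=
      contMDiff_fst.prodMk (hρ.comp contMDiff_snd)
    have h2 : MapsTo (fun q : ℝ × M => (q.1, ρ q.2)) (Ico 0 T ×ˢ univ) (Ico 0 T ×ˢ univ) := by
      intro q hq
      exact ⟨hq.1, mem_univ _⟩
    exact hR.comp_contMDiffOn (h.smooth.comp h1.contMDiffOn h2)
  · rw [MCV_conj R hρ hρ2 (h.imm t ht) p]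
    have h1 := h.flow t ht (ρ p)
    exact (R.toContinuousLinearEquiv : E →L[ℝ] E).hasFDerivAt.comp_hasDerivWithinAt t h1

end Pool.Agent.Lib.MP_ec58cd_gt
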