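import Pool.Agent.Lib.MP_ec58cd_gt.PolyU
import Pool.Agent.Lib.MP_ec58cd_gt.Bern

/-!
# Data: the outer and the inner barrier
-/

noncomputable section

namespace Pool.Agent.Lib.MP_ec58cd_gt

/-- outer barrier, `0 ≤ t ≤ 79/250` -/
def pU : List (List ℤ) :=
  [[4361, -10700, -14000, 12000], [34417, -106300, 137100, -10000],
   [-36248, 182660, 152400, -1654000], [-26672, -135710, -1182600, 4340000],
   [24732, 38350, 931200, -2621000]]

/-- inner barrier, `0 ≤ t ≤ 53/200` -/
def pV : List (List ℤ) :=
  [[4272, -12580, -9900, -12000], [36224, -112820, 173400, -36000],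
   [-54806, 116940, -90800, -642000], [5489, 13140, -486500, 1293000],
   [8816, -45120, 391100, -299000]]

end Pool.Agent.Lib.MP_ec58cd_gt
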