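import Mathlib

/-!
# Mean curvature flow of immersed surfaces: definitions
-/

noncomputable section

open Set Filter Topology MeasureTheory Metric
open scoped Manifold ContDiff RealInnerProductSpace ENNReal

namespace Pool.Agent.Lib.MP_ec58cd_gt

section General

variable {n : ℕ} {E : Type*} [NormedAddCommGroup E] [InnerProductSpace ℝ E] [FiniteDimensional ℝ E]

/-- The `i`-th coordinate vector of `ℝⁿ`. -/
abbrev ebas (i : Fin n) : EuclideanSpace ℝ (Fin n) := EuclideanSpace.single i 1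

/-- First fundamental form (Gram matrix) at `x` of a parametrised `n`-dimensional patch `X`. -/
def gram (X : EuclideanSpace ℝ (Fin n) → E) (x : EuclideanSpace ℝ (Fin n)) :
    Matrix (Fin n) (Fin n) ℝ :=
  Matrix.of fun i j => ⟪fderiv ℝ X x (ebas i), fderiv ℝ X x (ebas j)⟫

/-- Tangent space at `x` of a parametrised patch `X`, as a subspace of the ambient space. -/
def tangent (X : EuclideanSpace ℝ (Fin n) → E) (x : EuclideanSpace ℝ (Fin n)) : Submodule ℝ E :=
  LinearMap.range (fderiv ℝ X x : EuclideanSpace ℝ (Fin n) →ₗ[ℝ] E)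

/-- Second fundamental form at `x` of a parametrised patch `X`: normal part of the second
derivative. -/
def secondFF (X : EuclideanSpace ℝ (Fin n) → E) (x v w : EuclideanSpace ℝ (Fin n)) : E :=
  (tangent X x)ᗮ.starProjection (fderiv ℝ (fderiv ℝ X) x v w)

/-- Mean curvature vector at `x` of a parametrised patch `X`: the trace
`∑ g^{ij} A(e_i, e_j)` of the second fundamental form. -/
def meanCurv (X : EuclideanSpace ℝ (Fin n) → E) (x : EuclideanSpace ℝ (Fin n)) : E :=
  ∑ i, ∑ j, (gram X x)⁻¹ i j • secondFF X x (ebas i) (ebas j)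

variable (n) {M : Type*} [TopologicalSpace M] [ChartedSpace (EuclideanSpace ℝ (Fin n)) M]

/-- Mean curvature vector at `p` of a map `f : M → E` on an `n`-manifold, computed in the preferred
chart at `p`. -/
def MCV (f : M → E) (p : M) : E :=
  meanCurv (writtenInExtChartAt (𝓡 n) 𝓘(ℝ, E) p f) (extChartAt (𝓡 n) p p)

/-- Smooth immersions. -/
def IsImm (f : M → E) : Prop :=
  ContMDiff (𝓡 n) 𝓘(ℝ, E) ∞ f ∧ ∀ p, Function.Injective (mfderiv (𝓡 n) 𝓘(ℝ, E) f p)

/-- `F t`, `0 ≤ t < T`, is a smooth mean curvature flow of immersions starting at `f`. -/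
structure IsMCF (F : ℝ → M → E) (T : ℝ) (f : M → E) : Prop where
  pos : 0 < T
  init : F 0 = f
  smooth : ContMDiffOn (𝓘(ℝ, ℝ).prod (𝓡 n)) 𝓘(ℝ, E) ∞ (fun q : ℝ × M => F q.1 q.2)
    (Ico 0 T ×ˢ univ)
  imm : ∀ t ∈ Ico 0 T, IsImm n (F t)
  flow : ∀ t ∈ Ico 0 T, ∀ p, HasDerivWithinAt (fun s => F s p) (MCV n (F t) p) (Ico 0 T) t

/-- `f` flows to a round point: the mean curvature flow starting at `f` exists and is smooth and
unique on a maximal interval `[0, T)`, shrinks to a single point `a` as `t → T`, and suitable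
rescalings about `a` converge (in the Hausdorff sense) to a round unit `n`-sphere. -/
def FlowsToRoundPoint (f : M → E) : Prop :=
  ∃ (T : ℝ) (F : ℝ → M → E), IsMCF n F T f ∧
    (∀ T' F', IsMCF n F' T' f → T' ≤ T ∧ ∀ t ∈ Ico 0 T', F' t = F t) ∧
    ∃ a : E, TendstoUniformly F (fun _ => a) (𝓝[<] T) ∧
      ∃ lam : ℝ → ℝ, (∀ t, 0 < lam t) ∧ ∃ V : Submodule ℝ E, Module.finrank ℝ V = n + 1 ∧
        Tendsto (fun t => hausdorffDist (range fun p => lam t • (F t p - a))
          ((V : Set E) ∩ sphere 0 1)) (𝓝[<] T) (𝓝 0)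

/-- `f` flows to a point: the mean curvature flow starting at `f` exists and is smooth and unique
on a maximal interval `[0, T)` and shrinks to a single point `a` as `t → T`. -/
def FlowsToPoint (f : M → E) : Prop :=
  ∃ (T : ℝ) (F : ℝ → M → E), IsMCF n F T f ∧
    (∀ T' F', IsMCF n F' T' f → T' ≤ T ∧ ∀ t ∈ Ico 0 T', F' t = F t) ∧
    ∃ a : E, TendstoUniformly F (fun _ => a) (𝓝[<] T)

theorem FlowsToRoundPoint.flowsToPoint {f : M → E} (h : FlowsToRoundPoint n f) :
    FlowsToPoint n f := by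
  obtain ⟨T, F, h1, h2, a, h3, -⟩ := h
  exact ⟨T, F, h1, h2, a, h3⟩

end General

/-! ### Spheres in `ℝ³` -/

/-- Euclidean 3-space. -/
abbrev E3 := EuclideanSpace ℝ (Fin 3)
/-- The Euclidean plane. -/
abbrev E2 := EuclideanSpace ℝ (Fin 2)
/-- The unit sphere of `ℝ³`. -/
abbrev S2 := sphere (0 : E3) 1

/-- Inverse stereographic projection as a map of the plane into 3-space. -/
def psiAux (x : E2) : E3 :=
  !₂[4 * x 0 / (x 0 ^ 2 + x 1 ^ 2 + 4), 4 * x 1 / (x 0 ^ 2 + x 1 ^ 2 + 4),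
    (x 0 ^ 2 + x 1 ^ 2 - 4) / (x 0 ^ 2 + x 1 ^ 2 + 4)]

theorem psiAux_mem (x : E2) : psiAux x ∈ sphere (0 : E3) 1 := by
  have h : (0 : ℝ) < x 0 ^ 2 + x 1 ^ 2 + 4 := by positivity
  rw [mem_sphere_zero_iff_norm, EuclideanSpace.norm_eq, Fin.sum_univ_three]
  simp only [psiAux, Real.norm_eq_abs, sq_abs, PiLp.toLp_apply, Matrix.cons_val_zero,
    Matrix.cons_val_one, Matrix.cons_val]
  rw [Real.sqrt_eq_one]
  field_simp
  ring

/-- Inverse stereographic projection `ℝ² → S² ∖ {north pole}`, a chart of the sphere that covers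
everything but one point. -/
def psi (x : E2) : S2 := ⟨psiAux x, psiAux_mem x⟩

/-- `∫ |H|² dM` for `f : S² → ℝ³`, computed in the chart `psi`, which covers the sphere up to one
point: `∫_{ℝ²} |H(psi x)|² √det g(x) dx`, as an element of `[0, ∞]`. -/
def energy (f : S2 → E3) : ℝ≥0∞ :=
  ∫⁻ x : E2, ENNReal.ofReal (‖MCV 2 f (psi x)‖ ^ 2 * √(gram (fun y => f (psi y)) x).det)

end Pool.Agent.Lib.MP_ec58cd_gt
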