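import Pool.Agent.Lib.MP_ec58cd_gt.Surface

/-!
# GRAM: the area element of `f0 ∘ psi`
-/

noncomputable section

open Set Filter Topology MeasureTheory Metric
open scoped Manifold ContDiff RealInnerProductSpace ENNReal

namespace Pool.Agent.Lib.MP_ec58cd_gt

/-- third coordinate of `psi` in terms of `r = x 0 ^ 2 + x 1 ^ 2` -/
def zq (r : ℝ) : ℝ := (r - 4) / (r + 4)

theorem hasDerivAt_zq {r : ℝ} (hr : 0 ≤ r) : HasDerivAt zq (8 / (r + 4) ^ 2) r := by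
  have h : r + 4 ≠ 0 := by positivity
  have h1 : HasDerivAt (fun r : ℝ => r - 4) 1 r := (hasDerivAt_id r).sub_const 4
  have h2 : HasDerivAt (fun r : ℝ => r + 4) 1 r := (hasDerivAt_id r).add_const 4
  have h3 := h1.div h2 h
  refine h3.congr_deriv ?_
  field_simp
  ring

/-- the factor `4 s / q` as a function of `r` -/
def kq (r : ℝ) : ℝ := 4 / (r + 4) * Sy (zq r ^ 2)

theorem hasDerivAt_kq {r : ℝ} (hr : 0 ≤ r) :
    HasDerivAt kq (-4 / (r + 4) ^ 2 * Sy (zq r ^ 2) +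
      4 / (r + 4) * (Sy1 (zq r ^ 2) * (2 * zq r * (8 / (r + 4) ^ 2)))) r := by
  have h : r + 4 ≠ 0 := by positivity
  have h2 : HasDerivAt (fun r : ℝ => r + 4) 1 r := (hasDerivAt_id r).add_const 4
  have h3 : HasDerivAt (fun r : ℝ => 4 / (r + 4)) (-4 / (r + 4) ^ 2) r := by
    refine ((hasDerivAt_const r (4 : ℝ)).div h2 h).congr_deriv ?_
    ring
  have h4 : HasDerivAt (fun r => zq r ^ 2) (2 * zq r * (8 / (r + 4) ^ 2)) r := by
    refine ((hasDerivAt_zq hr).pow 2).congr_deriv ?_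
    ring
  have h5 := (hasDerivAt_Sy (zq r ^ 2)).comp r h4
  exact h3.mul h5

/-- components of `f0 ∘ psi` -/
theorem f0_psi (y : E2) : f0 (psi y) =
    !₂[y 0 * kq (y 0 ^ 2 + y 1 ^ 2), y 1 * kq (y 0 ^ 2 + y 1 ^ 2),
      11 / 4 * zq (y 0 ^ 2 + y 1 ^ 2)] := by
  have h : y 0 ^ 2 + y 1 ^ 2 + 4 ≠ 0 := by positivity
  ext i
  fin_cases i
  · simp [f0, psi, psiAux, kq, zq]
    ring
  · simp [f0, psi, psiAux, kq, zq]
    ring
  · simp [f0, psi, psiAux, kq, zq]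

theorem hasFDerivAt_coord (i : Fin 2) (x : E2) :
    HasFDerivAt (fun y : E2 => y i) (EuclideanSpace.proj i : E2 →L[ℝ] ℝ) x :=
  (EuclideanSpace.proj i : E2 →L[ℝ] ℝ).hasFDerivAt

/-- derivative of `r` -/
def rD (x : E2) : E2 →L[ℝ] ℝ :=
  (2 * x 0) • (EuclideanSpace.proj 0 : E2 →L[ℝ] ℝ) + (2 * x 1) • (EuclideanSpace.proj 1 : E2 →L[ℝ] ℝ)

theorem hasFDerivAt_r (x : E2) : HasFDerivAt (fun y : E2 => y 0 ^ 2 + y 1 ^ 2) (rD x) x := by
  have h0 := (hasFDerivAt_coord 0 x).pow 2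
  have h1 := (hasFDerivAt_coord 1 x).pow 2
  refine (h0.add h1).congr_fderiv ?_
  ext v
  simp [rD]

theorem fderiv_f0_psi (x v : E2) :
    fderiv ℝ (fun y => f0 (psi y)) x v =
      !₂[v 0 * kq (x 0 ^ 2 + x 1 ^ 2) + x 0 * (deriv kq (x 0 ^ 2 + x 1 ^ 2) * rD x v),
        v 1 * kq (x 0 ^ 2 + x 1 ^ 2) + x 1 * (deriv kq (x 0 ^ 2 + x 1 ^ 2) * rD x v),
        11 / 4 * (8 / (x 0 ^ 2 + x 1 ^ 2 + 4) ^ 2 * rD x v)] := by
  have hr : 0 ≤ x 0 ^ 2 + x 1 ^ 2 := by positivity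
  have hR := hasFDerivAt_r x
  have hk := (hasDerivAt_kq hr)
  have hk2 : HasDerivAt kq (deriv kq (x 0 ^ 2 + x 1 ^ 2)) (x 0 ^ 2 + x 1 ^ 2) :=
    hk.differentiableAt.hasDerivAt
  have hK : HasFDerivAt (fun y : E2 => kq (y 0 ^ 2 + y 1 ^ 2))
      (deriv kq (x 0 ^ 2 + x 1 ^ 2) • rD x) x := by
    have h := HasDerivAt.comp_hasFDerivAt (f := fun y : E2 => y 0 ^ 2 + y 1 ^ 2) x hk2 hR
    exact h
  have hZ : HasFDerivAt (fun y : E2 => zq (y 0 ^ 2 + y 1 ^ 2))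
      ((8 / (x 0 ^ 2 + x 1 ^ 2 + 4) ^ 2) • rD x) x := by
    have h := HasDerivAt.comp_hasFDerivAt (f := fun y : E2 => y 0 ^ 2 + y 1 ^ 2) x
      (hasDerivAt_zq hr) hR
    exact h
  have h0 := (hasFDerivAt_coord 0 x).mul hK
  have h1 := (hasFDerivAt_coord 1 x).mul hK
  have h2 := hZ.const_mul (11 / 4)
  have hfun : (fun y => f0 (psi y)) = fun y : E2 => (!₂[y 0 * kq (y 0 ^ 2 + y 1 ^ 2),
      y 1 * kq (y 0 ^ 2 + y 1 ^ 2), 11 / 4 * zq (y 0 ^ 2 + y 1 ^ 2)] : E3) := by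
    funext y; exact f0_psi y
  have hD : DifferentiableAt ℝ (fun y => f0 (psi y)) x := by
    rw [hfun, differentiableAt_euclidean]
    intro i
    fin_cases i
    · exact h0.differentiableAt
    · exact h1.differentiableAt
    · exact h2.differentiableAt
  have hcomp : ∀ i : Fin 3, (fderiv ℝ (fun y => f0 (psi y)) x v) i =
      fderiv ℝ (fun y => f0 (psi y) i) x v := by
    intro i
    have h3 := ((EuclideanSpace.proj i : E3 →L[ℝ] ℝ).hasFDerivAt.comp x hD.hasFDerivAt).fderiv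
    have h4 : fderiv ℝ (fun y => f0 (psi y) i) x =
        (EuclideanSpace.proj i : E3 →L[ℝ] ℝ).comp (fderiv ℝ (fun y => f0 (psi y)) x) := h3
    rw [h4]
    rfl
  ext i
  rw [hcomp i]
  fin_cases i
  · have h5 : (fun y => f0 (psi y) 0) = fun y : E2 => y 0 * kq (y 0 ^ 2 + y 1 ^ 2) := by
      funext y; rw [f0_psi y]; rfl
    have h6 : fderiv ℝ (fun y => f0 (psi y) 0) x v = (x 0 • (deriv kq (x 0 ^ 2 + x 1 ^ 2) • rD x) + kq (x 0 ^ 2 + x 1 ^ 2) •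
        (EuclideanSpace.proj 0 : E2 →L[ℝ] ℝ)) v := by
      rw [h5]
      exact congrArg (fun L : E2 →L[ℝ] ℝ => L v) h0.fderiv
    refine h6.trans ?_
    simp
    ring
  · have h5 : (fun y => f0 (psi y) 1) = fun y : E2 => y 1 * kq (y 0 ^ 2 + y 1 ^ 2) := by
      funext y; rw [f0_psi y]; rfl
    have h6 : fderiv ℝ (fun y => f0 (psi y) 1) x v = (x 1 • (deriv kq (x 0 ^ 2 + x 1 ^ 2) • rD x) + kq (x 0 ^ 2 + x 1 ^ 2) •
        (EuclideanSpace.proj 1 : E2 →L[ℝ] ℝ)) v := by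
      rw [h5]
      exact congrArg (fun L : E2 →L[ℝ] ℝ => L v) h1.fderiv
    refine h6.trans ?_
    simp
    ring
  · have h5 : (fun y => f0 (psi y) 2) = fun y : E2 => 11 / 4 * zq (y 0 ^ 2 + y 1 ^ 2) := by
      funext y; rw [f0_psi y]; rfl
    have h6 : fderiv ℝ (fun y => f0 (psi y) 2) x v = ((11 / 4 : ℝ) • ((8 / (x 0 ^ 2 + x 1 ^ 2 + 4) ^ 2) • rD x)) v := by
      rw [h5]
      exact congrArg (fun L : E2 →L[ℝ] ℝ => L v) h2.fderiv
    refine h6.trans ?_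
    simp

theorem det_gram (x : E2) :
    (gram (fun y => f0 (psi y)) x).det =
      (16 / (x 0 ^ 2 + x 1 ^ 2 + 4) ^ 2) ^ 2 *
        (Sy ((psiAux x 2) ^ 2) ^ 2 *
          ((psiAux x 2) ^ 2 * (Sy ((psiAux x 2) ^ 2) -
              2 * (1 - (psiAux x 2) ^ 2) * Sy1 ((psiAux x 2) ^ 2)) ^ 2 +
            121 / 16 * (1 - (psiAux x 2) ^ 2))) := by
  have hq : x 0 ^ 2 + x 1 ^ 2 + 4 ≠ 0 := by positivity
  have hr : 0 ≤ x 0 ^ 2 + x 1 ^ 2 := by positivity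
  have hz : psiAux x 2 = zq (x 0 ^ 2 + x 1 ^ 2) := by simp [psiAux, zq]
  have hd := (hasDerivAt_kq hr).deriv
  have hr0 : rD x (ebas 0) = 2 * x 0 := by simp [rD]
  have hr1 : rD x (ebas 1) = 2 * x 1 := by simp [rD]
  have he00 : (ebas 0 : E2) 0 = 1 := by simp
  have he01 : (ebas 0 : E2) 1 = 0 := by simp
  have he10 : (ebas 1 : E2) 0 = 0 := by simp
  have he11 : (ebas 1 : E2) 1 = 1 := by simp
  rw [Matrix.det_fin_two]
  simp only [gram, Matrix.of_apply, fderiv_f0_psi, hr0, hr1, he00, he01, he10, he11]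
  simp only [PiLp.inner_apply, Fin.sum_univ_three, RCLike.inner_apply, conj_trivial]
  simp only [Matrix.cons_val_zero, Matrix.cons_val_one, Matrix.cons_val]
  rw [hz, hd]
  unfold kq
  set S := Sy (zq (x 0 ^ 2 + x 1 ^ 2) ^ 2) with hS
  set S1 := Sy1 (zq (x 0 ^ 2 + x 1 ^ 2) ^ 2) with hS1
  clear_value S S1
  unfold zq
  generalize x 0 = a at *
  generalize x 1 = b at *
  field_simp
  ring

end Pool.Agent.Lib.MP_ec58cd_gt
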