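import Pool.Agent.Lib.MP_ec58cd_gt.Surface

/-!
# GK: the polynomials `G` and `K`

PROOF of `Gy_pos`: both terms are `≥ 0`; if `y < 1` the second one is `> 0`; at `y = 1` the first one is
`Sy 1 ^ 2 > 0`.
-/

noncomputable section

open Set Filter Topology MeasureTheory Metric
open scoped Manifold ContDiff RealInnerProductSpace ENNReal

namespace Pool.Agent.Lib.MP_ec58cd_gt

/-- `G = ζ² (s - 2 (1-ζ²) s')² + z_t² (1 - ζ²)`, as a function of `y = ζ²` -/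
def Gy (y : ℝ) : ℝ := y * (Sy y - 2 * (1 - y) * Sy1 y) ^ 2 + 121 / 16 * (1 - y)

/-- `K = s + 4 y (1-y) s' - (1-y)² (2 s' + 4 y s'')` -/
def Ky (y : ℝ) : ℝ :=
  Sy y + 4 * y * (1 - y) * Sy1 y - (1 - y) ^ 2 * (2 * Sy1 y + 4 * y * Sy2 y)

theorem Gy_pos {y : ℝ} (h0 : 0 ≤ y) (h1 : y ≤ 1) : 0 < Gy y := by
  unfold Gy
  rcases h1.lt_or_eq with h | h
  · have a : 0 ≤ y * (Sy y - 2 * (1 - y) * Sy1 y) ^ 2 := mul_nonneg h0 (sq_nonneg _)
    have b : 0 < 121 / 16 * (1 - y) := by linarith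
    linarith
  · subst h
    have := Sy_pos (y := 1) zero_le_one le_rfl
    have h2 : 0 < Sy 1 ^ 2 := by positivity
    simpa using h2

end Pool.Agent.Lib.MP_ec58cd_gt
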