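import Pool.Agent.Lib.MP_ec58cd_gt.Defs

/-!
# LINALG: orthonormal pairs in `ℝ³`

PROOFS. Coordinates: `w 0, w 1` orthonormal: `a·a = b·b = 1`, `a·b = 0` (with
`EuclideanSpace.inner_eq_star_dotProduct`/`Fin.sum_univ_three`).  With `ν = a × b`:
`a_i² + b_i² + ν_i² = 1` for each coordinate (the matrix with rows `a, b, ν` is orthogonal), and
`g · a = g · b = 0` gives `g = (g·ν) ν`.
`pair_sum`: `∑ (w i 0)² + (w i 1)² + (w i 2)² = 2`.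
`pair_le`: `W := (w 0 2)² + (w 1 2)² ≤ 1`.
`pair_grad`: `(g 0² + g 1² + g 2²) * W = g 0² + g 1²` if `g ⟂ w 0, w 1`.
-/

noncomputable section

open Set Filter Topology MeasureTheory Metric
open scoped Manifold ContDiff RealInnerProductSpace ENNReal

namespace Pool.Agent.Lib.MP_ec58cd_gt

theorem pair_coords {w : Fin 2 → E3} (hw : Orthonormal ℝ w) :
    w 0 0 ^ 2 + w 0 1 ^ 2 + w 0 2 ^ 2 = 1 ∧ w 1 0 ^ 2 + w 1 1 ^ 2 + w 1 2 ^ 2 = 1 ∧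
      w 0 0 * w 1 0 + w 0 1 * w 1 1 + w 0 2 * w 1 2 = 0 := by
  have h0 := hw.1 0
  have h1 := hw.1 1
  have h01 : ⟪w 0, w 1⟫ = 0 := hw.2 (by decide)
  rw [EuclideanSpace.norm_eq, Fin.sum_univ_three, Real.sqrt_eq_one] at h0 h1
  simp only [Real.norm_eq_abs, sq_abs] at h0 h1
  rw [PiLp.inner_apply, Fin.sum_univ_three] at h01
  simp only [RCLike.inner_apply, conj_trivial] at h01
  refine ⟨h0, h1, ?_⟩
  linarith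

theorem pair_sum {w : Fin 2 → E3} (hw : Orthonormal ℝ w) :
    ∑ i, (w i 0 ^ 2 + w i 1 ^ 2) = 2 - (w 0 2 ^ 2 + w 1 2 ^ 2) := by
  obtain ⟨h0, h1, -⟩ := pair_coords hw
  rw [Fin.sum_univ_two]
  linarith

/-- orthonormal pairs: identities, in real variables -/
theorem pair_alg {a0 a1 a2 b0 b1 b2 : ℝ} (ha : a0 ^ 2 + a1 ^ 2 + a2 ^ 2 = 1)
    (hb : b0 ^ 2 + b1 ^ 2 + b2 ^ 2 = 1) (hab : a0 * b0 + a1 * b1 + a2 * b2 = 0) :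
    a2 ^ 2 + b2 ^ 2 = 1 - (a0 * b1 - a1 * b0) ^ 2 := by
  have key : (a0 * b1 - a1 * b0) ^ 2 = (1 - a2 ^ 2) * (1 - b2 ^ 2) - (a2 * b2) ^ 2 := by
    have e1 : a0 ^ 2 + a1 ^ 2 = 1 - a2 ^ 2 := by linarith
    have e2 : b0 ^ 2 + b1 ^ 2 = 1 - b2 ^ 2 := by linarith
    have e3 : a0 * b0 + a1 * b1 = - (a2 * b2) := by linarith
    have e4 : (a0 * b1 - a1 * b0) ^ 2 =
        (a0 ^ 2 + a1 ^ 2) * (b0 ^ 2 + b1 ^ 2) - (a0 * b0 + a1 * b1) ^ 2 := by ring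
    rw [e4, e1, e2, e3]
    ring
  rw [key]
  ring

theorem pair_le {w : Fin 2 → E3} (hw : Orthonormal ℝ w) : w 0 2 ^ 2 + w 1 2 ^ 2 ≤ 1 := by
  obtain ⟨h0, h1, h2⟩ := pair_coords hw
  have := pair_alg h0 h1 h2
  rw [this]
  linarith [sq_nonneg (w 0 0 * w 1 1 - w 0 1 * w 1 0)]

/-- a vector orthogonal to both members of an orthonormal pair, in real variables -/
theorem pair_perp {a0 a1 a2 b0 b1 b2 g0 g1 g2 : ℝ} (ha : a0 ^ 2 + a1 ^ 2 + a2 ^ 2 = 1)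
    (hb : b0 ^ 2 + b1 ^ 2 + b2 ^ 2 = 1) (hab : a0 * b0 + a1 * b1 + a2 * b2 = 0)
    (hga : g0 * a0 + g1 * a1 + g2 * a2 = 0) (hgb : g0 * b0 + g1 * b1 + g2 * b2 = 0) :
    let s := g0 * (a1 * b2 - a2 * b1) + g1 * (a2 * b0 - a0 * b2) + g2 * (a0 * b1 - a1 * b0)
    g0 = s * (a1 * b2 - a2 * b1) ∧ g1 = s * (a2 * b0 - a0 * b2) ∧ g2 = s * (a0 * b1 - a1 * b0) := by
  intro s
  -- g = (g.a) a + (g.b) b + (g.nu) nu, via the Gram identity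
  have hn : (a1 * b2 - a2 * b1) ^ 2 + (a2 * b0 - a0 * b2) ^ 2 + (a0 * b1 - a1 * b0) ^ 2 = 1 := by
    have e : (a1 * b2 - a2 * b1) ^ 2 + (a2 * b0 - a0 * b2) ^ 2 + (a0 * b1 - a1 * b0) ^ 2 =
      (a0 ^ 2 + a1 ^ 2 + a2 ^ 2) * (b0 ^ 2 + b1 ^ 2 + b2 ^ 2) -
        (a0 * b0 + a1 * b1 + a2 * b2) ^ 2 := by ring
    rw [e, ha, hb, hab]
    ring
  -- nu × (g × nu) = g - (g.nu) nu ; g × nu = g × (a × b) = a (g.b) - b (g.a) = 0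
  have c0 : g1 * (a0 * b1 - a1 * b0) - g2 * (a2 * b0 - a0 * b2) = 0 := by
    have : g1 * (a0 * b1 - a1 * b0) - g2 * (a2 * b0 - a0 * b2) =
      a0 * (g0 * b0 + g1 * b1 + g2 * b2) - b0 * (g0 * a0 + g1 * a1 + g2 * a2) := by ring
    rw [this, hga, hgb]; ring
  have c1 : g2 * (a1 * b2 - a2 * b1) - g0 * (a0 * b1 - a1 * b0) = 0 := by
    have : g2 * (a1 * b2 - a2 * b1) - g0 * (a0 * b1 - a1 * b0) =
      a1 * (g0 * b0 + g1 * b1 + g2 * b2) - b1 * (g0 * a0 + g1 * a1 + g2 * a2) := by ring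
    rw [this, hga, hgb]; ring
  have c2 : g0 * (a2 * b0 - a0 * b2) - g1 * (a1 * b2 - a2 * b1) = 0 := by
    have : g0 * (a2 * b0 - a0 * b2) - g1 * (a1 * b2 - a2 * b1) =
      a2 * (g0 * b0 + g1 * b1 + g2 * b2) - b2 * (g0 * a0 + g1 * a1 + g2 * a2) := by ring
    rw [this, hga, hgb]; ring
  set n0 := a1 * b2 - a2 * b1 with hn0
  set n1 := a2 * b0 - a0 * b2 with hn1
  set n2 := a0 * b1 - a1 * b0 with hn2
  refine ⟨?_, ?_, ?_⟩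
  · show g0 = (g0 * n0 + g1 * n1 + g2 * n2) * n0
    linear_combination (-g0) * hn + n2 * (-1) * c1 + n1 * c2
  · show g1 = (g0 * n0 + g1 * n1 + g2 * n2) * n1
    linear_combination (-g1) * hn + n2 * c0 - n0 * c2
  · show g2 = (g0 * n0 + g1 * n1 + g2 * n2) * n2
    linear_combination (-g2) * hn - n1 * c0 + n0 * c1

theorem pair_grad {w : Fin 2 → E3} (hw : Orthonormal ℝ w) {a b c : ℝ}
    (h : ∀ i, a * w i 0 + b * w i 1 + c * w i 2 = 0) :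
    (a ^ 2 + b ^ 2 + c ^ 2) * (w 0 2 ^ 2 + w 1 2 ^ 2) = a ^ 2 + b ^ 2 := by
  obtain ⟨h0, h1, h2⟩ := pair_coords hw
  obtain ⟨e0, e1, e2⟩ := pair_perp h0 h1 h2 (h 0) (h 1)
  have hA := pair_alg h0 h1 h2
  rw [hA]
  set s := a * (w 0 1 * w 1 2 - w 0 2 * w 1 1) + b * (w 0 2 * w 1 0 - w 0 0 * w 1 2) +
    c * (w 0 0 * w 1 1 - w 0 1 * w 1 0) with hs
  have hn : (w 0 1 * w 1 2 - w 0 2 * w 1 1) ^ 2 + (w 0 2 * w 1 0 - w 0 0 * w 1 2) ^ 2 +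
      (w 0 0 * w 1 1 - w 0 1 * w 1 0) ^ 2 = 1 := by
    have e : (w 0 1 * w 1 2 - w 0 2 * w 1 1) ^ 2 + (w 0 2 * w 1 0 - w 0 0 * w 1 2) ^ 2 +
      (w 0 0 * w 1 1 - w 0 1 * w 1 0) ^ 2 =
      (w 0 0 ^ 2 + w 0 1 ^ 2 + w 0 2 ^ 2) * (w 1 0 ^ 2 + w 1 1 ^ 2 + w 1 2 ^ 2) -
        (w 0 0 * w 1 0 + w 0 1 * w 1 1 + w 0 2 * w 1 2) ^ 2 := by ring
    rw [e, h0, h1, h2]
    ring
  set n0 := w 0 1 * w 1 2 - w 0 2 * w 1 1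
  set n1 := w 0 2 * w 1 0 - w 0 0 * w 1 2
  set n2 := w 0 0 * w 1 1 - w 0 1 * w 1 0
  have hs2 : a ^ 2 + b ^ 2 + c ^ 2 = s ^ 2 := by
    have : a ^ 2 + b ^ 2 + c ^ 2 = s ^ 2 * (n0 ^ 2 + n1 ^ 2 + n2 ^ 2) := by
      calc a ^ 2 + b ^ 2 + c ^ 2 = (s * n0) ^ 2 + (s * n1) ^ 2 + (s * n2) ^ 2 := by
            rw [← e0, ← e1, ← e2]
        _ = _ := by ring
    rw [this, hn, mul_one]
  have hc2 : c ^ 2 = s ^ 2 * n2 ^ 2 := by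
    calc c ^ 2 = (s * n2) ^ 2 := by rw [← e2]
      _ = _ := by ring
  have : a ^ 2 + b ^ 2 = s ^ 2 - c ^ 2 := by linarith
  rw [hs2, this, hc2]
  ring

/-- a vector orthogonal to `w 0`, `w 1` is parallel to `(a, b, c)` if this vector is orthogonal to
`w 0`, `w 1` too (Cauchy-Schwarz equality) -/
theorem pair_parallel {w : Fin 2 → E3} (hw : Orthonormal ℝ w) {a b c : ℝ}
    (h : ∀ i, a * w i 0 + b * w i 1 + c * w i 2 = 0) {H : E3} (hH : ∀ i, ⟪w i, H⟫ = 0) :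
    (a * H 0 + b * H 1 + c * H 2) ^ 2 = (a ^ 2 + b ^ 2 + c ^ 2) * ‖H‖ ^ 2 := by
  obtain ⟨h0, h1, h2⟩ := pair_coords hw
  obtain ⟨e0, e1, e2⟩ := pair_perp h0 h1 h2 (h 0) (h 1)
  have hH' : ∀ i, H 0 * w i 0 + H 1 * w i 1 + H 2 * w i 2 = 0 := by
    intro i
    have := hH i
    rw [PiLp.inner_apply, Fin.sum_univ_three] at this
    simp only [RCLike.inner_apply, conj_trivial] at this
    linarith
  obtain ⟨f0, f1, f2⟩ := pair_perp h0 h1 h2 (hH' 0) (hH' 1)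
  have hn : (w 0 1 * w 1 2 - w 0 2 * w 1 1) ^ 2 + (w 0 2 * w 1 0 - w 0 0 * w 1 2) ^ 2 +
      (w 0 0 * w 1 1 - w 0 1 * w 1 0) ^ 2 = 1 := by
    have e : (w 0 1 * w 1 2 - w 0 2 * w 1 1) ^ 2 + (w 0 2 * w 1 0 - w 0 0 * w 1 2) ^ 2 +
      (w 0 0 * w 1 1 - w 0 1 * w 1 0) ^ 2 =
      (w 0 0 ^ 2 + w 0 1 ^ 2 + w 0 2 ^ 2) * (w 1 0 ^ 2 + w 1 1 ^ 2 + w 1 2 ^ 2) -
        (w 0 0 * w 1 0 + w 0 1 * w 1 1 + w 0 2 * w 1 2) ^ 2 := by ring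
    rw [e, h0, h1, h2]
    ring
  have hnorm : ‖H‖ ^ 2 = H 0 ^ 2 + H 1 ^ 2 + H 2 ^ 2 := by
    rw [EuclideanSpace.norm_eq, Real.sq_sqrt (by positivity), Fin.sum_univ_three]
    simp only [Real.norm_eq_abs, sq_abs]
  rw [hnorm]
  set s := a * (w 0 1 * w 1 2 - w 0 2 * w 1 1) + b * (w 0 2 * w 1 0 - w 0 0 * w 1 2) +
    c * (w 0 0 * w 1 1 - w 0 1 * w 1 0)
  set r := H 0 * (w 0 1 * w 1 2 - w 0 2 * w 1 1) + H 1 * (w 0 2 * w 1 0 - w 0 0 * w 1 2) +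
    H 2 * (w 0 0 * w 1 1 - w 0 1 * w 1 0)
  set n0 := w 0 1 * w 1 2 - w 0 2 * w 1 1
  set n1 := w 0 2 * w 1 0 - w 0 0 * w 1 2
  set n2 := w 0 0 * w 1 1 - w 0 1 * w 1 0
  have hs2 : a ^ 2 + b ^ 2 + c ^ 2 = s ^ 2 := by
    have : a ^ 2 + b ^ 2 + c ^ 2 = s ^ 2 * (n0 ^ 2 + n1 ^ 2 + n2 ^ 2) := by
      calc a ^ 2 + b ^ 2 + c ^ 2 = (s * n0) ^ 2 + (s * n1) ^ 2 + (s * n2) ^ 2 := by
            rw [← e0, ← e1, ← e2]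
        _ = _ := by ring
    rw [this, hn, mul_one]
  have hr2 : H 0 ^ 2 + H 1 ^ 2 + H 2 ^ 2 = r ^ 2 := by
    have : H 0 ^ 2 + H 1 ^ 2 + H 2 ^ 2 = r ^ 2 * (n0 ^ 2 + n1 ^ 2 + n2 ^ 2) := by
      calc H 0 ^ 2 + H 1 ^ 2 + H 2 ^ 2 = (r * n0) ^ 2 + (r * n1) ^ 2 + (r * n2) ^ 2 := by
            rw [← f0, ← f1, ← f2]
        _ = _ := by ring
    rw [this, hn, mul_one]
  have hsr : a * H 0 + b * H 1 + c * H 2 = s * r := by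
    have : a * H 0 + b * H 1 + c * H 2 = s * r * (n0 ^ 2 + n1 ^ 2 + n2 ^ 2) := by
      calc a * H 0 + b * H 1 + c * H 2
          = (s * n0) * (r * n0) + (s * n1) * (r * n1) + (s * n2) * (r * n2) := by
            rw [← e0, ← e1, ← e2, ← f0, ← f1, ← f2]
        _ = _ := by ring
    rw [this, hn, mul_one]
  rw [hs2, hr2, hsr]
  ring

end Pool.Agent.Lib.MP_ec58cd_gt
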