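import Pool.Agent.Lib.MP_ec58cd_gt.Defs

/-!
# ROTD: derivatives of `x 0 ^ 2 + x 1 ^ 2 - g (x 2)`

PROOF.  `HasFDerivAt` with the coordinate projections `EuclideanSpace.proj i`:
`fderiv Φ x = (2 * x 0) • proj 0 + (2 * x 1) • proj 1 - g' (x 2) • proj 2` for all `x`; then the function
`fderiv Φ` is this function of `x`, differentiate again.
-/

noncomputable section

open Set Filter Topology MeasureTheory Metric
open scoped Manifold ContDiff RealInnerProductSpace ENNReal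

namespace Pool.Agent.Lib.MP_ec58cd_gt

/-- the coordinate functional -/
abbrev pr3 (i : Fin 3) : E3 →L[ℝ] ℝ := EuclideanSpace.proj i

theorem rot_hasFDerivAt {g g' : ℝ → ℝ} (h1 : ∀ z, HasDerivAt g (g' z) z) (x : E3) :
    HasFDerivAt (fun x : E3 => x 0 ^ 2 + x 1 ^ 2 - g (x 2))
      ((2 * x 0) • pr3 0 + (2 * x 1) • pr3 1 - (g' (x 2)) • pr3 2) x := by
  have p : ∀ i : Fin 3, HasFDerivAt (fun x : E3 => x i) (pr3 i) x := fun i =>
    (pr3 i).hasFDerivAt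
  have a0 := (p 0).pow 2
  have a1 := (p 1).pow 2
  have a2 : HasFDerivAt (fun x : E3 => g (x 2)) ((g' (x 2)) • pr3 2) x :=
    (h1 (x 2)).comp_hasFDerivAt x (p 2)
  have := (a0.add a1).sub a2
  refine this.congr_fderiv ?_
  ext v
  simp

theorem rot_deriv {g g' g'' : ℝ → ℝ} (h1 : ∀ z, HasDerivAt g (g' z) z)
    (h2 : ∀ z, HasDerivAt g' (g'' z) z) (x v : E3) :
    fderiv ℝ (fun x : E3 => x 0 ^ 2 + x 1 ^ 2 - g (x 2)) x v =
      2 * x 0 * v 0 + 2 * x 1 * v 1 - g' (x 2) * v 2 ∧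
    fderiv ℝ (fderiv ℝ (fun x : E3 => x 0 ^ 2 + x 1 ^ 2 - g (x 2))) x v v =
      2 * v 0 ^ 2 + 2 * v 1 ^ 2 - g'' (x 2) * v 2 ^ 2 := by
  have hD : fderiv ℝ (fun x : E3 => x 0 ^ 2 + x 1 ^ 2 - g (x 2)) =
      fun x : E3 => (2 * x 0) • pr3 0 + (2 * x 1) • pr3 1 - (g' (x 2)) • pr3 2 := by
    funext y
    exact (rot_hasFDerivAt h1 y).fderiv
  have p : ∀ i : Fin 3, HasFDerivAt (fun x : E3 => x i) (pr3 i) x := fun i =>
    (pr3 i).hasFDerivAt
  have b0 : HasFDerivAt (fun x : E3 => (2 * x 0) • pr3 0)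
      (((2 : ℝ) • pr3 0).smulRight (pr3 0)) x := ((p 0).const_mul 2).smul_const (pr3 0)
  have b1 : HasFDerivAt (fun x : E3 => (2 * x 1) • pr3 1)
      (((2 : ℝ) • pr3 1).smulRight (pr3 1)) x := ((p 1).const_mul 2).smul_const (pr3 1)
  have b2 : HasFDerivAt (fun x : E3 => (g' (x 2)) • pr3 2)
      (((g'' (x 2)) • pr3 2).smulRight (pr3 2)) x :=
    ((h2 (x 2)).comp_hasFDerivAt x (p 2)).smul_const (pr3 2)
  have hDD := ((b0.add b1).sub b2).fderiv
  constructor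
  · rw [hD]
    simp
  · rw [hD]
    have e : (fun x : E3 => (2 * x 0) • pr3 0 + (2 * x 1) • pr3 1 - (g' (x 2)) • pr3 2) =
      ((fun x : E3 => (2 * x 0) • pr3 0) + (fun x : E3 => (2 * x 1) • pr3 1)) -
        (fun x : E3 => (g' (x 2)) • pr3 2) := rfl
    rw [e, hDD]
    simp
    ring

end Pool.Agent.Lib.MP_ec58cd_gt
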