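import Pool.Agent.Lib.MP_ec58cd_gt.Touch
import Pool.Agent.Lib.MP_ec58cd_gt.LinAlg
import Pool.Agent.Lib.MP_ec58cd_gt.RotD
import Pool.Agent.Lib.MP_ec58cd_gt.GK

/-!
# HSQ: `|H|²` of the surface `f0`

`f0` takes values in the level set `Φ = 0`, `Φ x = x 0² + x 1² - P (x 2)`,
`P z = (1 - y) Sy y ^ 2`, `y = 16/121 z²` (at `z = 11/4 ζ`: `y = ζ²`).
-/

noncomputable section

open Set Filter Topology MeasureTheory Metric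
open scoped Manifold ContDiff RealInnerProductSpace ENNReal

namespace Pool.Agent.Lib.MP_ec58cd_gt

/-- The square of the radius of `f0` as a function of the height. -/
def Pz (z : ℝ) : ℝ := (1 - 16 / 121 * z ^ 2) * Sy (16 / 121 * z ^ 2) ^ 2
/-- Its derivative. -/
def Pz1 (z : ℝ) : ℝ := 32 / 121 * z * (-Sy (16 / 121 * z ^ 2) ^ 2 +
  2 * (1 - 16 / 121 * z ^ 2) * Sy (16 / 121 * z ^ 2) * Sy1 (16 / 121 * z ^ 2))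
/-- Its second derivative. -/
def Pz2 (z : ℝ) : ℝ := 32 / 121 * (-Sy (16 / 121 * z ^ 2) ^ 2 +
    2 * (1 - 16 / 121 * z ^ 2) * Sy (16 / 121 * z ^ 2) * Sy1 (16 / 121 * z ^ 2)) +
  (32 / 121 * z) ^ 2 * (-4 * Sy (16 / 121 * z ^ 2) * Sy1 (16 / 121 * z ^ 2) +
    2 * (1 - 16 / 121 * z ^ 2) * (Sy1 (16 / 121 * z ^ 2) ^ 2 +
      Sy (16 / 121 * z ^ 2) * Sy2 (16 / 121 * z ^ 2)))

theorem hasDerivAt_Y (z : ℝ) : HasDerivAt (fun z : ℝ => 16 / 121 * z ^ 2) (32 / 121 * z) z := by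
  have h := ((hasDerivAt_id z).pow 2).const_mul (16 / 121 : ℝ)
  refine h.congr_deriv ?_
  simp
  ring

theorem hasDerivAt_Pz (z : ℝ) : HasDerivAt Pz (Pz1 z) z := by
  have hY := hasDerivAt_Y z
  have hS : HasDerivAt (fun z : ℝ => Sy (16 / 121 * z ^ 2))
      (Sy1 (16 / 121 * z ^ 2) * (32 / 121 * z)) z :=
    HasDerivAt.comp (h₂ := Sy) z (hasDerivAt_Sy (16 / 121 * z ^ 2)) hY
  have h := (hY.const_sub 1).mul (hS.pow 2)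
  refine h.congr_deriv ?_
  simp only [Pz1, Pi.pow_apply]
  norm_num
  ring

theorem hasDerivAt_Pz1 (z : ℝ) : HasDerivAt Pz1 (Pz2 z) z := by
  have hY := hasDerivAt_Y z
  have hS : HasDerivAt (fun z : ℝ => Sy (16 / 121 * z ^ 2))
      (Sy1 (16 / 121 * z ^ 2) * (32 / 121 * z)) z :=
    HasDerivAt.comp (h₂ := Sy) z (hasDerivAt_Sy (16 / 121 * z ^ 2)) hY
  have hS1 : HasDerivAt (fun z : ℝ => Sy1 (16 / 121 * z ^ 2))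
      (Sy2 (16 / 121 * z ^ 2) * (32 / 121 * z)) z :=
    HasDerivAt.comp (h₂ := Sy1) z (hasDerivAt_Sy1 (16 / 121 * z ^ 2)) hY
  have hz : HasDerivAt (fun z : ℝ => 32 / 121 * z) (32 / 121) z := by
    simpa using (hasDerivAt_id z).const_mul (32 / 121 : ℝ)
  have h := hz.mul ((hS.pow 2).neg.add ((((hY.const_sub 1).const_mul 2).mul hS).mul hS1))
  refine h.congr_deriv ?_
  simp only [Pz2, Pi.pow_apply, Pi.mul_apply, Pi.add_apply, Pi.neg_apply]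
  norm_num
  ring

theorem normSq_MCV (p : S2) :
    ‖MCV 2 f0 p‖ ^ 2 = 121 / 16 * (Sy (p.1 2 ^ 2) * Ky (p.1 2 ^ 2) + Gy (p.1 2 ^ 2)) ^ 2 /
      (Sy (p.1 2 ^ 2) ^ 2 * Gy (p.1 2 ^ 2) ^ 3) := by
  set Φ : E3 → ℝ := fun x => x 0 ^ 2 + x 1 ^ 2 - Pz (x 2) with hΦdef
  have hy0 : 0 ≤ p.1 2 ^ 2 := sq_nonneg _
  have hy1 : p.1 2 ^ 2 ≤ 1 := sphere_sq_le p
  have hs : 0 < Sy (p.1 2 ^ 2) := Sy_pos hy0 hy1
  have hG : 0 < Gy (p.1 2 ^ 2) := Gy_pos hy0 hy1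
  have hΦ : ContDiffAt ℝ 2 Φ (f0 p) := by
    have : ContDiff ℝ 2 Φ := by
      rw [hΦdef]
      unfold Pz Sy
      fun_prop
    exact this.contDiffAt
  have c0 : ∀ q : S2, f0 q 0 = q.1 0 * Sy (q.1 2 ^ 2) := fun q => by simp [f0]
  have c1 : ∀ q : S2, f0 q 1 = q.1 1 * Sy (q.1 2 ^ 2) := fun q => by simp [f0]
  have c2 : ∀ q : S2, f0 q 2 = 11 / 4 * q.1 2 := fun q => by simp [f0]
  have hYy : ∀ q : S2, 16 / 121 * (11 / 4 * q.1 2) ^ 2 = q.1 2 ^ 2 := fun q => by ring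
  have hc : ∀ q : S2, Φ (f0 q) = 0 := by
    intro q
    show f0 q 0 ^ 2 + f0 q 1 ^ 2 - Pz (f0 q 2) = 0
    rw [c0, c1, c2, Pz, hYy]
    have := sphere_sq q
    have h2 : q.1 0 ^ 2 + q.1 1 ^ 2 = 1 - q.1 2 ^ 2 := by linarith
    rw [← h2]
    ring
  obtain ⟨w, hw, hw1, hw2, hw3⟩ := level isImm_f0 p hΦ hc
  have hD1 : ∀ v : E3, fderiv ℝ Φ (f0 p) v =
      2 * f0 p 0 * v 0 + 2 * f0 p 1 * v 1 - Pz1 (f0 p 2) * v 2 :=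
    fun v => (rot_deriv hasDerivAt_Pz hasDerivAt_Pz1 (f0 p) v).1
  have hD2 : ∀ v : E3, fderiv ℝ (fderiv ℝ Φ) (f0 p) v v =
      2 * v 0 ^ 2 + 2 * v 1 ^ 2 - Pz2 (f0 p 2) * v 2 ^ 2 :=
    fun v => (rot_deriv hasDerivAt_Pz hasDerivAt_Pz1 (f0 p) v).2
  set H := MCV 2 f0 p with hH
  have horth : ∀ i, 2 * f0 p 0 * w i 0 + 2 * f0 p 1 * w i 1 + (-Pz1 (f0 p 2)) * w i 2 = 0 := by
    intro i
    have := hw1 i
    rw [hD1] at this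
    linarith
  have hgrad := pair_grad hw horth
  have hpar := pair_parallel hw horth hw2
  have hsum := pair_sum hw
  rw [Fin.sum_univ_two] at hsum hw3
  rw [hD1, hD2, hD2] at hw3
  -- abbreviations
  set W : ℝ := w 0 2 ^ 2 + w 1 2 ^ 2 with hW
  have hPv : f0 p 0 ^ 2 + f0 p 1 ^ 2 = Pz (f0 p 2) := by
    have := hc p
    have h2 : f0 p 0 ^ 2 + f0 p 1 ^ 2 - Pz (f0 p 2) = 0 := this
    linarith
  have e1 : 2 * f0 p 0 * H 0 + 2 * f0 p 1 * H 1 + (-Pz1 (f0 p 2)) * H 2 =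
      -(4 - (2 + Pz2 (f0 p 2)) * W) := by
    rw [hW]
    linarith
  rw [e1] at hpar
  have hNN : (2 * f0 p 0) ^ 2 + (2 * f0 p 1) ^ 2 + (-Pz1 (f0 p 2)) ^ 2 =
      4 * Pz (f0 p 2) + Pz1 (f0 p 2) ^ 2 := by
    rw [← hPv]; ring
  have hPP : (2 * f0 p 0) ^ 2 + (2 * f0 p 1) ^ 2 = 4 * Pz (f0 p 2) := by
    rw [← hPv]; ring
  rw [hNN] at hgrad hpar
  rw [hPP] at hgrad
  -- values of P, P', P''
  have vP : Pz (f0 p 2) = (1 - p.1 2 ^ 2) * Sy (p.1 2 ^ 2) ^ 2 := by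
    rw [c2, Pz, hYy]
  have vP1 : Pz1 (f0 p 2) = 8 / 11 * p.1 2 * (-Sy (p.1 2 ^ 2) ^ 2 +
      2 * (1 - p.1 2 ^ 2) * Sy (p.1 2 ^ 2) * Sy1 (p.1 2 ^ 2)) := by
    rw [c2, Pz1, hYy]; ring
  have vP2 : Pz2 (f0 p 2) = 32 / 121 * (-Sy (p.1 2 ^ 2) ^ 2 +
      2 * (1 - p.1 2 ^ 2) * Sy (p.1 2 ^ 2) * Sy1 (p.1 2 ^ 2)) +
      64 / 121 * p.1 2 ^ 2 * (-4 * Sy (p.1 2 ^ 2) * Sy1 (p.1 2 ^ 2) +
      2 * (1 - p.1 2 ^ 2) * (Sy1 (p.1 2 ^ 2) ^ 2 + Sy (p.1 2 ^ 2) * Sy2 (p.1 2 ^ 2))) := by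
    rw [c2, Pz2, hYy]; ring
  have hN : 4 * Pz (f0 p 2) + Pz1 (f0 p 2) ^ 2 =
      64 / 121 * (Sy (p.1 2 ^ 2) ^ 2 * Gy (p.1 2 ^ 2)) := by
    rw [vP, vP1, Gy]; ring
  have hQ : 2 * Pz (f0 p 2) + Pz1 (f0 p 2) ^ 2 - Pz (f0 p 2) * Pz2 (f0 p 2) =
      32 / 121 * (Sy (p.1 2 ^ 2) ^ 2 * (Sy (p.1 2 ^ 2) * Ky (p.1 2 ^ 2) + Gy (p.1 2 ^ 2))) := by
    rw [vP, vP1, vP2, Gy, Ky]; ring
  generalize Pz (f0 p 2) = P at *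
  generalize Pz1 (f0 p 2) = P1 at *
  generalize Pz2 (f0 p 2) = P2 at *
  generalize Sy (p.1 2 ^ 2) = s at *
  generalize Gy (p.1 2 ^ 2) = G at *
  generalize Ky (p.1 2 ^ 2) = K at *
  have h3 : (4 * P + P1 ^ 2) ^ 3 * ‖H‖ ^ 2 = 16 * (2 * P + P1 ^ 2 - P * P2) ^ 2 := by
    have h4 : (4 * P + P1 ^ 2) ^ 3 * ‖H‖ ^ 2 =
        (4 * (4 * P + P1 ^ 2) - (2 + P2) * ((4 * P + P1 ^ 2) * W)) ^ 2 := by
      linear_combination (-(4 * P + P1 ^ 2) ^ 2) * hpar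
    rw [h4, hgrad]
    ring
  rw [hN, hQ] at h3
  rw [eq_div_iff (by positivity)]
  have h5 : s ^ 4 * (‖H‖ ^ 2 * (s ^ 2 * G ^ 3)) = s ^ 4 * (121 / 16 * (s * K + G) ^ 2) := by
    linear_combination (121 / 64 : ℝ) ^ 3 * h3
  exact mul_left_cancel₀ (by positivity) h5

end Pool.Agent.Lib.MP_ec58cd_gt
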