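import Pool.Agent.Lib.MP_ec58cd_gt.Defs

/-!
# POLAR: radial integrals over the plane as integrals over `(-1, 1)`

PROOF.  Transfer from `E2 = EuclideanSpace ℝ (Fin 2)` to `ℝ × ℝ` (measure preserving:
`EuclideanSpace.volume_preserving_measurableEquiv`, `MeasurableEquiv.finTwoArrow`), polar coordinates
`lintegral_comp_polarCoord_symm`; the integrand depends on `r` only: the angle gives `2π`; then
`ζ = (r² - 4)/(r² + 4)` maps `(0, ∞)` injectively (increasing) onto `(-1, 1)` with derivative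
`16 r/(r² + 4)²`: `lintegral_image_eq_lintegral_abs_deriv_mul`.
-/

noncomputable section

open Set Filter Topology MeasureTheory Metric
open scoped Manifold ContDiff RealInnerProductSpace ENNReal

namespace Pool.Agent.Lib.MP_ec58cd_gt

/-- transfer from the Euclidean plane to `ℝ × ℝ`. -/
theorem polar_transfer (H : ℝ × ℝ → ℝ≥0∞) :
    ∫⁻ x : E2, H (x 0, x 1) = ∫⁻ p : ℝ × ℝ, H p := by
  have h1 := (EuclideanSpace.volume_preserving_symm_measurableEquiv_toLp (Fin 2))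
  have h2 := volume_preserving_finTwoArrow ℝ
  have h3 := h2.comp h1
  have h4 : MeasurableEmbedding (⇑(MeasurableEquiv.finTwoArrow (α := ℝ)) ∘
      ⇑(MeasurableEquiv.toLp 2 (Fin 2 → ℝ)).symm) :=
    (MeasurableEquiv.measurableEmbedding _).comp (MeasurableEquiv.measurableEmbedding _)
  have h5 := h3.lintegral_comp_emb h4 H
  rw [← h5]
  rfl

/-- the height as a function of the radius. -/
def zr (r : ℝ) : ℝ := (r ^ 2 - 4) / (r ^ 2 + 4)

theorem zr_deriv (r : ℝ) : HasDerivAt zr (16 * r / (r ^ 2 + 4) ^ 2) r := by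
  have h : r ^ 2 + 4 ≠ 0 := by positivity
  have h1 : HasDerivAt (fun r : ℝ => r ^ 2 - 4) (2 * r) r := by
    have := (hasDerivAt_pow 2 r).sub_const 4
    simpa using this
  have h2 : HasDerivAt (fun r : ℝ => r ^ 2 + 4) (2 * r) r := by
    have := (hasDerivAt_pow 2 r).add_const 4
    simpa using this
  have h3 := h1.div h2 h
  refine h3.congr_deriv ?_
  field_simp
  ring

theorem zr_inj : InjOn zr (Ioi 0) := by
  intro a ha b hb hab
  unfold zr at hab
  have h1 : a ^ 2 + 4 ≠ 0 := by positivity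
  have h2 : b ^ 2 + 4 ≠ 0 := by positivity
  rw [div_eq_div_iff h1 h2] at hab
  have h3 : a ^ 2 = b ^ 2 := by linarith
  have ha' : 0 < a := ha
  have hb' : 0 < b := hb
  nlinarith [sq_nonneg (a - b), sq_nonneg (a + b)]

theorem zr_image : zr '' Ioi 0 = Ioo (-1) 1 := by
  ext c
  constructor
  · rintro ⟨r, hr, rfl⟩
    have hr' : 0 < r := hr
    have h1 : 0 < r ^ 2 + 4 := by positivity
    unfold zr
    constructor
    · rw [lt_div_iff₀ h1]
      nlinarith
    · rw [div_lt_one h1]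
      linarith
  · rintro ⟨h1, h2⟩
    have h3 : 0 < 1 - c := by linarith
    have h4 : 0 < 4 * (1 + c) / (1 - c) := by
      apply div_pos _ h3
      linarith
    refine ⟨√(4 * (1 + c) / (1 - c)), Real.sqrt_pos.2 h4, ?_⟩
    unfold zr
    rw [Real.sq_sqrt h4.le]
    field_simp
    ring

theorem lintegral_radial (g : ℝ → ℝ≥0∞) (hg : Measurable g) :
    ∫⁻ x : E2, ENNReal.ofReal (16 / (x 0 ^ 2 + x 1 ^ 2 + 4) ^ 2) *
        g ((x 0 ^ 2 + x 1 ^ 2 - 4) / (x 0 ^ 2 + x 1 ^ 2 + 4)) =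
      ENNReal.ofReal (2 * Real.pi) * ∫⁻ c in Ioo (-1 : ℝ) 1, g c := by
  have e1 := polar_transfer (fun p : ℝ × ℝ => ENNReal.ofReal (16 / (p.1 ^ 2 + p.2 ^ 2 + 4) ^ 2) *
        g ((p.1 ^ 2 + p.2 ^ 2 - 4) / (p.1 ^ 2 + p.2 ^ 2 + 4)))
  simp only at e1
  rw [e1, ← lintegral_comp_polarCoord_symm]
  have ht : polarCoord.target = Ioi (0 : ℝ) ×ˢ Ioo (-Real.pi) Real.pi := rfl
  set k : ℝ → ℝ≥0∞ := fun r => ENNReal.ofReal (16 * r / (r ^ 2 + 4) ^ 2) * g (zr r) with hk
  have hzm : Measurable zr := by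
    unfold zr
    fun_prop
  have hkm : Measurable k := by
    refine Measurable.mul ?_ (hg.comp hzm)
    fun_prop
  have e2 : ∫⁻ p in polarCoord.target, ENNReal.ofReal p.1 •
      (ENNReal.ofReal (16 / ((polarCoord.symm p).1 ^ 2 + (polarCoord.symm p).2 ^ 2 + 4) ^ 2) *
        g (((polarCoord.symm p).1 ^ 2 + (polarCoord.symm p).2 ^ 2 - 4) /
          ((polarCoord.symm p).1 ^ 2 + (polarCoord.symm p).2 ^ 2 + 4))) =
      ∫⁻ p in Ioi (0 : ℝ) ×ˢ Ioo (-Real.pi) Real.pi, k p.1 * 1 := by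
    rw [ht]
    refine setLIntegral_congr_fun (measurableSet_Ioi.prod measurableSet_Ioo) (fun p hp => ?_)
    have hp0 : 0 < p.1 := hp.1
    have h1 : (polarCoord.symm p).1 ^ 2 + (polarCoord.symm p).2 ^ 2 = p.1 ^ 2 := by
      rw [polarCoord_symm_apply]
      simp only
      have := Real.sin_sq_add_cos_sq p.2
      calc (p.1 * Real.cos p.2) ^ 2 + (p.1 * Real.sin p.2) ^ 2 =
          p.1 ^ 2 * (Real.sin p.2 ^ 2 + Real.cos p.2 ^ 2) := by ring
        _ = p.1 ^ 2 := by rw [this, mul_one]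
    simp only [h1, smul_eq_mul, mul_one, hk]
    rw [← mul_assoc, ← ENNReal.ofReal_mul hp0.le]
    have e5 : p.1 * (16 / (p.1 ^ 2 + 4) ^ 2) = 16 * p.1 / (p.1 ^ 2 + 4) ^ 2 := by ring
    rw [e5]
    rfl
  rw [e2, Measure.volume_eq_prod, ← Measure.prod_restrict,
    lintegral_prod_mul (f := k) (g := fun _ => (1 : ℝ≥0∞)) hkm.aemeasurable measurable_const.aemeasurable]
  have e3 : ∫⁻ (_ : ℝ) in Ioo (-Real.pi) Real.pi, (1 : ℝ≥0∞) = ENNReal.ofReal (2 * Real.pi) := by
    rw [lintegral_one, Measure.restrict_apply_univ, Real.volume_Ioo]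
    congr 1
    ring
  have e4 : ∫⁻ r in Ioi (0 : ℝ), k r = ∫⁻ c in Ioo (-1 : ℝ) 1, g c := by
    rw [← zr_image, lintegral_image_eq_lintegral_abs_deriv_mul measurableSet_Ioi
      (fun r _ => (zr_deriv r).hasDerivWithinAt) zr_inj g]
    refine setLIntegral_congr_fun measurableSet_Ioi (fun r hr => ?_)
    have hr' : 0 < r := hr
    simp only [hk]
    rw [abs_of_pos (by positivity)]
  rw [e3, e4, mul_comm]

end Pool.Agent.Lib.MP_ec58cd_gt
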