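import Pool.Agent.Lib.MP_ec58cd_gt.EnergyCert
import Pool.Agent.Lib.MP_ec58cd_gt.HSq
import Pool.Agent.Lib.MP_ec58cd_gt.Gram
import Pool.Agent.Lib.MP_ec58cd_gt.Polar

/-!
# ENERGY: `energy f0 < 78.8 < 8 π²`

PROOF.  `normSq_MCV (psi x)` (with `(psi x).1 2 = psiAux x 2 = (x₀²+x₁²-4)/(x₀²+x₁²+4)`) and `det_gram`
(`√` of a square times `Gy`; `Sy > 0`, `Gy > 0` as `(psiAux x 2)² ≤ 1`): the integrand is
`ofReal (16/q²) * ofReal (hE (psiAux x 2))`; `lintegral_radial`, `lintegral_hE`,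
`2 π · 2 · 6.26888 < 78.8` by `Real.pi_lt_d4` and `78.8 < 8 π²` by `Real.pi_gt_d4`.
-/

noncomputable section

open Set Filter Topology MeasureTheory Metric
open scoped Manifold ContDiff RealInnerProductSpace ENNReal

namespace Pool.Agent.Lib.MP_ec58cd_gt

theorem psiAux_two (x : E2) :
    psiAux x 2 = (x 0 ^ 2 + x 1 ^ 2 - 4) / (x 0 ^ 2 + x 1 ^ 2 + 4) := by
  simp [psiAux]

theorem density (x : E2) :
    ENNReal.ofReal (‖MCV 2 f0 (psi x)‖ ^ 2 * √(gram (fun y => f0 (psi y)) x).det) =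
      ENNReal.ofReal (16 / (x 0 ^ 2 + x 1 ^ 2 + 4) ^ 2) *
        ENNReal.ofReal (hE ((x 0 ^ 2 + x 1 ^ 2 - 4) / (x 0 ^ 2 + x 1 ^ 2 + 4))) := by
  have hq : (0 : ℝ) < x 0 ^ 2 + x 1 ^ 2 + 4 := by positivity
  have h1 : (psi x).1 2 = psiAux x 2 := rfl
  have h2 : psiAux x 2 ^ 2 ≤ 1 := h1 ▸ sphere_sq_le (psi x)
  have h0 : 0 ≤ psiAux x 2 ^ 2 := sq_nonneg _
  have hs : 0 < Sy (psiAux x 2 ^ 2) := Sy_pos h0 h2
  have hg : 0 < Gy (psiAux x 2 ^ 2) := Gy_pos h0 h2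
  rw [← ENNReal.ofReal_mul (by positivity), normSq_MCV, det_gram, h1, ← psiAux_two]
  congr 1
  have e : √((16 / (x 0 ^ 2 + x 1 ^ 2 + 4) ^ 2) ^ 2 *
        (Sy ((psiAux x 2) ^ 2) ^ 2 *
          ((psiAux x 2) ^ 2 * (Sy ((psiAux x 2) ^ 2) -
              2 * (1 - (psiAux x 2) ^ 2) * Sy1 ((psiAux x 2) ^ 2)) ^ 2 +
            121 / 16 * (1 - (psiAux x 2) ^ 2)))) =
      16 / (x 0 ^ 2 + x 1 ^ 2 + 4) ^ 2 * (Sy (psiAux x 2 ^ 2) * √(Gy (psiAux x 2 ^ 2))) := by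
    change √((16 / (x 0 ^ 2 + x 1 ^ 2 + 4) ^ 2) ^ 2 * (Sy ((psiAux x 2) ^ 2) ^ 2 *
      Gy (psiAux x 2 ^ 2))) = _
    rw [Real.sqrt_mul (by positivity), Real.sqrt_mul (by positivity), Real.sqrt_sq hs.le,
      Real.sqrt_sq (by positivity)]
  rw [e]
  unfold hE
  ring

theorem energy_f0 : energy f0 < ENNReal.ofReal 78.8 := by
  have e : energy f0 = ENNReal.ofReal (2 * Real.pi) *
      ∫⁻ c in Ioo (-1 : ℝ) 1, ENNReal.ofReal (hE c) := by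
    rw [energy, lintegral_congr density,
      lintegral_radial (fun c => ENNReal.ofReal (hE c)) measurable_hE.ennreal_ofReal]
  have hpi := Real.pi_pos
  have h1 : energy f0 ≤ ENNReal.ofReal (2 * Real.pi * (2 * 6.26888)) := by
    rw [e, ENNReal.ofReal_mul (p := 2 * Real.pi) (by positivity)]
    exact mul_le_mul_right lintegral_hE _
  refine h1.trans_lt ((ENNReal.ofReal_lt_ofReal_iff (by norm_num)).2 ?_)
  have := Real.pi_lt_d4
  nlinarith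

end Pool.Agent.Lib.MP_ec58cd_gt
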