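import Pool.Agent.Lib.MP_ec58cd_gt.EnergyPieces

/-!
# ENERGYCERT: the one dimensional energy integral

PROOF.  `hE` is even and measurable (a quotient of continuous functions; Borel).  `Ioo (-1) 1` is
`[0, 1)` and its mirror image up to a null set, `∫⁻_{(-1,1)} = 2 ∫⁻_{[0,1)}`; `[0, 1)` is the union of the ten
intervals `[a/20, b/20)` of `piece0 .. piece9`; on each one `∫⁻ ofReal (hE c) ≤ ∫⁻ ofReal (q (c²)) =
ofReal (∫ q(c²) dc)` (`q ≥ hE ≥ 0` there; interval integral of a polynomial of degree 6 by `integral_pow`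
or the fundamental theorem), and the sum of the ten integrals is
`842536443371767/134400000000000 < 6.26888`.
-/

noncomputable section

open Set Filter Topology MeasureTheory Metric
open scoped Manifold ContDiff RealInnerProductSpace ENNReal

namespace Pool.Agent.Lib.MP_ec58cd_gt

theorem measurable_hE : Measurable hE := by
  have h1 : Measurable Sy := by unfold Sy; fun_prop
  have h2 : Measurable Sy1 := by unfold Sy1; fun_prop
  have h3 : Measurable Sy2 := by unfold Sy2; fun_prop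
  have h4 : Measurable Gy := by unfold Gy; fun_prop
  have h5 : Measurable Ky := by unfold Ky; fun_prop
  unfold hE
  fun_prop

theorem hE_nonneg {c : ℝ} (h : c ^ 2 ≤ 1) : 0 ≤ hE c := by
  have h0 : 0 ≤ c ^ 2 := sq_nonneg c
  have hs : 0 < Sy (c ^ 2) := Sy_pos h0 h
  have hg : 0 < Gy (c ^ 2) := Gy_pos h0 h
  unfold hE
  positivity

theorem integral_ev1 (a0 a1 a2 a3 : ℤ) (a b : ℝ) :
    ∫ c in a..b, ev1 [a0, a1, a2, a3] (c ^ 2) / 10000 =
      (a0 * b + a1 * b ^ 3 / 3 + a2 * b ^ 5 / 5 + a3 * b ^ 7 / 7) / 10000 -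
        (a0 * a + a1 * a ^ 3 / 3 + a2 * a ^ 5 / 5 + a3 * a ^ 7 / 7) / 10000 := by
  have hc : Continuous fun c : ℝ => ev1 [a0, a1, a2, a3] (c ^ 2) / 10000 := by
    simp only [ev1]
    fun_prop
  refine intervalIntegral.integral_eq_sub_of_hasDerivAt
    (f := fun c : ℝ => (a0 * c + a1 * c ^ 3 / 3 + a2 * c ^ 5 / 5 + a3 * c ^ 7 / 7) / 10000)
    (fun x _ => ?_) (hc.intervalIntegrable a b)
  have e1 : HasDerivAt (fun c : ℝ => (a0 : ℝ) * c) (a0 * 1) x := (hasDerivAt_id x).const_mul _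
  have e2 : HasDerivAt (fun c : ℝ => (a1 : ℝ) * c ^ 3 / 3) (a1 * (3 * x ^ 2) / 3) x := by
    simpa using ((hasDerivAt_pow 3 x).const_mul (a1 : ℝ)).div_const 3
  have e3 : HasDerivAt (fun c : ℝ => (a2 : ℝ) * c ^ 5 / 5) (a2 * (5 * x ^ 4) / 5) x := by
    simpa using ((hasDerivAt_pow 5 x).const_mul (a2 : ℝ)).div_const 5
  have e4 : HasDerivAt (fun c : ℝ => (a3 : ℝ) * c ^ 7 / 7) (a3 * (7 * x ^ 6) / 7) x := by
    simpa using ((hasDerivAt_pow 7 x).const_mul (a3 : ℝ)).div_const 7
  refine ((((e1.add e2).add e3).add e4).div_const 10000).congr_deriv ?_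
  simp only [ev1]
  ring

theorem lint_piece {a b r : ℝ} (ha : 0 ≤ a) (hab : a ≤ b) (hb : b ≤ 1) (a0 a1 a2 a3 : ℤ)
    (h : ∀ c, a ≤ c → c < b → hE c ≤ ev1 [a0, a1, a2, a3] (c ^ 2) / 10000)
    (hr : (a0 * b + a1 * b ^ 3 / 3 + a2 * b ^ 5 / 5 + a3 * b ^ 7 / 7) / 10000 -
        (a0 * a + a1 * a ^ 3 / 3 + a2 * a ^ 5 / 5 + a3 * a ^ 7 / 7) / 10000 = r) :
    ∫⁻ c in Ico a b, ENNReal.ofReal (hE c) ≤ ENNReal.ofReal r := by
  have hc : Continuous fun c : ℝ => ev1 [a0, a1, a2, a3] (c ^ 2) / 10000 := by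
    simp only [ev1]
    fun_prop
  have h1 : ∫⁻ c in Ico a b, ENNReal.ofReal (hE c) ≤
      ∫⁻ c in Ico a b, ENNReal.ofReal (ev1 [a0, a1, a2, a3] (c ^ 2) / 10000) :=
    setLIntegral_mono' measurableSet_Ico fun c hc => ENNReal.ofReal_le_ofReal (h c hc.1 hc.2)
  refine h1.trans (le_of_eq ?_)
  rw [← hr, ← integral_ev1, intervalIntegral.integral_of_le hab, ← restrict_Ico_eq_restrict_Ioc,
    ← ofReal_integral_eq_lintegral_ofReal]
  · rw [restrict_Ico_eq_restrict_Ioc]
    exact (hc.intervalIntegrable a b).1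
  · refine (ae_restrict_iff' measurableSet_Ico).2 (Eventually.of_forall fun c hc => ?_)
    exact (hE_nonneg (by nlinarith [hc.1, hc.2])).trans (h c hc.1 hc.2)

theorem lint_split (F : ℝ → ℝ≥0∞) (a b d : ℝ) :
    ∫⁻ c in Ico a d, F c ≤ (∫⁻ c in Ico a b, F c) + ∫⁻ c in Ico b d, F c :=
  (lintegral_mono_set (Ico_subset_Ico_union_Ico (b := b))).trans (lintegral_union_le _ _ _)

theorem lint0 : ∫⁻ c in Ico (0 / 20 : ℝ) (4 / 20), ENNReal.ofReal (hE c) ≤
    ENNReal.ofReal (244615647 / 781250000) :=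
  lint_piece (by norm_num) (by norm_num) (by norm_num) (13496) (164409) (-200560) (3441004)
    (fun _ h0 h1 => piece0 h0 h1) (by push_cast; norm_num)

theorem lint1 : ∫⁻ c in Ico (4 / 20 : ℝ) (7 / 20), ENNReal.ofReal (hE c) ≤
    ENNReal.ofReal (17951598326409 / 44800000000000) :=
  lint_piece (by norm_num) (by norm_num) (by norm_num) (13762) (148629) (128876) (974782)
    (fun _ h0 h1 => piece1 h0 h1) (by push_cast; norm_num)

theorem lint2 : ∫⁻ c in Ico (7 / 20 : ℝ) (9 / 20), ENNReal.ofReal (hE c) ≤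
    ENNReal.ofReal (20182198498391 / 44800000000000) :=
  lint_piece (by norm_num) (by norm_num) (by norm_num) (18003) (48570) (929024) (-1197673)
    (fun _ h0 h1 => piece2 h0 h1) (by push_cast; norm_num)

theorem lint3 : ∫⁻ c in Ico (9 / 20 : ℝ) (11 / 20), ENNReal.ofReal (hE c) ≤
    ENNReal.ofReal (92982083063509 / 134400000000000) :=
  lint_piece (by norm_num) (by norm_num) (by norm_num) (32232) (-164612) (2000676) (-3004357)
    (fun _ h0 h1 => piece3 h0 h1) (by push_cast; norm_num)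

theorem lint4 : ∫⁻ c in Ico (11 / 20 : ℝ) (13 / 20), ENNReal.ofReal (hE c) ≤
    ENNReal.ofReal (122807121802033 / 134400000000000) :=
  lint_piece (by norm_num) (by norm_num) (by norm_num) (-63986) (730747) (-780096) (-120373)
    (fun _ h0 h1 => piece4 h0 h1) (by push_cast; norm_num)

theorem lint5 : ∫⁻ c in Ico (13 / 20 : ℝ) (15 / 20), ENNReal.ofReal (hE c) ≤
    ENNReal.ofReal (25258077382067 / 26880000000000) :=
  lint_piece (by norm_num) (by norm_num) (by norm_num) (-237105) (2016781) (-3969015) (2518305)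
    (fun _ h0 h1 => piece5 h0 h1) (by push_cast; norm_num)

theorem lint6 : ∫⁻ c in Ico (15 / 20 : ℝ) (17 / 20), ENNReal.ofReal (hE c) ≤
    ENNReal.ofReal (119135763159221 / 134400000000000) :=
  lint_piece (by norm_num) (by norm_num) (by norm_num) (20869) (666683) (-1608236) (1138983)
    (fun _ h0 h1 => piece6 h0 h1) (by push_cast; norm_num)

theorem lint7 : ∫⁻ c in Ico (17 / 20 : ℝ) (18 / 20), ENNReal.ofReal (hE c) ≤
    ENNReal.ofReal (44693176789679 / 89600000000000) :=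
  lint_piece (by norm_num) (by norm_num) (by norm_num) (1232090) (-4334202) (5281118) (-2027839)
    (fun _ h0 h1 => piece7 h0 h1) (by push_cast; norm_num)

theorem lint8 : ∫⁻ c in Ico (18 / 20 : ℝ) (19 / 20), ENNReal.ofReal (hE c) ≤
    ENNReal.ofReal (6612046522877 / 11200000000000) :=
  lint_piece (by norm_num) (by norm_num) (by norm_num) (5713551) (-20840439) (25555619) (-10332632)
    (fun _ h0 h1 => piece8 h0 h1) (by push_cast; norm_num)

theorem lint9 : ∫⁻ c in Ico (19 / 20 : ℝ) (20 / 20), ENNReal.ofReal (hE c) ≤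
    ENNReal.ofReal (31381462207409 / 53760000000000) :=
  lint_piece (by norm_num) (by norm_num) (by norm_num) (-2790628) (6499861) (-3725626) (114075)
    (fun _ h0 h1 => piece9 h0 h1) (by push_cast; norm_num)

theorem lint_half : ∫⁻ c in Ico (0 / 20 : ℝ) (20 / 20), ENNReal.ofReal (hE c) ≤
    ENNReal.ofReal 6.26888 := by
  have s0 := lint_split (fun c => ENNReal.ofReal (hE c)) (0 / 20) (4 / 20) (20 / 20)
  have s1 := lint_split (fun c => ENNReal.ofReal (hE c)) (4 / 20) (7 / 20) (20 / 20)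
  have s2 := lint_split (fun c => ENNReal.ofReal (hE c)) (7 / 20) (9 / 20) (20 / 20)
  have s3 := lint_split (fun c => ENNReal.ofReal (hE c)) (9 / 20) (11 / 20) (20 / 20)
  have s4 := lint_split (fun c => ENNReal.ofReal (hE c)) (11 / 20) (13 / 20) (20 / 20)
  have s5 := lint_split (fun c => ENNReal.ofReal (hE c)) (13 / 20) (15 / 20) (20 / 20)
  have s6 := lint_split (fun c => ENNReal.ofReal (hE c)) (15 / 20) (17 / 20) (20 / 20)
  have s7 := lint_split (fun c => ENNReal.ofReal (hE c)) (17 / 20) (18 / 20) (20 / 20)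
  have s8 := lint_split (fun c => ENNReal.ofReal (hE c)) (18 / 20) (19 / 20) (20 / 20)
  have t9 := lint9
  have t8 : ∫⁻ c in Ico (18 / 20 : ℝ) (20 / 20), ENNReal.ofReal (hE c) ≤
      ENNReal.ofReal (315596427586093 / 268800000000000) := by
    refine (s8.trans (add_le_add lint8 t9)).trans (le_of_eq ?_)
    rw [← ENNReal.ofReal_add (by norm_num) (by norm_num)]
    norm_num
  have t7 : ∫⁻ c in Ico (17 / 20 : ℝ) (20 / 20), ENNReal.ofReal (hE c) ≤
      ENNReal.ofReal (44967595795513 / 26880000000000) := by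
    refine (s7.trans (add_le_add lint7 t8)).trans (le_of_eq ?_)
    rw [← ENNReal.ofReal_add (by norm_num) (by norm_num)]
    norm_num
  have t6 : ∫⁻ c in Ico (15 / 20 : ℝ) (20 / 20), ENNReal.ofReal (hE c) ≤
      ENNReal.ofReal (171986871068393 / 67200000000000) := by
    refine (s6.trans (add_le_add lint6 t7)).trans (le_of_eq ?_)
    rw [← ENNReal.ofReal_add (by norm_num) (by norm_num)]
    norm_num
  have t5 : ∫⁻ c in Ico (13 / 20 : ℝ) (20 / 20), ENNReal.ofReal (hE c) ≤
      ENNReal.ofReal (470264129047121 / 134400000000000) := by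
    refine (s5.trans (add_le_add lint5 t6)).trans (le_of_eq ?_)
    rw [← ENNReal.ofReal_add (by norm_num) (by norm_num)]
    norm_num
  have t4 : ∫⁻ c in Ico (11 / 20 : ℝ) (20 / 20), ENNReal.ofReal (hE c) ≤
      ENNReal.ofReal (14120744067837 / 3200000000000) := by
    refine (s4.trans (add_le_add lint4 t5)).trans (le_of_eq ?_)
    rw [← ENNReal.ofReal_add (by norm_num) (by norm_num)]
    norm_num
  have t3 : ∫⁻ c in Ico (9 / 20 : ℝ) (20 / 20), ENNReal.ofReal (hE c) ≤
      ENNReal.ofReal (686053333912663 / 134400000000000) := by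
    refine (s3.trans (add_le_add lint3 t4)).trans (le_of_eq ?_)
    rw [← ENNReal.ofReal_add (by norm_num) (by norm_num)]
    norm_num
  have t2 : ∫⁻ c in Ico (7 / 20 : ℝ) (20 / 20), ENNReal.ofReal (hE c) ≤
      ENNReal.ofReal (26664283193137 / 4800000000000) := by
    refine (s2.trans (add_le_add lint2 t3)).trans (le_of_eq ?_)
    rw [← ENNReal.ofReal_add (by norm_num) (by norm_num)]
    norm_num
  have t1 : ∫⁻ c in Ico (4 / 20 : ℝ) (20 / 20), ENNReal.ofReal (hE c) ≤
      ENNReal.ofReal (800454724387063 / 134400000000000) := by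
    refine (s1.trans (add_le_add lint1 t2)).trans (le_of_eq ?_)
    rw [← ENNReal.ofReal_add (by norm_num) (by norm_num)]
    norm_num
  have t0 : ∫⁻ c in Ico (0 / 20 : ℝ) (20 / 20), ENNReal.ofReal (hE c) ≤
      ENNReal.ofReal (842536443371767 / 134400000000000) := by
    refine (s0.trans (add_le_add lint0 t1)).trans (le_of_eq ?_)
    rw [← ENNReal.ofReal_add (by norm_num) (by norm_num)]
    norm_num
  exact t0.trans (ENNReal.ofReal_le_ofReal (by norm_num))

theorem hE_neg (c : ℝ) : hE (-c) = hE c := by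
  unfold hE
  rw [neg_sq]

theorem lintegral_hE : ∫⁻ c in Ioo (-1 : ℝ) 1, ENNReal.ofReal (hE c) ≤ ENNReal.ofReal (2 * 6.26888) := by
  have h0 : ∫⁻ c in Ico (0 : ℝ) 1, ENNReal.ofReal (hE c) ≤ ENNReal.ofReal 6.26888 := by
    have := lint_half
    norm_num at this
    norm_num
    exact this
  have h1 : ∫⁻ c in Ioo (-1 : ℝ) 0, ENNReal.ofReal (hE c) ≤ ENNReal.ofReal 6.26888 := by
    have e : ∫⁻ c in Ioo (-1 : ℝ) 0, ENNReal.ofReal (hE c) =
        ∫⁻ c in Ioo (0 : ℝ) 1, ENNReal.ofReal (hE c) := by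
      rw [← lintegral_indicator measurableSet_Ioo, ← lintegral_indicator measurableSet_Ioo,
        ← lintegral_neg_eq_self]
      refine lintegral_congr fun c => ?_
      by_cases hc : c ∈ Ioo (0 : ℝ) 1
      · have hc' : -c ∈ Ioo (-1 : ℝ) 0 := ⟨by linarith [hc.2], by linarith [hc.1]⟩
        rw [indicator_of_mem hc, indicator_of_mem hc', hE_neg]
      · have hc' : -c ∉ Ioo (-1 : ℝ) 0 := fun h => hc ⟨by linarith [h.2], by linarith [h.1]⟩
        rw [indicator_of_notMem hc, indicator_of_notMem hc']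
    rw [e]
    exact (lintegral_mono_set Ioo_subset_Ico_self).trans h0
  have h2 : ∫⁻ c in Ioo (-1 : ℝ) 1, ENNReal.ofReal (hE c) ≤
      (∫⁻ c in Ioo (-1 : ℝ) 0, ENNReal.ofReal (hE c)) +
        ∫⁻ c in Ico (0 : ℝ) 1, ENNReal.ofReal (hE c) := by
    refine (lintegral_mono_set ?_).trans (lintegral_union_le _ _ _)
    intro c hc
    rcases lt_or_ge c 0 with h | h
    · exact Or.inl ⟨hc.1, h⟩
    · exact Or.inr ⟨h, hc.2⟩
  refine (h2.trans (add_le_add h1 h0)).trans (le_of_eq ?_)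
  rw [← ENNReal.ofReal_add (by norm_num) (by norm_num)]
  norm_num

end Pool.Agent.Lib.MP_ec58cd_gt
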