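import Pool.Agent.Lib.MP_ec58cd_gt.Defs

/-!
# FRAME: orthonormal frames and the mean curvature vector
-/

noncomputable section

open Set Filter Topology MeasureTheory Metric
open scoped Manifold ContDiff RealInnerProductSpace ENNReal

namespace Pool.Agent.Lib.MP_ec58cd_gt

variable {n : ℕ} {E : Type*} [NormedAddCommGroup E] [InnerProductSpace ℝ E] [FiniteDimensional ℝ E]

theorem exists_frame (L : EuclideanSpace ℝ (Fin n) →L[ℝ] E) (hL : Function.Injective L) :
    ∃ u : Fin n → EuclideanSpace ℝ (Fin n), Orthonormal ℝ (fun i => L (u i)) := by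
  set K : Submodule ℝ E := LinearMap.range (L : EuclideanSpace ℝ (Fin n) →ₗ[ℝ] E) with hK
  have hfin : Module.finrank ℝ K = n := by
    rw [hK, LinearMap.finrank_range_of_inj (by exact hL)]
    simp
  let b : OrthonormalBasis (Fin n) ℝ K := (stdOrthonormalBasis ℝ K).reindex (finCongr hfin)
  have hmem : ∀ i, ∃ u : EuclideanSpace ℝ (Fin n), L u = (b i : E) := by
    intro i
    obtain ⟨u, hu⟩ := (b i).2
    exact ⟨u, hu⟩
  choose u hu using hmem
  refine ⟨u, ?_⟩
  have h1 : Orthonormal ℝ (fun i => ((b i : K) : E)) :=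
    b.orthonormal.comp_linearIsometry K.subtypeₗᵢ
  have h2 : (fun i => L (u i)) = fun i => ((b i : K) : E) := by
    funext i; exact hu i
  rw [h2]
  exact h1

theorem secondFF_sum_sum (X : EuclideanSpace ℝ (Fin n) → E) (x v w : EuclideanSpace ℝ (Fin n)) :
    secondFF X x v w = ∑ i, ∑ j, (v i * w j) • secondFF X x (ebas i) (ebas j) := by
  have hv : v = ∑ i, v i • ebas i := by
    have := (EuclideanSpace.basisFun (Fin n) ℝ).sum_repr v
    simpa using this.symm
  have hw : w = ∑ j, w j • ebas j := by
    have := (EuclideanSpace.basisFun (Fin n) ℝ).sum_repr w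
    simpa using this.symm
  unfold secondFF
  conv_lhs => rw [hv, hw]
  simp only [map_sum, map_smul, ContinuousLinearMap.sum_apply, ContinuousLinearMap.smul_apply,
    Finset.smul_sum, smul_smul]
  rw [Finset.sum_comm]
  refine Finset.sum_congr rfl fun i _ => Finset.sum_congr rfl fun j _ => ?_
  rw [mul_comm]

theorem meanCurv_eq_frame (X : EuclideanSpace ℝ (Fin n) → E) (x : EuclideanSpace ℝ (Fin n))
    (u : Fin n → EuclideanSpace ℝ (Fin n)) (hu : Orthonormal ℝ (fun i => fderiv ℝ X x (u i))) :
    meanCurv X x = ∑ i, secondFF X x (u i) (u i) := by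
  set G := gram X x with hG
  set A : Matrix (Fin n) (Fin n) ℝ := Matrix.of fun k i => u k i with hA
  have hexp : ∀ v : EuclideanSpace ℝ (Fin n), v = ∑ i, v i • ebas i := by
    intro v
    have := (EuclideanSpace.basisFun (Fin n) ℝ).sum_repr v
    simpa using this.symm
  have hAGA : A * G * A.transpose = 1 := by
    ext k l
    have h1 : ⟪fderiv ℝ X x (u k), fderiv ℝ X x (u l)⟫ = (1 : Matrix (Fin n) (Fin n) ℝ) k l := by
      rw [Matrix.one_apply]
      exact (orthonormal_iff_ite.1 hu k l)
    rw [← h1]
    conv_rhs => rw [hexp (u k), hexp (u l)]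
    simp only [map_sum, map_smul, sum_inner, inner_sum, inner_smul_left, inner_smul_right,
      Matrix.mul_apply, Matrix.transpose_apply, hA, hG, gram, Matrix.of_apply, Finset.sum_mul,
      conj_trivial]
    refine Finset.sum_congr rfl fun i _ => ?_
    rw [Finset.mul_sum]
    refine Finset.sum_congr rfl fun j _ => ?_
    ring
  have h2 : G * (A.transpose * A) = 1 := by
    have h3 : A * (G * A.transpose) = 1 := by rw [← Matrix.mul_assoc]; exact hAGA
    have h4 := mul_eq_one_comm.1 h3
    rw [← Matrix.mul_assoc]; exact h4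
  have hinv : G⁻¹ = A.transpose * A := Matrix.inv_eq_right_inv h2
  unfold meanCurv
  rw [← hG, hinv]
  simp_rw [secondFF_sum_sum X x (u _) (u _)]
  simp only [Matrix.mul_apply, Matrix.transpose_apply, hA, Matrix.of_apply, Finset.sum_smul]
  rw [Finset.sum_comm (s := Finset.univ) (t := Finset.univ)
    (f := fun k i => ∑ j, (u k i * u k j) • secondFF X x (ebas i) (ebas j))]
  refine Finset.sum_congr rfl fun i _ => ?_
  rw [Finset.sum_comm]

/-- a functional which vanishes on the tangent space does not see the tangential part -/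
theorem apply_secondFF (X : EuclideanSpace ℝ (Fin n) → E) (x : EuclideanSpace ℝ (Fin n))
    (φ : E →L[ℝ] ℝ) (hφ : ∀ v, φ (fderiv ℝ X x v) = 0) (v w : EuclideanSpace ℝ (Fin n)) :
    φ (secondFF X x v w) = φ (fderiv ℝ (fderiv ℝ X) x v w) := by
  unfold secondFF
  set z := fderiv ℝ (fderiv ℝ X) x v w with hz
  set K := tangent X x with hK
  have h1 : z = K.starProjection z + Kᗮ.starProjection z := by
    exact (Submodule.starProjection_add_starProjection_orthogonal (K := K) z).symm
  have h2 : φ (K.starProjection z) = 0 := by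
    have : K.starProjection z ∈ K := by
      exact Submodule.starProjection_apply_mem _ _
    obtain ⟨y, hy⟩ := this
    rw [← hy]
    exact hφ y
  conv_rhs => rw [h1]
  rw [map_add, h2, zero_add]

theorem inner_meanCurv (X : EuclideanSpace ℝ (Fin n) → E) (x v : EuclideanSpace ℝ (Fin n)) :
    ⟪fderiv ℝ X x v, meanCurv X x⟫ = 0 := by
  have h1 : meanCurv X x ∈ (tangent X x)ᗮ := by
    unfold meanCurv
    refine Submodule.sum_mem _ fun i _ => Submodule.sum_mem _ fun j _ => Submodule.smul_mem _ _ ?_
    exact Submodule.starProjection_apply_mem _ _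
  exact (Submodule.mem_orthogonal _ _).1 h1 _ ⟨v, rfl⟩

end Pool.Agent.Lib.MP_ec58cd_gt
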