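import Pool.Agent.Lib.MP_ec58cd_gt.Data
import Pool.Agent.Lib.MP_ec58cd_gt.Surface

/-!
# INIT: one variable inequalities for the barriers

PROOFS.  All are polynomial inequalities in one variable with a definite margin.  Either `pos1` /
`check1` (kernel: `by decide +kernel` on an explicit literal integer list, then `check1_sound`,
`pos1_sound`, and an identity `ev1 literal y = ..` by `simp [ev1]; ring`) or `nlinarith`/`polyrith` by
hand on a few subintervals.  IMPORTANT for `decide +kernel`: the lists given to `check1` must be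
literals (a `def` with an explicit literal), not expressions such as `sc1 (-1) l`.
`init_outer`: `10⁴ (1-y) Sy² = 4 (1-y) (33 + 140 y - 175 y² + 90 y³)²` against
`ev2 pU y 0 = 4361 + 34417 y - 36248 y² - 26672 y³ + 24732 y⁴`; 6-8 boxes suffice.
`init_inner`: the same with `ev2 pV y 0 = 4272 + 36224 y - 54806 y² + 5489 y³ + 8816 y⁴`.
`outer_end`: `norm_num [Uf, pU, ev2, ev1]`.
`center_pos`: at `z² = 25/16`, `y = 25/121`: a cubic in `t`.
`init_ball`: `(1 - y) Sy² ≤ (1 - y) 121/16` as `0 < Sy ≤ 44/25` on `[0, 1]`.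
-/

noncomputable section

open Set

namespace Pool.Agent.Lib.MP_ec58cd_gt

/-- positivity from a subdivision certificate -/
theorem ini_pos {L : List ℤ} {m k : ℕ} {lo hi N : ℤ} (hN : 0 < N)
    (h : check1 (fun lo hi N => pos1 lo hi N m L) k lo hi N = true) {y : ℝ}
    (h0 : (lo : ℝ) / N ≤ y) (h1 : y < hi / N) : 0 < ev1 L y :=
  check1_sound (P := fun y => 0 < ev1 L y)
    (fun _ _ _ hN' h' _ h0' h1' => pos1_sound hN' h' h0' h1') hN h h0 h1

theorem ini_outer_cert : check1 (fun lo hi N => pos1 lo hi N 7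
    [5, 1813, -31488, 177768, -370808, 349300, -158400, 32400]) 3 0 101 100 = true := by
  decide +kernel

theorem ini_inner_cert : check1 (fun lo hi N => pos1 lo hi N 7
    [84, -3620, 50046, -209929, 386724, -349300, 158400, -32400]) 4 0 1 1 = true := by
  decide +kernel

theorem ini_center_cert : check1 (fun lo hi N => pos1 lo hi N 3
    [2032379018107, -6616030623480, 3959671638100, -7713631472000]) 0 0 266 1000 = true := by
  decide +kernel

theorem init_outer {y : ℝ} (h0 : 0 ≤ y) (h1 : y ≤ 1) :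
    (1 - y) * Sy y ^ 2 < ev2 pU y 0 / 10000 := by
  have h := ini_pos (by norm_num) ini_outer_cert (y := y) (by norm_num; exact h0)
    (by norm_num; linarith)
  simp only [ev1, ev2, pU, Sy] at h ⊢
  push_cast at h ⊢
  nlinarith [h]

theorem init_inner {y : ℝ} (h0 : 0 ≤ y) (h1 : y ≤ 1) :
    ev2 pV y 0 / 10000 < (1 - y) * Sy y ^ 2 := by
  rcases eq_or_lt_of_le h1 with rfl | h1'
  · simp only [ev1, ev2, pV, Sy]
    norm_num
  have h := ini_pos (by norm_num) ini_inner_cert (y := y) (by norm_num; exact h0)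
    (by norm_num; linarith)
  simp only [ev1, ev2, pV, Sy] at h ⊢
  push_cast at h ⊢
  nlinarith [h]

theorem init_ball {y : ℝ} (h0 : 0 ≤ y) (h1 : y ≤ 1) :
    (1 - y) * Sy y ^ 2 + 121 / 16 * y ≤ 121 / 16 := by
  have hp := Sy_pos h0 h1
  have hq : Sy y ≤ 11 / 4 := by
    unfold Sy
    nlinarith [mul_nonneg h0 (sub_nonneg.2 h1), mul_nonneg (mul_nonneg h0 h0) (sub_nonneg.2 h1)]
  have hs : Sy y ^ 2 ≤ (11 / 4) ^ 2 := by
    apply pow_le_pow_left₀ hp.le hq
  nlinarith [mul_le_mul_of_nonneg_left hs (sub_nonneg.2 h1)]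

theorem outer_end : Uf pU (79 / 250) 0 < 0 := by
  simp only [Uf, pU, ev2, ev1]
  norm_num

theorem center_pos {t : ℝ} (h0 : 0 ≤ t) (h1 : t ≤ 53 / 200) : 0 < Uf pV t (5 / 4) := by
  have h := ini_pos (by norm_num) ini_center_cert (y := t) (by norm_num; exact h0)
    (by norm_num; linarith)
  simp only [Uf, pV, ev1, ev2] at h ⊢
  push_cast at h ⊢
  nlinarith [h]

end Pool.Agent.Lib.MP_ec58cd_gt
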