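import Pool.Agent.Lib.MP_ec58cd_gt.Data
import Pool.Agent.Lib.MP_ec58cd_gt.Surface

/-!
# INITB: the ellipsoid is inside the inner barrier at `t = 53/200`

PROOF.  On `19/100 - 1/2 (z - 5/4)² ≥ 0` we have `z ∈ [0.633, 1.867]`; the difference
`Uf pV (53/200) z - (19/100 - 1/2 (z - 5/4)²)` is a polynomial of degree 8 in `z` with rational
coefficients, `> 0.001` there.  Clear denominators (common factor `121⁴ · 200³ · 10⁴ / ..`), literal
integer list, `check1 (fun lo hi N => pos1 lo hi N 8 list) k 63 187 100 = true := by decide +kernel`
(`[0.63, 1.87)`, choose the depth `k` large enough; if the polynomial is not positive on all of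
`[0.63, 1.87)` shrink the interval, `2·19/100 < 0.6165²`), `check1_sound`, `pos1_sound`.
IMPORTANT for `decide +kernel`: the list must be a literal.
-/

noncomputable section

open Set

namespace Pool.Agent.Lib.MP_ec58cd_gt

theorem junc_cert : check1 (fun lo hi N => pos1 lo hi N 8
    [1271631972324417, -2679486012500000, 1577292145122056, 0, -157947423777088, 0,
      -560599868928, 0, 1229450092544]) 2 63 187 100 = true := by
  decide +kernel

theorem junction {z : ℝ} (hz : 0 ≤ 19 / 100 - 1 / 2 * (z - 5 / 4) ^ 2) :
    19 / 100 - 1 / 2 * (z - 5 / 4) ^ 2 ≤ Uf pV (53 / 200) z := by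
  have hlo : (63 : ℝ) / 100 ≤ z := by
    by_contra hcon
    push Not at hcon
    nlinarith
  have hhi : z < (187 : ℝ) / 100 := by
    by_contra hcon
    push Not at hcon
    nlinarith
  have h : 0 < ev1 [1271631972324417, -2679486012500000, 1577292145122056, 0, -157947423777088, 0,
      -560599868928, 0, 1229450092544] z :=
    check1_sound (P := fun y => 0 < ev1 [1271631972324417, -2679486012500000, 1577292145122056, 0,
      -157947423777088, 0, -560599868928, 0, 1229450092544] y)
      (fun _ _ _ hN' h' _ h0' h1' => pos1_sound hN' h' h0' h1') (by norm_num) junc_cert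
      (by norm_num; linarith) (by norm_num; linarith)
  simp only [Uf, pV, ev1, ev2] at h ⊢
  push_cast at h ⊢
  nlinarith [h]

end Pool.Agent.Lib.MP_ec58cd_gt
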