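import Pool.Agent.Lib.MP_ec58cd_gt.InnerData

/-!
# Kernel certificate of the inner barrier, part 0
-/

namespace Pool.Agent.Lib.MP_ec58cd_gt

theorem cellV00 : ncheck2 testV
    (.lf 1)
    0 5100 0 1326 = true := by decide +kernel

theorem cellV01 : ncheck2 testV
    (.lf 1)
    0 5100 1326 2652 = true := by decide +kernel

theorem cellV02 : ncheck2 testV
    (.lf 1)
    0 5100 2652 3978 = true := by decide +kernel

theorem cellV03 : ncheck2 testV
    (.lf 1)
    0 5100 3978 5303 = true := by decide +kernel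

theorem cellV10 : ncheck2 testV
    (.lf 1)
    5100 10200 0 1326 = true := by decide +kernel

theorem cellV11 : ncheck2 testV
    (.lf 1)
    5100 10200 1326 2652 = true := by decide +kernel

theorem cellV12 : ncheck2 testV
    (.lf 1)
    5100 10200 2652 3978 = true := by decide +kernel

theorem cellV13 : ncheck2 testV
    (.sy 7650 (.lf 1) (.st 4640 (.lf 1) (.sy 8925 (.lf 1) (.st 4971 (.lf 1) (.sy 9562 (.lf 2) (.st
    5137 (.lf 2) (.lf 3)))))))
    5100 10200 3978 5303 = true := by decide +kernel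

theorem cellV20 : ncheck2 testV
    (.lf 1)
    10200 15300 0 1326 = true := by decide +kernel

theorem cellV21 : ncheck2 testV
    (.lf 1)
    10200 15300 1326 2652 = true := by decide +kernel

theorem cellV22 : ncheck2 testV
    (.sy 12750 (.lf 1) (.st 3315 (.sy 14025 (.lf 1) (.st 2983 (.sy 14662 (.lf 1) (.lf 3)) (.sy
    14662 (.lf 3) (.lf 0)))) (.sy 14025 (.st 3646 (.sy 13387 (.lf 1) (.lf 3)) (.sy 13387 (.lf 3)
    (.lf 0))) (.lf 0))))
    10200 15300 2652 3978 = true := by decide +kernel

theorem cellV23 : ncheck2 testV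
    (.sy 12750 (.st 4640 (.sy 11475 (.lf 2) (.st 4309 (.sy 12112 (.lf 1) (.lf 3)) (.lf 3))) (.sy
    11475 (.st 4971 (.sy 10837 (.st 4805 (.lf 1) (.lf 3)) (.lf 3)) (.lf 0)) (.lf 0))) (.lf 0))
    10200 15300 3978 5303 = true := by decide +kernel

end Pool.Agent.Lib.MP_ec58cd_gt
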