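import Pool.Agent.Lib.MP_ec58cd_gt.InnerData

/-!
# Kernel certificate of the inner barrier, part 1
-/

namespace Pool.Agent.Lib.MP_ec58cd_gt

theorem cellV30 : ncheck2 testV
    (.sy 17851 (.lf 2) (.st 663 (.sy 19126 (.lf 3) (.st 331 (.sy 19764 (.st 165 (.lf 1) (.sy 19445
    (.lf 1) (.st 248 (.lf 3) (.sy 19604 (.lf 3) (.lf 0))))) (.st 165 (.sy 20083 (.st 82 (.sy 19923
    (.lf 1) (.st 41 (.lf 3) (.lf 0))) (.sy 19923 (.st 123 (.lf 3) (.sy 19843 (.lf 3) (.lf 0)))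
    (.lf 0))) (.lf 0)) (.lf 0))) (.sy 19764 (.st 497 (.sy 19445 (.st 414 (.lf 3) (.sy 19285 (.lf
    3) (.lf 0))) (.lf 0)) (.lf 0)) (.lf 0)))) (.sy 19126 (.st 994 (.sy 18488 (.lf 3) (.st 828 (.sy
    18807 (.lf 3) (.lf 0)) (.sy 18807 (.st 911 (.sy 18647 (.lf 3) (.lf 0)) (.lf 0)) (.lf 0))))
    (.sy 18488 (.st 1160 (.sy 18169 (.lf 3) (.st 1077 (.sy 18328 (.lf 3) (.lf 0)) (.lf 0))) (.sy
    18169 (.st 1243 (.lf 3) (.lf 0)) (.lf 0))) (.lf 0))) (.lf 0))))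
    15300 20402 0 1326 = true := by decide +kernel

theorem cellV31 : ncheck2 testV
    (.sy 17851 (.st 1989 (.sy 16575 (.lf 1) (.st 1657 (.sy 17213 (.lf 1) (.st 1491 (.sy 17532 (.lf
    1) (.st 1408 (.lf 3) (.lf 0))) (.sy 17532 (.st 1574 (.lf 3) (.sy 17372 (.lf 3) (.lf 0))) (.lf
    0)))) (.sy 17213 (.st 1823 (.lf 3) (.sy 16894 (.lf 3) (.lf 0))) (.lf 0)))) (.sy 16575 (.st
    2320 (.sy 15937 (.lf 1) (.st 2154 (.lf 3) (.sy 16256 (.lf 3) (.lf 0)))) (.sy 15937 (.st 2486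
    (.lf 3) (.sy 15618 (.lf 3) (.lf 0))) (.lf 0))) (.lf 0))) (.lf 0))
    15300 20402 1326 2652 = true := by decide +kernel

theorem cellV32 : ncheck2 testV
    (.lf 0)
    15300 20402 2652 3978 = true := by decide +kernel

theorem cellV33 : ncheck2 testV
    (.lf 0)
    15300 20402 3978 5303 = true := by decide +kernel

end Pool.Agent.Lib.MP_ec58cd_gt
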