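import Pool.Agent.Lib.MP_ec58cd_gt.InnerCell0
import Pool.Agent.Lib.MP_ec58cd_gt.InnerCell1

/-!
# INNERCERT: the inner barrier satisfies its inequality (kernel computation)
-/

noncomputable section

open Set

namespace Pool.Agent.Lib.MP_ec58cd_gt

theorem inner_cond {y t : ℝ} (hy0 : 0 ≤ y) (hy1 : y ≤ 1.01) (ht0 : 0 ≤ t) (ht1 : t ≤ 53 / 200)
    (hV : 0 ≤ ev2 pV y t) : ev2 (Qp pV) y t < 0 := by
  rcases lt_or_ge y (5100 / 20001) with hy | hy
  · rcases lt_or_ge t (1326 / 20001) with ht | ht
    · exact testV_sound cellV00 (by push_cast; linarith) (by push_cast; linarith)
        (by push_cast; linarith) (by push_cast; linarith) hV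
    rcases lt_or_ge t (2652 / 20001) with ht | ht
    · exact testV_sound cellV01 (by push_cast; linarith) (by push_cast; linarith)
        (by push_cast; linarith) (by push_cast; linarith) hV
    rcases lt_or_ge t (3978 / 20001) with ht | ht
    · exact testV_sound cellV02 (by push_cast; linarith) (by push_cast; linarith)
        (by push_cast; linarith) (by push_cast; linarith) hV
    exact testV_sound cellV03 (by push_cast; linarith) (by push_cast; linarith)
      (by push_cast; linarith) (by push_cast; linarith) hV
  rcases lt_or_ge y (10200 / 20001) with hy | hy
  · rcases lt_or_ge t (1326 / 20001) with ht | ht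
    · exact testV_sound cellV10 (by push_cast; linarith) (by push_cast; linarith)
        (by push_cast; linarith) (by push_cast; linarith) hV
    rcases lt_or_ge t (2652 / 20001) with ht | ht
    · exact testV_sound cellV11 (by push_cast; linarith) (by push_cast; linarith)
        (by push_cast; linarith) (by push_cast; linarith) hV
    rcases lt_or_ge t (3978 / 20001) with ht | ht
    · exact testV_sound cellV12 (by push_cast; linarith) (by push_cast; linarith)
        (by push_cast; linarith) (by push_cast; linarith) hV
    exact testV_sound cellV13 (by push_cast; linarith) (by push_cast; linarith)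
      (by push_cast; linarith) (by push_cast; linarith) hV
  rcases lt_or_ge y (15300 / 20001) with hy | hy
  · rcases lt_or_ge t (1326 / 20001) with ht | ht
    · exact testV_sound cellV20 (by push_cast; linarith) (by push_cast; linarith)
        (by push_cast; linarith) (by push_cast; linarith) hV
    rcases lt_or_ge t (2652 / 20001) with ht | ht
    · exact testV_sound cellV21 (by push_cast; linarith) (by push_cast; linarith)
        (by push_cast; linarith) (by push_cast; linarith) hV
    rcases lt_or_ge t (3978 / 20001) with ht | ht
    · exact testV_sound cellV22 (by push_cast; linarith) (by push_cast; linarith)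
        (by push_cast; linarith) (by push_cast; linarith) hV
    exact testV_sound cellV23 (by push_cast; linarith) (by push_cast; linarith)
      (by push_cast; linarith) (by push_cast; linarith) hV
  rcases lt_or_ge t (1326 / 20001) with ht | ht
  · exact testV_sound cellV30 (by push_cast; linarith) (by push_cast; linarith)
      (by push_cast; linarith) (by push_cast; linarith) hV
  rcases lt_or_ge t (2652 / 20001) with ht | ht
  · exact testV_sound cellV31 (by push_cast; linarith) (by push_cast; linarith)
      (by push_cast; linarith) (by push_cast; linarith) hV
  rcases lt_or_ge t (3978 / 20001) with ht | ht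
  · exact testV_sound cellV32 (by push_cast; linarith) (by push_cast; linarith)
      (by push_cast; linarith) (by push_cast; linarith) hV
  exact testV_sound cellV33 (by push_cast; linarith) (by push_cast; linarith)
    (by push_cast; linarith) (by push_cast; linarith) hV

end Pool.Agent.Lib.MP_ec58cd_gt
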