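import Pool.Agent.Lib.MP_ec58cd_gt.PhaseB
import Pool.Agent.Lib.MP_ec58cd_gt.Axis

/-!
# MAIN: `f0` does not flow to a point

PROOF.  Let `T, F, a` be as in `FlowsToPoint`.  `axis`: the poles are on the axis for all
`t ∈ [0, T)`.  `t ↦ F t north 2` is continuous on `[0, T)` (`h.flow`), equal to `11/4` at `t = 0`, and
never `5/4` for `t ≤ 79/250` (`inner_all`), so `> 5/4` there (intermediate value theorem);
`F t south 2 < - 5/4` in the same way.
Case `T ≤ 79/250`: `F t north 2 - F t south 2 > 5/2` for all `t < T`, but both tend to `a 2`.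
Case `79/250 < T`: at `t = 79/250` the continuous function `p ↦ F t p 2` on the connected sphere
(`isPreconnected_sphere` / `isConnected_sphere`, rank `3 > 1`) is `> 5/4` at the north pole and
`< -5/4` at the south pole, so it vanishes somewhere, contradiction to `outer_all`.
-/

noncomputable section

open Set Filter Topology MeasureTheory Metric
open scoped Manifold ContDiff RealInnerProductSpace ENNReal

namespace Pool.Agent.Lib.MP_ec58cd_gt

theorem not_flowsToPoint : ¬ FlowsToPoint 2 f0 := by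
  rintro ⟨T, F, h, hu, a, hconv⟩
  have hax := axis h hu
  have hcont : ∀ p : S2, ContinuousOn (fun t => F t p 2) (Ico 0 T) := by
    intro p t ht
    have h1 : ContinuousWithinAt (fun s => F s p) (Ico 0 T) t := (h.flow t ht p).continuousWithinAt
    exact ((EuclideanSpace.proj (𝕜 := ℝ) (2 : Fin 3)).continuous.continuousAt).comp_continuousWithinAt h1
  have hN0 : F 0 north 2 = 11 / 4 := by
    rw [h.init]; simp [f0, north]
  have hS0 : F 0 south 2 = -(11 / 4) := by
    rw [h.init]; simp [f0, south]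
  have hN : ∀ t ∈ Ico 0 T, t ≤ 79 / 250 → 5 / 4 < F t north 2 := by
    intro t ht ht2
    by_contra hc
    have hsub : Icc 0 t ⊆ Ico 0 T := fun s hs => ⟨hs.1, hs.2.trans_lt ht.2⟩
    obtain ⟨s, hs, hs2⟩ := intermediate_value_Icc' ht.1 ((hcont north).mono hsub)
      (show (5 / 4 : ℝ) ∈ Icc (F t north 2) (F 0 north 2) from ⟨not_lt.1 hc, by rw [hN0]; norm_num⟩)
    exact inner_all h (Or.inl rfl) s (hsub hs) (hs.2.trans ht2) north (hax s (hsub hs)).1.1
      (hax s (hsub hs)).1.2 hs2
  have hS : ∀ t ∈ Ico 0 T, t ≤ 79 / 250 → F t south 2 < -(5 / 4) := by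
    intro t ht ht2
    by_contra hc
    have hsub : Icc 0 t ⊆ Ico 0 T := fun s hs => ⟨hs.1, hs.2.trans_lt ht.2⟩
    obtain ⟨s, hs, hs2⟩ := intermediate_value_Icc ht.1 ((hcont south).mono hsub)
      (show (-(5 / 4) : ℝ) ∈ Icc (F 0 south 2) (F t south 2) from
        ⟨by rw [hS0]; norm_num, not_lt.1 hc⟩)
    exact inner_all h (Or.inr rfl) s (hsub hs) (hs.2.trans ht2) south (hax s (hsub hs)).2.1
      (hax s (hsub hs)).2.2 hs2
  rcases le_or_gt T (79 / 250) with hT | hT
  · have hlim : ∀ p : S2, Tendsto (fun t => F t p 2) (𝓝[<] T) (𝓝 (a 2)) := by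
      intro p
      have h1 : Tendsto (fun t => F t p) (𝓝[<] T) (𝓝 a) := hconv.tendsto_at p
      exact ((EuclideanSpace.proj (𝕜 := ℝ) (2 : Fin 3)).continuous.tendsto a).comp h1
    have h2 : Tendsto (fun t => F t north 2 - F t south 2) (𝓝[<] T) (𝓝 (a 2 - a 2)) :=
      (hlim north).sub (hlim south)
    have h3 : (5 / 2 : ℝ) ≤ a 2 - a 2 := by
      refine ge_of_tendsto h2 ?_
      filter_upwards [Ioo_mem_nhdsLT h.pos] with t ht
      have e1 := hN t ⟨ht.1.le, ht.2⟩ (ht.2.le.trans hT)
      have e2 := hS t ⟨ht.1.le, ht.2⟩ (ht.2.le.trans hT)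
      linarith
    norm_num at h3
  · have htm : (79 / 250 : ℝ) ∈ Ico 0 T := ⟨by norm_num, hT⟩
    have hc : Continuous (fun p : S2 => F (79 / 250) p 2) :=
      (EuclideanSpace.proj (𝕜 := ℝ) (2 : Fin 3)).continuous.comp (h.imm _ htm).1.continuous
    have : PreconnectedSpace S2 := by
      apply Subtype.preconnectedSpace
      apply isPreconnected_sphere
      rw [← Module.finrank_eq_rank, finrank_euclideanSpace_fin]
      norm_num
    have e1 := hN _ htm le_rfl
    have e2 := hS _ htm le_rfl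
    obtain ⟨p, hp⟩ := mem_range_of_exists_le_of_exists_ge (c := (0 : ℝ)) hc
      ⟨south, by linarith⟩ ⟨north, by linarith⟩
    exact outer_all h hT p hp

end Pool.Agent.Lib.MP_ec58cd_gt
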