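import Pool.Agent.Lib.MP_ec58cd_gt.Bern

/-!
# NBERN: positivity certificates on boxes, natural number version (fast in the kernel)

A polynomial is given as a difference of two polynomials with natural coefficients.
-/

noncomputable section

open Set Filter Topology

namespace Pool.Agent.Lib.MP_ec58cd_gt

/-- evaluation of `n` before it is used -/
def force {α : Type} (n : ℕ) (k : ℕ → α) : α := Nat.rec (k 0) (fun m _ => k (Nat.succ m)) n

theorem force_eq {α : Type} (n : ℕ) (k : ℕ → α) : force n k = k n := by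
  cases n <;> rfl

/-- Evaluation. -/
def nev1 : List ℕ → ℝ → ℝ
  | [], _ => 0
  | a :: l, x => a + x * nev1 l x

/-- Evaluation. -/
def nev2 : List (List ℕ) → ℝ → ℝ → ℝ
  | [], _, _ => 0
  | a :: l, y, t => nev1 a t + y * nev2 l y t

/-- `(lo + hi a) * l + c` -/
def nlin (lo hi : ℕ) : ℕ → List ℕ → List ℕ
  | c, [] => [c]
  | c, x :: l => force (Nat.add (Nat.mul lo x) c) fun v =>
      force (Nat.mul hi x) fun w => v :: nlin lo hi w l

/-- `(N (1 + a)) ^ m` -/
def npowN (N : ℕ) : ℕ → List ℕ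
  | 0 => [1]
  | m + 1 => nlin N N 0 (npowN N m)

/-- table of `(lo + hi a) ^ k (N (1 + a)) ^ (m - k)` -/
def ntab (lo hi N : ℕ) : ℕ → List (List ℕ)
  | 0 => [[1]]
  | m + 1 => npowN N (m + 1) :: (ntab lo hi N m).map (nlin lo hi 0)

/-- `c * l + m` -/
def naxpy (c : ℕ) : List ℕ → List ℕ → List ℕ
  | [], m => m
  | x :: l, [] => force (Nat.mul c x) fun v => v :: naxpy c l []
  | x :: l, b :: m => force (Nat.add (Nat.mul c x) b) fun v => v :: naxpy c l m

/-- `∑ c_k T_k` -/
def ncomb : List ℕ → List (List ℕ) → List ℕ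
  | [], _ => []
  | _ :: _, [] => []
  | c :: l, r :: T => naxpy c r (ncomb l T)

/-- `c(a) r(b) + m(a, b)` -/
def naxpyR (r : List ℕ) : List ℕ → List (List ℕ) → List (List ℕ)
  | [], m => m
  | x :: l, [] => naxpy x r [] :: naxpyR r l []
  | x :: l, b :: m => naxpy x r b :: naxpyR r l m

/-- `∑ r_k(b) T_k(a)` -/
def ncombR : List (List ℕ) → List (List ℕ) → List (List ℕ)
  | [], _ => []
  | _ :: _, [] => []
  | r :: l, c :: T => naxpyR r c (ncombR l T)

/-- numerator polynomial in two variables -/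
def nhom2 (y0 y1 Ny t0 t1 Nt : ℕ) (n m : ℕ) (l : List (List ℕ)) : List (List ℕ) :=
  ncombR (l.map fun r => ncomb r (ntab t0 t1 Nt m)) (ntab y0 y1 Ny n)

/-- coefficientwise `≤` -/
def nle1 : List ℕ → List ℕ → Bool
  | [], _ => true
  | _ :: _, [] => false
  | a :: l, b :: m => Nat.ble a b && nle1 l m

/-- coefficientwise `≤` -/
def nle2 : List (List ℕ) → List (List ℕ) → Bool
  | [], _ => true
  | _ :: _, [] => false
  | a :: l, b :: m => nle1 a b && nle2 l m

/-- coefficientwise `≤`, and `<` for the constant coefficients -/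
def nlt2 : List (List ℕ) → List (List ℕ) → Bool
  | (a :: l) :: L, (b :: m) :: K => Nat.ble (Nat.succ a) b && (nle1 l m && nle2 L K)
  | _, _ => false

/-- `Q < P` certified on `[y0/Ny, y1/Ny) × [t0/Nt, t1/Nt)` -/
def npos2 (y0 y1 Ny t0 t1 Nt : ℕ) (n m : ℕ) (P Q : List (List ℕ)) : Bool :=
  nlt2 (nhom2 y0 y1 Ny t0 t1 Nt n m Q) (nhom2 y0 y1 Ny t0 t1 Nt n m P)

/-- the lengths are at most `n + 1`, `m + 1` -/
def nlen (n m : ℕ) (P : List (List ℕ)) : Bool :=
  decide (P.length ≤ n + 1) && (P.all fun r => decide (r.length ≤ m + 1))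

/-- subdivision tree: a leaf with the number of a test, a splitting of the `y` side, a splitting of
the `t` side -/
inductive Tq where
  | lf : ℕ → Tq
  | sy : ℕ → Tq → Tq → Tq
  | st : ℕ → Tq → Tq → Tq

/-- recursive subdivision in two variables -/
def ncheck2 (test : ℕ → ℕ → ℕ → ℕ → ℕ → Bool) : Tq → ℕ → ℕ → ℕ → ℕ → Bool
  | .lf k, y0, y1, t0, t1 => test k y0 y1 t0 t1
  | .sy m l r, y0, y1, t0, t1 => ncheck2 test l y0 m t0 t1 && ncheck2 test r m y1 t0 t1
  | .st m l r, y0, y1, t0, t1 => ncheck2 test l y0 y1 t0 m && ncheck2 test r y0 y1 m t1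

/-- `l = P - Q`, up to trailing zeros -/
def parts1 : List ℤ → List ℕ → List ℕ → Bool
  | [], P, Q => P.isEmpty && Q.isEmpty
  | a :: l, P, Q =>
      decide (a = (P.headD 0 : ℤ) - (Q.headD 0 : ℤ)) && parts1 l P.tail Q.tail

/-- `l = P - Q`, up to trailing zeros -/
def parts2 : List (List ℤ) → List (List ℕ) → List (List ℕ) → Bool
  | [], P, Q => P.isEmpty && Q.isEmpty
  | a :: l, P, Q => parts1 a (P.headD []) (Q.headD []) && parts2 l P.tail Q.tail

theorem nev1_headD (P : List ℕ) (x : ℝ) : nev1 P x = (P.headD 0 : ℕ) + x * nev1 P.tail x := by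
  cases P with
  | nil => simp [nev1]
  | cons a l => simp [nev1]

theorem nev2_headD (P : List (List ℕ)) (y t : ℝ) :
    nev2 P y t = nev1 (P.headD []) t + y * nev2 P.tail y t := by
  cases P with
  | nil => simp [nev1, nev2]
  | cons a l => simp [nev2]

theorem parts1_sound {l : List ℤ} {P Q : List ℕ} (h : parts1 l P Q = true) (x : ℝ) :
    ev1 l x = nev1 P x - nev1 Q x := by
  induction l generalizing P Q with
  | nil =>
    rw [parts1, Bool.and_eq_true, List.isEmpty_iff, List.isEmpty_iff] at h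
    rw [h.1, h.2]
    simp [ev1, nev1]
  | cons a l ih =>
    rw [parts1, Bool.and_eq_true, decide_eq_true_eq] at h
    have h1 : (a : ℝ) = ((P.headD 0 : ℕ) : ℝ) - ((Q.headD 0 : ℕ) : ℝ) := by
      have := congrArg (fun z : ℤ => (z : ℝ)) h.1
      simpa using this
    rw [ev1_cons, ih h.2, nev1_headD P, nev1_headD Q, h1]
    ring

theorem parts2_sound {l : List (List ℤ)} {P Q : List (List ℕ)} (h : parts2 l P Q = true)
    (y t : ℝ) : ev2 l y t = nev2 P y t - nev2 Q y t := by
  induction l generalizing P Q with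
  | nil =>
    rw [parts2, Bool.and_eq_true, List.isEmpty_iff, List.isEmpty_iff] at h
    rw [h.1, h.2]
    simp [ev2, nev2]
  | cons a l ih =>
    rw [parts2, Bool.and_eq_true] at h
    rw [ev2_cons, ih h.2, parts1_sound h.1, nev2_headD P, nev2_headD Q]
    ring

theorem nev1_cons (a : ℕ) (l : List ℕ) (x : ℝ) : nev1 (a :: l) x = a + x * nev1 l x := rfl
theorem nev2_cons (a : List ℕ) (l : List (List ℕ)) (y t : ℝ) :
    nev2 (a :: l) y t = nev1 a t + y * nev2 l y t := rfl

theorem nev1_lin (lo hi c : ℕ) (l : List ℕ) (a : ℝ) :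
    nev1 (nlin lo hi c l) a = c + (lo + hi * a) * nev1 l a := by
  induction l generalizing c with
  | nil => simp [nlin, nev1]
  | cons x l ih =>
    rw [nlin, force_eq, force_eq, nev1_cons, ih, nev1_cons]
    simp only [Nat.add_eq, Nat.mul_eq]
    push_cast
    ring

theorem nev1_powN (N : ℕ) (m : ℕ) (a : ℝ) : nev1 (npowN N m) a = (N * (1 + a)) ^ m := by
  induction m with
  | zero => simp [npowN, nev1]
  | succ m ih =>
    rw [npowN, nev1_lin, ih]
    push_cast
    ring

theorem nev1_axpy (c : ℕ) (l m : List ℕ) (a : ℝ) :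
    nev1 (naxpy c l m) a = c * nev1 l a + nev1 m a := by
  induction l generalizing m with
  | nil => cases m <;> simp [naxpy, nev1]
  | cons x l ih =>
    cases m with
    | nil =>
      rw [naxpy, force_eq, nev1_cons, ih, nev1_cons]
      simp only [Nat.mul_eq]
      push_cast
      simp only [nev1]
      ring
    | cons b m =>
      rw [naxpy, force_eq, nev1_cons, ih, nev1_cons, nev1_cons]
      simp only [Nat.add_eq, Nat.mul_eq]
      push_cast
      ring

theorem ncomb_map (lo hi : ℕ) (l : List ℕ) (T : List (List ℕ)) (a : ℝ) :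
    nev1 (ncomb l (T.map (nlin lo hi 0))) a = (lo + hi * a) * nev1 (ncomb l T) a := by
  induction l generalizing T with
  | nil => simp [ncomb, nev1]
  | cons c l ih =>
    cases T with
    | nil => simp [ncomb, nev1]
    | cons r T =>
      rw [List.map_cons, ncomb, ncomb, nev1_axpy, nev1_axpy, ih, nev1_lin]
      push_cast
      ring

theorem nev1_comb (lo hi N : ℕ) (m : ℕ) (l : List ℕ) (hl : l.length ≤ m + 1) {a y : ℝ}
    (hy : (N * (1 + a)) * y = lo + hi * a) :
    nev1 (ncomb l (ntab lo hi N m)) a = (N * (1 + a)) ^ m * nev1 l y := by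
  induction m generalizing l with
  | zero =>
    cases l with
    | nil => simp [ncomb, nev1]
    | cons c l =>
      have : l = [] := by
        cases l with
        | nil => rfl
        | cons _ _ => simp at hl
      subst this
      rw [ntab, ncomb, nev1_axpy, nev1_cons, nev1_cons]
      simp [ncomb, nev1]
  | succ m ih =>
    cases l with
    | nil => simp [ncomb, nev1]
    | cons c l =>
      have hl' : l.length ≤ m + 1 := by simpa using hl
      rw [ntab, ncomb, nev1_axpy, nev1_powN, ncomb_map, ih l hl', nev1_cons, ← hy]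
      ring

theorem nev2_axpyR (r c : List ℕ) (m : List (List ℕ)) (a b : ℝ) :
    nev2 (naxpyR r c m) a b = nev1 c a * nev1 r b + nev2 m a b := by
  induction c generalizing m with
  | nil => cases m <;> simp [naxpyR, nev1]
  | cons x c ih =>
    cases m with
    | nil =>
      rw [naxpyR, nev2_cons, ih, nev1_axpy, nev1_cons]
      simp only [nev1, nev2]
      ring
    | cons d m =>
      rw [naxpyR, nev2_cons, ih, nev1_axpy, nev1_cons, nev2_cons]
      ring

theorem ncombR_map (lo hi : ℕ) (l : List (List ℕ)) (T : List (List ℕ)) (a b : ℝ) :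
    nev2 (ncombR l (T.map (nlin lo hi 0))) a b = (lo + hi * a) * nev2 (ncombR l T) a b := by
  induction l generalizing T with
  | nil => simp [ncombR, nev2]
  | cons c l ih =>
    cases T with
    | nil => simp [ncombR, nev2]
    | cons r T =>
      rw [List.map_cons, ncombR, ncombR, nev2_axpyR, nev2_axpyR, ih, nev1_lin]
      push_cast
      ring

theorem nev2_combR (lo hi N : ℕ) (m : ℕ) (l : List (List ℕ)) (hl : l.length ≤ m + 1) {a y : ℝ}
    (b : ℝ) (hy : (N * (1 + a)) * y = lo + hi * a) :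
    nev2 (ncombR l (ntab lo hi N m)) a b = (N * (1 + a)) ^ m * nev2 l y b := by
  induction m generalizing l with
  | zero =>
    cases l with
    | nil => simp [ncombR, nev2]
    | cons c l =>
      have : l = [] := by
        cases l with
        | nil => rfl
        | cons _ _ => simp at hl
      subst this
      rw [ntab, ncombR, nev2_axpyR, nev1_cons, nev2_cons]
      simp [ncombR, nev1, nev2]
  | succ m ih =>
    cases l with
    | nil => simp [ncombR, nev2]
    | cons c l =>
      have hl' : l.length ≤ m + 1 := by simpa using hl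
      rw [ntab, ncombR, nev2_axpyR, nev1_powN, ncombR_map, ih l hl', nev2_cons, ← hy]
      ring

theorem nev2_map_rows (lo hi N : ℕ) (m : ℕ) (l : List (List ℕ)) (hl : ∀ r ∈ l, r.length ≤ m + 1)
    {b t : ℝ} (y : ℝ) (ht : (N * (1 + b)) * t = lo + hi * b) :
    nev2 (l.map fun r => ncomb r (ntab lo hi N m)) y b = (N * (1 + b)) ^ m * nev2 l y t := by
  induction l with
  | nil => simp [nev2]
  | cons r l ih =>
    rw [List.map_cons, nev2_cons, ih (fun s hs => hl s (List.mem_cons_of_mem _ hs)),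
      nev1_comb lo hi N m r (hl r List.mem_cons_self) ht, nev2_cons]
    ring

theorem nev1_nonneg (l : List ℕ) {a : ℝ} (ha : 0 ≤ a) : 0 ≤ nev1 l a := by
  induction l with
  | nil => simp [nev1]
  | cons x l ih =>
    rw [nev1_cons]
    positivity

theorem nev2_nonneg (l : List (List ℕ)) {a b : ℝ} (ha : 0 ≤ a) (hb : 0 ≤ b) : 0 ≤ nev2 l a b := by
  induction l with
  | nil => simp [nev2]
  | cons x l ih =>
    rw [nev2_cons]
    have := nev1_nonneg x hb
    positivity

theorem nle1_le {l m : List ℕ} (h : nle1 l m = true) {a : ℝ} (ha : 0 ≤ a) :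
    nev1 l a ≤ nev1 m a := by
  induction l generalizing m with
  | nil => simpa [nev1] using nev1_nonneg m ha
  | cons x l ih =>
    cases m with
    | nil => simp [nle1] at h
    | cons b m =>
      rw [nle1, Bool.and_eq_true] at h
      have h1 : x ≤ b := Nat.le_of_ble_eq_true h.1
      have h1' : (x : ℝ) ≤ b := by exact_mod_cast h1
      have h2 := ih h.2
      rw [nev1_cons, nev1_cons]
      have := mul_le_mul_of_nonneg_left h2 ha
      linarith

theorem nle2_le {l m : List (List ℕ)} (h : nle2 l m = true) {a b : ℝ} (ha : 0 ≤ a) (hb : 0 ≤ b) :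
    nev2 l a b ≤ nev2 m a b := by
  induction l generalizing m with
  | nil => simpa [nev2] using nev2_nonneg m ha hb
  | cons x l ih =>
    cases m with
    | nil => simp [nle2] at h
    | cons c m =>
      rw [nle2, Bool.and_eq_true] at h
      have h1 := nle1_le h.1 hb
      have h2 := ih h.2
      rw [nev2_cons, nev2_cons]
      have := mul_le_mul_of_nonneg_left h2 ha
      linarith

theorem nlt2_lt {l m : List (List ℕ)} (h : nlt2 l m = true) {a b : ℝ} (ha : 0 ≤ a) (hb : 0 ≤ b) :
    nev2 l a b < nev2 m a b := by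
  unfold nlt2 at h
  split at h
  · rename_i x l L y m K
    rw [Bool.and_eq_true, Bool.and_eq_true] at h
    have h1 : x + 1 ≤ y := Nat.le_of_ble_eq_true h.1
    have h1' : (x : ℝ) < y := by exact_mod_cast h1
    have h2 := mul_le_mul_of_nonneg_left (nle1_le h.2.1 hb) hb
    have h3 := mul_le_mul_of_nonneg_left (nle2_le h.2.2 ha hb) ha
    rw [nev2_cons, nev2_cons, nev1_cons, nev1_cons]
    linarith
  · simp at h

/-- the parameter of a point of the interval -/
theorem nparam {lo hi N : ℕ} (hN : 0 < N) {y : ℝ} (h0 : (lo : ℝ) / N ≤ y) (h1 : y < hi / N) :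
    ∃ a : ℝ, 0 ≤ a ∧ (N * (1 + a)) * y = lo + hi * a := by
  have h := param (lo := (lo : ℤ)) (hi := (hi : ℤ)) (N := (N : ℤ)) (by exact_mod_cast hN) (y := y)
    (by rw [Int.cast_natCast, Int.cast_natCast]; exact h0)
    (by rw [Int.cast_natCast, Int.cast_natCast]; exact h1)
  simpa only [Int.cast_natCast] using h

theorem npos2_sound {y0 y1 Ny t0 t1 Nt : ℕ} (hNy : 0 < Ny) (hNt : 0 < Nt) {n m : ℕ}
    {P Q : List (List ℕ)} (hP : nlen n m P = true) (hQ : nlen n m Q = true)
    (h : npos2 y0 y1 Ny t0 t1 Nt n m P Q = true) {y t : ℝ}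
    (h0 : (y0 : ℝ) / Ny ≤ y) (h1 : y < y1 / Ny) (h2 : (t0 : ℝ) / Nt ≤ t) (h3 : t < t1 / Nt) :
    nev2 Q y t < nev2 P y t := by
  obtain ⟨a, ha, hay⟩ := nparam hNy h0 h1
  obtain ⟨b, hb, hbt⟩ := nparam hNt h2 h3
  rw [nlen, Bool.and_eq_true, decide_eq_true_eq, List.all_eq_true] at hP hQ
  have h4 := nlt2_lt h ha hb
  have hlP : (P.map fun r => ncomb r (ntab t0 t1 Nt m)).length ≤ n + 1 := by
    rw [List.length_map]; exact hP.1
  have hlQ : (Q.map fun r => ncomb r (ntab t0 t1 Nt m)).length ≤ n + 1 := by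
    rw [List.length_map]; exact hQ.1
  rw [nhom2, nhom2, nev2_combR y0 y1 Ny n _ hlP b hay, nev2_combR y0 y1 Ny n _ hlQ b hay,
    nev2_map_rows t0 t1 Nt m P (fun r hr => by simpa using hP.2 r hr) y hbt,
    nev2_map_rows t0 t1 Nt m Q (fun r hr => by simpa using hQ.2 r hr) y hbt] at h4
  have hNy' : (0 : ℝ) < Ny := by exact_mod_cast hNy
  have hNt' : (0 : ℝ) < Nt := by exact_mod_cast hNt
  have h5 : (0 : ℝ) < (Ny * (1 + a)) ^ n := by positivity
  have h6 : (0 : ℝ) < (Nt * (1 + b)) ^ m := by positivity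
  exact lt_of_mul_lt_mul_left (lt_of_mul_lt_mul_left h4 h5.le) h6.le

theorem ncheck2_sound {test : ℕ → ℕ → ℕ → ℕ → ℕ → Bool} {P : ℝ → ℝ → Prop} {Ny Nt : ℕ}
    (ht : ∀ k y0 y1 t0 t1 : ℕ, test k y0 y1 t0 t1 = true →
      ∀ y t : ℝ, (y0 : ℝ) / Ny ≤ y → y < y1 / Ny → (t0 : ℝ) / Nt ≤ t → t < t1 / Nt → P y t)
    {T : Tq} {y0 y1 t0 t1 : ℕ} (h : ncheck2 test T y0 y1 t0 t1 = true) {y t : ℝ}
    (h0 : (y0 : ℝ) / Ny ≤ y) (h1 : y < y1 / Ny) (h2 : (t0 : ℝ) / Nt ≤ t) (h3 : t < t1 / Nt) :
    P y t := by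
  induction T generalizing y0 y1 t0 t1 with
  | lf k => exact ht k y0 y1 t0 t1 h y t h0 h1 h2 h3
  | sy m l r ihl ihr =>
    rw [ncheck2, Bool.and_eq_true] at h
    rcases lt_or_ge y ((m : ℝ) / Ny) with hy | hy
    · exact ihl h.1 h0 hy h2 h3
    · exact ihr h.2 hy h1 h2 h3
  | st m l r ihl ihr =>
    rw [ncheck2, Bool.and_eq_true] at h
    rcases lt_or_ge t ((m : ℝ) / Nt) with hy | hy
    · exact ihl h.1 h0 h1 h2 hy
    · exact ihr h.2 h0 h1 hy h3

end Pool.Agent.Lib.MP_ec58cd_gt
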