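import Pool.Agent.Lib.MP_ec58cd_gt.OuterData

/-!
# Kernel certificate of the outer barrier
-/

namespace Pool.Agent.Lib.MP_ec58cd_gt

theorem cellU00 : ncheck2 testU
    (.lf 1)
    0 5100 0 3170 = true := by decide +kernel

theorem cellU01 : ncheck2 testU
    (.st 4755 (.lf 1) (.sy 2550 (.st 5548 (.lf 1) (.sy 1275 (.st 5944 (.lf 1) (.sy 637 (.lf 2)
    (.lf 1))) (.lf 1))) (.lf 1)))
    0 5100 3170 6341 = true := by decide +kernel

theorem cellU10 : ncheck2 testU
    (.lf 2)
    5100 10200 0 3170 = true := by decide +kernel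

theorem cellU11 : ncheck2 testU
    (.st 4755 (.lf 2) (.lf 1))
    5100 10200 3170 6341 = true := by decide +kernel

theorem cellU20 : ncheck2 testU
    (.st 1585 (.lf 1) (.sy 12750 (.lf 2) (.lf 1)))
    10200 15300 0 3170 = true := by decide +kernel

theorem cellU21 : ncheck2 testU
    (.lf 1)
    10200 15300 3170 6341 = true := by decide +kernel

theorem cellU30 : ncheck2 testU
    (.st 1585 (.sy 17851 (.lf 1) (.lf 1)) (.sy 17851 (.st 2377 (.lf 1) (.lf 1)) (.lf 1)))
    15300 20402 0 3170 = true := by decide +kernel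

theorem cellU31 : ncheck2 testU
    (.lf 1)
    15300 20402 3170 6341 = true := by decide +kernel

end Pool.Agent.Lib.MP_ec58cd_gt
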