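import Pool.Agent.Lib.MP_ec58cd_gt.OuterCell

/-!
# OUTERCERT: the outer barrier satisfies its inequality (kernel computation)
-/

noncomputable section

open Set

namespace Pool.Agent.Lib.MP_ec58cd_gt

theorem outer_cond {y t : ℝ} (hy0 : 0 ≤ y) (hy1 : y ≤ 1.01) (ht0 : 0 ≤ t) (ht1 : t ≤ 79 / 250) :
    0 < ev2 (Qp pU) y t ∨ (0 < ev2 (Ap pU) y t ∧ 0 < ev2 (Tp pU) y t) := by
  rcases lt_or_ge y (5100 / 20001) with hy | hy
  · rcases lt_or_ge t (3170 / 20001) with ht | ht
    · exact testU_sound cellU00 (by push_cast; linarith) (by push_cast; linarith)
        (by push_cast; linarith) (by push_cast; linarith)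
    exact testU_sound cellU01 (by push_cast; linarith) (by push_cast; linarith)
      (by push_cast; linarith) (by push_cast; linarith)
  rcases lt_or_ge y (10200 / 20001) with hy | hy
  · rcases lt_or_ge t (3170 / 20001) with ht | ht
    · exact testU_sound cellU10 (by push_cast; linarith) (by push_cast; linarith)
        (by push_cast; linarith) (by push_cast; linarith)
    exact testU_sound cellU11 (by push_cast; linarith) (by push_cast; linarith)
      (by push_cast; linarith) (by push_cast; linarith)
  rcases lt_or_ge y (15300 / 20001) with hy | hy
  · rcases lt_or_ge t (3170 / 20001) with ht | ht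
    · exact testU_sound cellU20 (by push_cast; linarith) (by push_cast; linarith)
        (by push_cast; linarith) (by push_cast; linarith)
    exact testU_sound cellU21 (by push_cast; linarith) (by push_cast; linarith)
      (by push_cast; linarith) (by push_cast; linarith)
  rcases lt_or_ge t (3170 / 20001) with ht | ht
  · exact testU_sound cellU30 (by push_cast; linarith) (by push_cast; linarith)
      (by push_cast; linarith) (by push_cast; linarith)
  exact testU_sound cellU31 (by push_cast; linarith) (by push_cast; linarith)
    (by push_cast; linarith) (by push_cast; linarith)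

end Pool.Agent.Lib.MP_ec58cd_gt
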