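import Pool.Agent.Lib.MP_ec58cd_gt.Rot
import Pool.Agent.Lib.MP_ec58cd_gt.OuterCert
import Pool.Agent.Lib.MP_ec58cd_gt.InnerCert
import Pool.Agent.Lib.MP_ec58cd_gt.Init

/-!
# PHASEA: the flow starting at `f0` between the barriers

PROOFS.  Let `h : IsMCF 2 F T f0`.  `f0 p = (x Sy, y Sy, 11/4 ζ)`, `y := ζ²`, `16/121 (11/4 ζ)² = ζ²`,
`(x Sy)² + (y Sy)² = (1 - ζ²) Sy²` (`sphere_sq`).
`z_bound`: `ball_barrier` with `R = 76/10` (`init_ball`), so `(F t p 2)² < 7.6` and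
`16/121 · 7.6 < 1.01`.
`outer_all`: `outer_barrier` with `U = Uf pU`, `Uz = Ufz pU`, .. (`contDiff_Uf`, `hasDerivAt_Uf_..`),
`a = 0`, `b = 79/250 < T`, `Z = 7.6`, `init_outer`; `hQ` from `outer_cond` (`y = 16/121 z²`) with `cond_Q`,
`cond_A`, `cond_T`.
`inner_one`: `inner_barrier` with `V = Uf pV` on `[0, b]`, `b ≤ 53/200`, from `inner_cond`.
-/

noncomputable section

open Set Filter Topology MeasureTheory Metric
open scoped Manifold ContDiff RealInnerProductSpace ENNReal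

namespace Pool.Agent.Lib.MP_ec58cd_gt

theorem PA_f0 (p : S2) : f0 p 0 ^ 2 + f0 p 1 ^ 2 = (1 - p.1 2 ^ 2) * Sy (p.1 2 ^ 2) ^ 2 ∧
    f0 p 2 = 11 / 4 * p.1 2 := by
  have h := sphere_sq p
  have h0 : f0 p 0 = p.1 0 * Sy (p.1 2 ^ 2) := rfl
  have h1 : f0 p 1 = p.1 1 * Sy (p.1 2 ^ 2) := rfl
  have h2 : f0 p 2 = 11 / 4 * p.1 2 := rfl
  refine ⟨?_, h2⟩
  rw [h0, h1]
  have h3 : 1 - p.1 2 ^ 2 = p.1 0 ^ 2 + p.1 1 ^ 2 := by linarith
  rw [h3]
  ring

theorem PA_norm (x : E3) : ‖x‖ ^ 2 = x 0 ^ 2 + x 1 ^ 2 + x 2 ^ 2 := by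
  rw [EuclideanSpace.norm_sq_eq, Fin.sum_univ_three]
  simp

theorem z_bound {F : ℝ → S2 → E3} {T : ℝ} (h : IsMCF 2 F T f0) :
    ∀ t ∈ Ico 0 T, ∀ p, F t p 2 ^ 2 ≤ 76 / 10 := by
  intro t ht p
  have h0 : ∀ p, ‖f0 p‖ ^ 2 < 76 / 10 := by
    intro p
    obtain ⟨h1, h2⟩ := PA_f0 p
    have h3 := init_ball (sq_nonneg (p.1 2)) (sphere_sq_le p)
    rw [PA_norm, h1, h2]
    nlinarith
  have h1 := ball_barrier h h0 t ht p
  rw [PA_norm] at h1
  nlinarith [sq_nonneg (F t p 0), sq_nonneg (F t p 1)]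

theorem outer_all {F : ℝ → S2 → E3} {T : ℝ} (h : IsMCF 2 F T f0) (hT : 79 / 250 < T) (p : S2) :
    F (79 / 250) p 2 ≠ 0 := by
  have hb := outer_barrier h (contDiff_Uf pU) (hasDerivAt_Uf_z pU) (hasDerivAt_Uf_zz pU)
    (hasDerivAt_Uf_t pU) (a := 0) (b := 79 / 250) (Z := 76 / 10) le_rfl hT
    (fun t ht p => z_bound h t ⟨ht.1, lt_of_le_of_lt ht.2 hT⟩ p)
    (by
      intro p
      rw [h.init]
      obtain ⟨h1, h2⟩ := PA_f0 p
      rw [h1, h2]
      have h3 := init_outer (sq_nonneg (p.1 2)) (sphere_sq_le p)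
      have h4 : Uf pU 0 (11 / 4 * p.1 2) = ev2 pU (p.1 2 ^ 2) 0 / 10000 := by
        unfold Uf
        rw [show 16 / 121 * (11 / 4 * p.1 2) ^ 2 = p.1 2 ^ 2 by ring]
      rw [h4]
      exact h3)
    (by
      intro t ht z hz _
      have hy1 : 16 / 121 * z ^ 2 ≤ 1.01 := by
        norm_num
        linarith
      rcases outer_cond (show 0 ≤ 16 / 121 * z ^ 2 by positivity) hy1 ht.1 ht.2 with h1 | ⟨h1, h2⟩
      · left
        have h3 := cond_Q pU t z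
        have h4 : 0 < 4 / (121 * 10000 ^ 3) * ev2 (Qp pU) (16 / 121 * z ^ 2) t := by positivity
        linarith
      · right
        have h3 := cond_A pU t z
        have h4 := cond_T pU t z
        have h5 : 0 < 1 / 1210000 * ev2 (Ap pU) (16 / 121 * z ^ 2) t := by positivity
        have h6 : 0 < 1 / 10000 * ev2 (Tp pU) (16 / 121 * z ^ 2) t := by positivity
        constructor <;> linarith)
    (79 / 250) ⟨by norm_num, le_rfl⟩ p
  intro hz
  rw [hz] at hb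
  have h1 := outer_end
  nlinarith [sq_nonneg (F (79 / 250) p 0), sq_nonneg (F (79 / 250) p 1)]

theorem inner_one {F : ℝ → S2 → E3} {T : ℝ} (h : IsMCF 2 F T f0) :
    ∀ t ∈ Ico 0 T, t ≤ 53 / 200 → ∀ p, Uf pV t (F t p 2) < F t p 0 ^ 2 + F t p 1 ^ 2 := by
  intro t ht ht2 p
  exact inner_barrier h (contDiff_Uf pV) (hasDerivAt_Uf_z pV) (hasDerivAt_Uf_zz pV)
    (hasDerivAt_Uf_t pV) (a := 0) (b := t) (Z := 76 / 10) le_rfl ht.2
    (fun s hs p => z_bound h s ⟨hs.1, lt_of_le_of_lt hs.2 ht.2⟩ p)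
    (by
      intro p
      rw [h.init]
      obtain ⟨h1, h2⟩ := PA_f0 p
      rw [h1, h2]
      have h3 := init_inner (sq_nonneg (p.1 2)) (sphere_sq_le p)
      have h4 : Uf pV 0 (11 / 4 * p.1 2) = ev2 pV (p.1 2 ^ 2) 0 / 10000 := by
        unfold Uf
        rw [show 16 / 121 * (11 / 4 * p.1 2) ^ 2 = p.1 2 ^ 2 by ring]
      rw [h4]
      exact h3)
    (by
      intro s hs z hz hV
      have hy1 : 16 / 121 * z ^ 2 ≤ 1.01 := by
        norm_num
        linarith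
      have hV' : 0 ≤ ev2 pV (16 / 121 * z ^ 2) s := by
        unfold Uf at hV
        have h5 : (0 : ℝ) < 10000 := by norm_num
        rw [le_div_iff₀ h5] at hV
        linarith
      have h1 := inner_cond (show 0 ≤ 16 / 121 * z ^ 2 by positivity) hy1 hs.1
        (hs.2.trans ht2) hV'
      have h3 := cond_Q pV s z
      have h4 : 4 / (121 * 10000 ^ 3) * ev2 (Qp pV) (16 / 121 * z ^ 2) s < 0 :=
        mul_neg_of_pos_of_neg (by positivity) h1
      linarith)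
    t ⟨ht.1, le_rfl⟩ p

end Pool.Agent.Lib.MP_ec58cd_gt
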