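import Pool.Agent.Lib.MP_ec58cd_gt.PhaseA
import Pool.Agent.Lib.MP_ec58cd_gt.InitB

/-!
# PHASEB: the ellipsoid phase and the ball phase of the inner barrier

PROOFS (`inner_barrier` with explicit polynomials, `Z = 76/10`, `z_bound`).
`V2 t z = 19/100 - 301/100 τ - 5 τ² - (1/2 + 5 τ) (z - c)²`, `τ = t - 53/200 ∈ [0, 3/100]`, `c = ± 5/4`.
 With `A = 19/100 - 301/100 τ - 5 τ²`, `B = 1/2 + 5 τ`, `y = (z-c)²`, the inequality divided by `4` is
 `A (A' + 2 (1 + B)) + y (- B (1-B) A' - A B' - 2 B (1-B)) + y² B (1-B) B' < 0` for `0 ≤ y ≤ A/B`,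
 convex in `y`; at `y = 0` it is `A (A' + 2 + 2 B) = - A/100`, at `y = A/B` it is
 `A (B A' + 4 B - A B')`, negative as `A B' > B (A' + 4)` on `[0, 3/100]`.
 `V2` at `t = 53/200` is below `Uf pV (53/200)` where it is `≥ 0` (`junction`; for `c = -5/4` by evenness),
 and where it is `< 0` there is nothing to prove.
`V3 t z = 95/1000 - 401/100 (t - 59/200) - (z - c)²` on `[59/200, 79/250]`: the inequality reads
 `4 R V3_t < - 16 R`, `R = V3 + (z-c)² > 0`; at `t = 59/200` `V3 ≤ V2` (`A = 0.0952`, `B = 0.65 ≤ 1`).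
`inner_all`: on the axis (`F t p 0 = F t p 1 = 0`) the three barriers exclude `F t p 2 = ± 5/4`
 (`center_pos`, `A > 0`, `R > 0`).
-/

noncomputable section

open Set Filter Topology MeasureTheory Metric
open scoped Manifold ContDiff RealInnerProductSpace ENNReal

namespace Pool.Agent.Lib.MP_ec58cd_gt

theorem phaseB_even (P : List (List ℤ)) (t z : ℝ) : Uf P t (-z) = Uf P t z := by
  unfold Uf
  rw [neg_sq]

theorem phaseB_sq (c z : ℝ) : HasDerivAt (fun z : ℝ => (z - c) ^ 2) (2 * (z - c)) z := by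
  have h1 : HasDerivAt (fun z : ℝ => z - c) 1 z := (hasDerivAt_id z).sub_const c
  exact (h1.fun_pow 2).congr_deriv (by norm_num)

theorem phaseB_dz (a b c z : ℝ) :
    HasDerivAt (fun z : ℝ => a - b * (z - c) ^ 2) (-(2 * b * (z - c))) z :=
  (((phaseB_sq c z).const_mul b).const_sub a).congr_deriv (by ring)

theorem phaseB_dzz (b c z : ℝ) : HasDerivAt (fun z : ℝ => -(2 * b * (z - c))) (-(2 * b)) z := by
  have h1 : HasDerivAt (fun z : ℝ => z - c) 1 z := (hasDerivAt_id z).sub_const c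
  exact (h1.const_mul (2 * b)).fun_neg.congr_deriv (by ring)

theorem phaseB_dt (a b k x t : ℝ) :
    HasDerivAt (fun s : ℝ => a - b * (s - k) - 5 * (s - k) ^ 2 - (1 / 2 + 5 * (s - k)) * x)
      (-b - 10 * (t - k) - 5 * x) t := by
  have h1 : HasDerivAt (fun s : ℝ => s - k) 1 t := (hasDerivAt_id t).sub_const k
  have h2 := (((h1.const_mul b).const_sub a).fun_sub ((phaseB_sq k t).const_mul 5)).fun_sub
    (((h1.const_mul (5 : ℝ)).const_add (1 / 2)).mul_const x)
  exact h2.congr_deriv (by ring)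

theorem phaseB_dt3 (a b k x t : ℝ) : HasDerivAt (fun s : ℝ => a - b * (s - k) - x) (-b) t := by
  have h1 : HasDerivAt (fun s : ℝ => s - k) 1 t := (hasDerivAt_id t).sub_const k
  exact (((h1.const_mul b).const_sub a).sub_const x).congr_deriv (by ring)

theorem inner_two {F : ℝ → S2 → E3} {T : ℝ} (h : IsMCF 2 F T f0) {c : ℝ}
    (hc : c = 5 / 4 ∨ c = -(5 / 4)) :
    ∀ t ∈ Ico 0 T, 53 / 200 ≤ t → t ≤ 59 / 200 → ∀ p,
      19 / 100 - 301 / 100 * (t - 53 / 200) - 5 * (t - 53 / 200) ^ 2 -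
        (1 / 2 + 5 * (t - 53 / 200)) * (F t p 2 - c) ^ 2 < F t p 0 ^ 2 + F t p 1 ^ 2 := by
  intro t ht ht1 ht2
  have hmem : (53 / 200 : ℝ) ∈ Ico 0 T := ⟨by norm_num, lt_of_le_of_lt ht1 ht.2⟩
  have hbar := inner_barrier h
    (V := fun t z => 19 / 100 - 301 / 100 * (t - 53 / 200) - 5 * (t - 53 / 200) ^ 2 -
        (1 / 2 + 5 * (t - 53 / 200)) * (z - c) ^ 2)
    (Vz := fun t z => -(2 * (1 / 2 + 5 * (t - 53 / 200)) * (z - c)))
    (Vzz := fun t _ => -(2 * (1 / 2 + 5 * (t - 53 / 200))))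
    (Vt := fun t z => -(301 / 100) - 10 * (t - 53 / 200) - 5 * (z - c) ^ 2)
    (by fun_prop)
    (fun t z => phaseB_dz _ _ c z)
    (fun t z => phaseB_dzz _ c z)
    (fun t z => (phaseB_dt (19 / 100) (301 / 100) (53 / 200) ((z - c) ^ 2) t).congr_deriv (by ring))
    (a := 53 / 200) (b := t) (Z := 76 / 10) (by norm_num) ht.2
    (fun s hs p => z_bound h s ⟨by linarith [hs.1], lt_of_le_of_lt hs.2 ht.2⟩ p)
    (by
      intro p
      have h1 := inner_one h (53 / 200) hmem le_rfl p
      simp only [sub_self, mul_zero, add_zero, sub_zero, ne_eq, OfNat.ofNat_ne_zero, not_false_eq_true,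
        zero_pow]
      by_cases h2 : 0 ≤ 19 / 100 - 1 / 2 * (F (53 / 200) p 2 - c) ^ 2
      · refine lt_of_le_of_lt ?_ h1
        rcases hc with rfl | rfl
        · exact junction h2
        · have h3 : (F (53 / 200) p 2 - -(5 / 4)) ^ 2 = (-(F (53 / 200) p 2) - 5 / 4) ^ 2 := by ring
          rw [h3] at h2 ⊢
          have h4 := junction h2
          rwa [phaseB_even] at h4
      · push Not at h2
        have h3 := sq_nonneg (F (53 / 200) p 0)
        have h4 := sq_nonneg (F (53 / 200) p 1)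
        linarith)
    (by
      intro s hs z _ hV
      set τ := s - 53 / 200 with hτ
      have hτ0 : 0 ≤ τ := by linarith [hs.1]
      have hτ1 : τ ≤ 3 / 100 := by linarith [hs.2]
      set A := 19 / 100 - 301 / 100 * τ - 5 * τ ^ 2 with hA
      set B := 1 / 2 + 5 * τ with hB
      set y := (z - c) ^ 2 with hy
      have hy0 : 0 ≤ y := sq_nonneg _
      have hB0 : 0 < B := by linarith
      have hB1 : B ≤ 13 / 20 := by linarith
      have hA0 : 9 / 100 ≤ A := by nlinarith
      set u := B * y with hu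
      set v := A - u with hv
      have hu0 : 0 ≤ u := mul_nonneg hB0.le hy0
      have hv0 : 0 ≤ v := hV
      have hAp : 0 < 5 * A - B * (99 / 100 - 10 * τ) := by
        rw [hA, hB]
        nlinarith
      have hsq : (-(2 * B * (z - c))) ^ 2 = 4 * B * u := by
        rw [hu, hy]
        ring
      rw [hsq]
      have key : B * ((4 * (A - B * y) + 4 * B * u) * (-(301 / 100) - 10 * τ - 5 * y) -
          (4 * (A - B * y) * -(2 * B) - 4 * (4 * B * u) - 8 * (A - B * y))) =
          4 * (-(B / 100) * v - 5 * (1 - B) * (u * v) - B * u * (5 * A - B * (99 / 100 - 10 * τ))) := by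
        rw [hv, hu, hB, hA]
        ring
      have hneg : -(B / 100) * v - 5 * (1 - B) * (u * v) - B * u * (5 * A - B * (99 / 100 - 10 * τ)) < 0 := by
        have e1 : 0 ≤ 5 * (1 - B) * (u * v) := by
          have : 0 ≤ 1 - B := by linarith
          positivity
        rcases eq_or_lt_of_le hu0 with h0 | h0
        · have hvA : v = A := by rw [hv, ← h0, sub_zero]
          rw [← h0, hvA]
          have : 0 < B / 100 * A := by positivity
          linarith
        · have e2 : 0 < B * u * (5 * A - B * (99 / 100 - 10 * τ)) := by positivity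
          have e3 : 0 ≤ B / 100 * v := by positivity
          linarith
      by_contra hcon
      push Not at hcon
      have h5 : 0 ≤ B * ((4 * (A - B * y) + 4 * B * u) * (-(301 / 100) - 10 * τ - 5 * y) -
          (4 * (A - B * y) * -(2 * B) - 4 * (4 * B * u) - 8 * (A - B * y))) :=
        mul_nonneg hB0.le (by linarith)
      rw [key] at h5
      linarith)
  intro p
  exact hbar t ⟨ht1, le_rfl⟩ p

theorem inner_three {F : ℝ → S2 → E3} {T : ℝ} (h : IsMCF 2 F T f0) {c : ℝ}
    (hc : c = 5 / 4 ∨ c = -(5 / 4)) :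
    ∀ t ∈ Ico 0 T, 59 / 200 ≤ t → t ≤ 79 / 250 → ∀ p,
      95 / 1000 - 401 / 100 * (t - 59 / 200) - (F t p 2 - c) ^ 2 < F t p 0 ^ 2 + F t p 1 ^ 2 := by
  intro t ht ht1 ht2
  have hmem : (59 / 200 : ℝ) ∈ Ico 0 T := ⟨by norm_num, lt_of_le_of_lt ht1 ht.2⟩
  have hbar := inner_barrier h
    (V := fun t z => 95 / 1000 - 401 / 100 * (t - 59 / 200) - (z - c) ^ 2)
    (Vz := fun _ z => -(2 * (z - c)))
    (Vzz := fun _ _ => -2)
    (Vt := fun _ _ => -(401 / 100))
    (by fun_prop)
    (fun t z => ((phaseB_sq c z).const_sub (95 / 1000 - 401 / 100 * (t - 59 / 200))).congr_deriv (by ring))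
    (fun t z => by
      have h1 : HasDerivAt (fun z : ℝ => z - c) 1 z := (hasDerivAt_id z).sub_const c
      exact (h1.const_mul (2 : ℝ)).fun_neg.congr_deriv (by ring))
    (fun t z => phaseB_dt3 _ _ _ _ t)
    (a := 59 / 200) (b := t) (Z := 76 / 10) (by norm_num) ht.2
    (fun s hs p => z_bound h s ⟨by linarith [hs.1], lt_of_le_of_lt hs.2 ht.2⟩ p)
    (by
      intro p
      have h1 := inner_two h hc (59 / 200) hmem (by norm_num) le_rfl p
      refine lt_of_le_of_lt ?_ h1
      have h2 := sq_nonneg (F (59 / 200) p 2 - c)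
      norm_num
      linarith)
    (by
      intro s hs z _ _
      have h1 := hs.1
      have h2 := hs.2
      nlinarith)
  intro p
  exact hbar t ⟨ht1, le_rfl⟩ p

theorem inner_all {F : ℝ → S2 → E3} {T : ℝ} (h : IsMCF 2 F T f0) {c : ℝ}
    (hc : c = 5 / 4 ∨ c = -(5 / 4)) :
    ∀ t ∈ Ico 0 T, t ≤ 79 / 250 → ∀ p, F t p 0 = 0 → F t p 1 = 0 → F t p 2 ≠ c := by
  intro t ht ht2 p h0 h1 h2
  rcases le_total t (53 / 200) with h3 | h3
  · have h4 := inner_one h t ht h3 p
    rw [h0, h1, h2] at h4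
    have h5 := center_pos ht.1 h3
    have h6 : Uf pV t c = Uf pV t (5 / 4) := by
      rcases hc with rfl | rfl
      · rfl
      · exact phaseB_even _ _ _
    rw [h6] at h4
    norm_num at h4
    linarith
  · rcases le_total t (59 / 200) with h4 | h4
    · have h5 := inner_two h hc t ht h3 h4 p
      rw [h0, h1, h2] at h5
      norm_num at h5
      nlinarith
    · have h5 := inner_three h hc t ht h4 ht2 p
      rw [h0, h1, h2] at h5
      norm_num at h5
      linarith

end Pool.Agent.Lib.MP_ec58cd_gt
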