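import Pool.Agent.Lib.MP_ec58cd_gt.Defs

/-!
# POLY: integer polynomials as lists (one and two variables)

`ev1 [a0, a1, ..] x = a0 + a1 x + ..`; `ev2 [r0, r1, ..] y t = ∑ (ev1 r_i t) y^i`.
All proofs: induction on the lists, `simp`, `ring`.
-/

noncomputable section

open Set Filter Topology

namespace Pool.Agent.Lib.MP_ec58cd_gt

/-- Evaluation of a polynomial given by the list of its coefficients. -/
def ev1 : List ℤ → ℝ → ℝ
  | [], _ => 0
  | a :: l, x => a + x * ev1 l x

/-- Evaluation of a polynomial in `(y, t)`: the `i`-th list is the coefficient of `y ^ i`. -/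
def ev2 : List (List ℤ) → ℝ → ℝ → ℝ
  | [], _, _ => 0
  | a :: l, y, t => ev1 a t + y * ev2 l y t

/-- sum -/
def add1 : List ℤ → List ℤ → List ℤ
  | [], m => m
  | l, [] => l
  | a :: l, b :: m => (a + b) :: add1 l m

/-- scalar multiple -/
def sc1 (c : ℤ) (l : List ℤ) : List ℤ := l.map (c * ·)

/-- product -/
def mul1 : List ℤ → List ℤ → List ℤ
  | [], _ => []
  | a :: l, m => add1 (sc1 a m) (0 :: mul1 l m)

/-- derivative -/
def d1 : List ℤ → List ℤ
  | [] => []
  | _ :: l => add1 l (0 :: d1 l)

/-- sum -/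
def add2 : List (List ℤ) → List (List ℤ) → List (List ℤ)
  | [], m => m
  | l, [] => l
  | a :: l, b :: m => add1 a b :: add2 l m

/-- scalar multiple -/
def sc2 (c : ℤ) (l : List (List ℤ)) : List (List ℤ) := l.map (sc1 c)

/-- product -/
def mul2 : List (List ℤ) → List (List ℤ) → List (List ℤ)
  | [], _ => []
  | a :: l, m => add2 (m.map (mul1 a)) ([] :: mul2 l m)

/-- derivative in `y` -/
def dY : List (List ℤ) → List (List ℤ)
  | [] => []
  | _ :: l => add2 l ([] :: dY l)

/-- derivative in `t` -/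
def dT (l : List (List ℤ)) : List (List ℤ) := l.map d1

theorem ev1_add (l m : List ℤ) (x : ℝ) : ev1 (add1 l m) x = ev1 l x + ev1 m x := by
  induction l generalizing m with
  | nil => simp [add1, ev1]
  | cons a l ih =>
    cases m with
    | nil => simp [add1, ev1]
    | cons b m =>
      simp only [add1, ev1, ih]
      push_cast
      ring

theorem ev1_sc (c : ℤ) (l : List ℤ) (x : ℝ) : ev1 (sc1 c l) x = c * ev1 l x := by
  induction l with
  | nil => simp [sc1, ev1]
  | cons a l ih =>
    have h : sc1 c (a :: l) = (c * a) :: sc1 c l := rfl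
    rw [h]
    simp only [ev1, ih]
    push_cast
    ring

theorem ev1_mul (l m : List ℤ) (x : ℝ) : ev1 (mul1 l m) x = ev1 l x * ev1 m x := by
  induction l with
  | nil => simp [mul1, ev1]
  | cons a l ih =>
    simp only [mul1, ev1_add, ev1_sc, ev1, ih]
    push_cast
    ring

theorem hasDerivAt_ev1 (l : List ℤ) (x : ℝ) : HasDerivAt (ev1 l) (ev1 (d1 l) x) x := by
  induction l with
  | nil =>
    have h : ev1 [] = fun _ : ℝ => (0 : ℝ) := rfl
    rw [h]
    simpa [d1, ev1] using hasDerivAt_const x (0 : ℝ)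
  | cons a l ih =>
    have h : ev1 (a :: l) = fun y : ℝ => (a : ℝ) + y * ev1 l y := rfl
    rw [h]
    have h2 : HasDerivAt (fun y : ℝ => (a : ℝ) + y * ev1 l y)
        (1 * ev1 l x + x * ev1 (d1 l) x) x := ((hasDerivAt_id x).mul ih).const_add (a : ℝ)
    refine h2.congr_deriv ?_
    simp only [d1, ev1_add, ev1]
    push_cast
    ring

theorem ev2_add (l m : List (List ℤ)) (y t : ℝ) : ev2 (add2 l m) y t = ev2 l y t + ev2 m y t := by
  induction l generalizing m with
  | nil => simp [add2, ev2]
  | cons a l ih =>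
    cases m with
    | nil => simp [add2, ev2]
    | cons b m =>
      simp only [add2, ev2, ih, ev1_add]
      ring

theorem ev2_sc (c : ℤ) (l : List (List ℤ)) (y t : ℝ) : ev2 (sc2 c l) y t = c * ev2 l y t := by
  induction l with
  | nil => simp [sc2, ev2]
  | cons a l ih =>
    have h : sc2 c (a :: l) = sc1 c a :: sc2 c l := rfl
    rw [h]
    simp only [ev2, ih, ev1_sc]
    ring

theorem ev2_map_mul1 (a : List ℤ) (m : List (List ℤ)) (y t : ℝ) :
    ev2 (m.map (mul1 a)) y t = ev1 a t * ev2 m y t := by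
  induction m with
  | nil => simp [ev2]
  | cons b m ih =>
    simp only [List.map_cons, ev2, ih, ev1_mul]
    ring

theorem ev2_mul (l m : List (List ℤ)) (y t : ℝ) : ev2 (mul2 l m) y t = ev2 l y t * ev2 m y t := by
  induction l with
  | nil => simp [mul2, ev2]
  | cons a l ih =>
    simp only [mul2, ev2_add, ev2, ih, ev2_map_mul1, ev1]
    ring

theorem hasDerivAt_ev2_y (l : List (List ℤ)) (y t : ℝ) :
    HasDerivAt (fun y => ev2 l y t) (ev2 (dY l) y t) y := by
  induction l with
  | nil => simpa [dY, ev2] using hasDerivAt_const y (0 : ℝ)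
  | cons a l ih =>
    have h2 : HasDerivAt (fun y : ℝ => ev1 a t + y * ev2 l y t)
        (1 * ev2 l y t + y * ev2 (dY l) y t) y := ((hasDerivAt_id y).mul ih).const_add (ev1 a t)
    refine h2.congr_deriv ?_
    simp only [dY, ev2_add, ev2, ev1]
    ring

theorem hasDerivAt_ev2_t (l : List (List ℤ)) (y t : ℝ) :
    HasDerivAt (fun t => ev2 l y t) (ev2 (dT l) y t) t := by
  induction l with
  | nil => simpa [dT, ev2] using hasDerivAt_const t (0 : ℝ)
  | cons a l ih =>
    have h2 := (hasDerivAt_ev1 a t).add (ih.const_mul y)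
    exact h2

theorem contDiff_ev1 (l : List ℤ) : ContDiff ℝ 2 (ev1 l) := by
  induction l with
  | nil => exact contDiff_const
  | cons a l ih =>
    have h : ev1 (a :: l) = fun y : ℝ => (a : ℝ) + y * ev1 l y := rfl
    rw [h]
    exact contDiff_const.add (contDiff_id.mul ih)

theorem contDiff_ev2 (l : List (List ℤ)) : ContDiff ℝ 2 (fun q : ℝ × ℝ => ev2 l q.1 q.2) := by
  induction l with
  | nil => exact contDiff_const
  | cons a l ih =>
    exact ((contDiff_ev1 a).comp contDiff_snd).add (contDiff_fst.mul ih)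

end Pool.Agent.Lib.MP_ec58cd_gt
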