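import Pool.Agent.Lib.MP_ec58cd_gt.Poly

/-!
# POLYU: barrier functions from lists

`Uf P t z = ev2 P (16 z²/121) t / 10⁴` with its derivatives, and the expression of the barrier
inequalities through the integer polynomials `Qp P`, `Ap P`, `Tp P` in `(y, t)`, `y = 16 z²/121`.

PROOFS: chain rule; `cond_Q` and `cond_A` are identities: expand with `ev2_add, ev2_mul, ev2_sc`,
generalise `ev2 P y t, ev2 (dY P) y t, ..` to variables, `y = 16/121 * z^2`, `ring`.
-/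

noncomputable section

open Set Filter Topology

namespace Pool.Agent.Lib.MP_ec58cd_gt

/-- the barrier function -/
def Uf (P : List (List ℤ)) (t z : ℝ) : ℝ := ev2 P (16 / 121 * z ^ 2) t / 10000
/-- its `z`-derivative -/
def Ufz (P : List (List ℤ)) (t z : ℝ) : ℝ :=
  32 / 121 * z * ev2 (dY P) (16 / 121 * z ^ 2) t / 10000
/-- its second `z`-derivative -/
def Ufzz (P : List (List ℤ)) (t z : ℝ) : ℝ :=
  (32 / 121 * ev2 (dY P) (16 / 121 * z ^ 2) t +
    (32 / 121 * z) ^ 2 * ev2 (dY (dY P)) (16 / 121 * z ^ 2) t) / 10000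
/-- its `t`-derivative -/
def Uft (P : List (List ℤ)) (t z : ℝ) : ℝ := ev2 (dT P) (16 / 121 * z ^ 2) t / 10000

/-- `121 D p p_t + 16 y p_y² p_t - 32 D p p_y - 64 D y p p_yy + 64 D y p_y² + 242 D² p`, `D = 10⁴` -/
def Qp (P : List (List ℤ)) : List (List ℤ) :=
  add2 (mul2 (add2 (sc2 1210000 P) ([] :: sc2 16 (mul2 (dY P) (dY P)))) (dT P))
    (add2 (sc2 24200000000 P)
      (add2 (sc2 (-320000) (mul2 P (dY P)))
        ([] :: add2 (sc2 (-640000) (mul2 P (dY (dY P)))) (sc2 640000 (mul2 (dY P) (dY P))))))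

/-- `121 p_t + 242 D - 32 p_y - 64 y p_yy` -/
def Ap (P : List (List ℤ)) : List (List ℤ) :=
  add2 (sc2 121 (dT P)) (add2 [[2420000]] (add2 (sc2 (-32) (dY P)) ([] :: sc2 (-64) (dY (dY P)))))

/-- `p_t + 4 D` -/
def Tp (P : List (List ℤ)) : List (List ℤ) := add2 (dT P) [[40000]]

theorem contDiff_Uf (P : List (List ℤ)) : ContDiff ℝ 2 (fun q : ℝ × ℝ => Uf P q.1 q.2) := by
  have h : ContDiff ℝ 2 (fun q : ℝ × ℝ => (16 / 121 * q.2 ^ 2, q.1)) := by fun_prop
  exact ((contDiff_ev2 P).comp h).div_const 10000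

theorem hasDerivAt_polyU_y (z : ℝ) :
    HasDerivAt (fun z : ℝ => 16 / 121 * z ^ 2) (32 / 121 * z) z := by
  have h := ((hasDerivAt_id z).pow 2).const_mul (16 / 121 : ℝ)
  refine h.congr_deriv ?_
  simp only [id]
  push_cast
  ring

theorem hasDerivAt_Uf_z (P : List (List ℤ)) (t z : ℝ) : HasDerivAt (Uf P t) (Ufz P t z) z := by
  have h := ((hasDerivAt_ev2_y P (16 / 121 * z ^ 2) t).comp z (hasDerivAt_polyU_y z)).div_const 10000
  refine h.congr_deriv ?_
  unfold Ufz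
  ring

theorem hasDerivAt_Uf_zz (P : List (List ℤ)) (t z : ℝ) : HasDerivAt (Ufz P t) (Ufzz P t z) z := by
  have h1 := ((hasDerivAt_ev2_y (dY P) (16 / 121 * z ^ 2) t).comp z (hasDerivAt_polyU_y z))
  have h2 : HasDerivAt (fun z : ℝ => 32 / 121 * z) (32 / 121) z := by
    simpa using (hasDerivAt_id z).const_mul (32 / 121 : ℝ)
  have h := (h2.mul h1).div_const 10000
  refine h.congr_deriv ?_
  unfold Ufzz
  simp only [Function.comp]
  ring

theorem hasDerivAt_Uf_t (P : List (List ℤ)) (t z : ℝ) :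
    HasDerivAt (fun s => Uf P s z) (Uft P t z) t :=
  (hasDerivAt_ev2_t P (16 / 121 * z ^ 2) t).div_const 10000

theorem cond_Q (P : List (List ℤ)) (t z : ℝ) :
    (4 * Uf P t z + Ufz P t z ^ 2) * Uft P t z -
      (4 * Uf P t z * Ufzz P t z - 4 * Ufz P t z ^ 2 - 8 * Uf P t z) =
    4 / (121 * 10000 ^ 3) * ev2 (Qp P) (16 / 121 * z ^ 2) t := by
  simp only [Qp, ev2_add, ev2_mul, ev2_sc, ev2, ev1, Uf, Ufz, Ufzz, Uft]
  push_cast
  ring

theorem cond_A (P : List (List ℤ)) (t z : ℝ) :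
    Uft P t z - (Ufzz P t z - 2) = 1 / 1210000 * ev2 (Ap P) (16 / 121 * z ^ 2) t := by
  simp only [Ap, ev2_add, ev2_sc, ev2, ev1, Ufzz, Uft]
  push_cast
  ring

theorem cond_T (P : List (List ℤ)) (t z : ℝ) :
    Uft P t z - -4 = 1 / 10000 * ev2 (Tp P) (16 / 121 * z ^ 2) t := by
  simp only [Tp, ev2_add, ev2, ev1, Uft]
  push_cast
  ring

end Pool.Agent.Lib.MP_ec58cd_gt
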