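import Pool.Agent.Lib.MP_ec58cd_gt.Avoid
import Pool.Agent.Lib.MP_ec58cd_gt.LinAlg
import Pool.Agent.Lib.MP_ec58cd_gt.RotD

/-!
# ROT: barriers of revolution

`rot_deriv` (module ROTD) gives `DΦ` and `D²Φ` for `Φ x = x 0 ^ 2 + x 1 ^ 2 - g (x 2)`.
`outer_barrier`: `avoid` with `Φ t x = x 0 ^ 2 + x 1 ^ 2 - U t (x 2)`.  At a contact point
(`Φ = 0`, so `U = x 0² + x 1² ≥ 0`) with `w` orthonormal and `DΦ (w i) = 0`, let
`W := (w 0 2)² + (w 1 2)² ∈ [0, 1]`; `pair_sum`: `∑ D²Φ (w i) (w i) = 2 (2 - W) - Uzz W`, the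
`t`-derivative of `Φ` is `- Ut`.  To show: `- Ut < 4 - W (2 + Uzz)`.
First alternative of `hQ`: `pair_grad` with `(2 x 0, 2 x 1, - Uz)`: `(4 U + Uz²) W = 4 U`; multiply
the claim by `4 U + Uz²`, which is `> 0` (if it were `0`, then `U = 0`, `Uz = 0` and `hQ` would say
`0 < 0`).  Second alternative: `- Ut < 4` and `- Ut < 2 - Uzz`, take the convex combination with
weights `1 - W`, `W`.
`inner_barrier`: `avoid` with `Φ t x = V t (x 2) - x 0 ^ 2 - x 1 ^ 2`: `∂ₜΦ = Vt`,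
`∑ D²Φ (w i) (w i) = - 4 + 2 W + Vzz W`, to show `Vt < - 4 + W (2 + Vzz)`; again `(4 V + Vz²) W = 4 V`.
`ball_barrier`: `Φ t x = ‖x‖² - R`: `D²Φ (w, w) = 2 ‖w‖²`, sum `4 > 0`.
-/

noncomputable section

open Set Filter Topology MeasureTheory Metric
open scoped Manifold ContDiff RealInnerProductSpace ENNReal

namespace Pool.Agent.Lib.MP_ec58cd_gt

variable {M : Type*} [TopologicalSpace M] [ChartedSpace (EuclideanSpace ℝ (Fin 2)) M]
  [IsManifold (𝓡 2) ∞ M] [CompactSpace M]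

/-- outer barrier, the condition only along the flow -/
theorem outer_aux {F : ℝ → M → E3} {T : ℝ} {f : M → E3} (h : IsMCF 2 F T f)
    {U Uz Uzz Ut : ℝ → ℝ → ℝ} (hU : ContDiff ℝ 2 (fun q : ℝ × ℝ => U q.1 q.2))
    (hz : ∀ t z, HasDerivAt (U t) (Uz t z) z) (hzz : ∀ t z, HasDerivAt (Uz t) (Uzz t z) z)
    (ht : ∀ t z, HasDerivAt (fun s => U s z) (Ut t z) t) {a b : ℝ} (ha : 0 ≤ a) (hbT : b < T)
    (h0 : ∀ p, F a p 0 ^ 2 + F a p 1 ^ 2 < U a (F a p 2))
    (hQ : ∀ t ∈ Icc a b, ∀ p, 0 ≤ U t (F t p 2) →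
      4 * U t (F t p 2) * Uzz t (F t p 2) - 4 * Uz t (F t p 2) ^ 2 - 8 * U t (F t p 2) <
        (4 * U t (F t p 2) + Uz t (F t p 2) ^ 2) * Ut t (F t p 2) ∨
      (-4 < Ut t (F t p 2) ∧ Uzz t (F t p 2) - 2 < Ut t (F t p 2))) :
    ∀ t ∈ Icc a b, ∀ p, F t p 0 ^ 2 + F t p 1 ^ 2 < U t (F t p 2) := by
  have key := avoid h (Φ := fun t x => x 0 ^ 2 + x 1 ^ 2 - U t (x 2)) (a := a) (b := b)
    (by
      have h1 : ∀ i : Fin 3, ContDiff ℝ 2 (fun q : ℝ × E3 => q.2 i) := fun i =>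
        (EuclideanSpace.proj (𝕜 := ℝ) i).contDiff.comp contDiff_snd
      have h2 : ContDiff ℝ 2 (fun q : ℝ × E3 => U q.1 (q.2 2)) :=
        hU.comp (contDiff_fst.prodMk (h1 2))
      exact (((h1 0).pow 2).add ((h1 1).pow 2)).sub h2)
    ha hbT (fun p => sub_neg.2 (h0 p))
    (by
      intro t htt p heq w hw hw0
      have hd := fun v => rot_deriv (hz t) (hzz t) (F t p) v
      have hdt : deriv (fun s => F t p 0 ^ 2 + F t p 1 ^ 2 - U s (F t p 2)) t =
          - Ut t (F t p 2) := ((ht t (F t p 2)).const_sub _).deriv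
      show deriv (fun s => F t p 0 ^ 2 + F t p 1 ^ 2 - U s (F t p 2)) t < _
      rw [hdt, Fin.sum_univ_two, (hd (w 0)).2, (hd (w 1)).2]
      have hps := pair_sum hw
      rw [Fin.sum_univ_two] at hps
      have hpl := pair_le hw
      have hpg := pair_grad hw (a := 2 * F t p 0) (b := 2 * F t p 1) (c := - Uz t (F t p 2))
        (fun i => by
          have h1 := hw0 i
          rw [(hd (w i)).1] at h1
          linarith)
      have heq' : U t (F t p 2) = F t p 0 ^ 2 + F t p 1 ^ 2 := by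
        simp only at heq
        linarith
      have hU0 : 0 ≤ U t (F t p 2) := by rw [heq']; positivity
      have hQ' := hQ t ⟨htt.1.le, htt.2⟩ p hU0
      set u := U t (F t p 2)
      set uz := Uz t (F t p 2)
      set uzz := Uzz t (F t p 2)
      set ut := Ut t (F t p 2)
      have hW0 : 0 ≤ w 0 2 ^ 2 + w 1 2 ^ 2 := by positivity
      have e1 : 2 * w 0 0 ^ 2 + 2 * w 0 1 ^ 2 - uzz * w 0 2 ^ 2 +
          (2 * w 1 0 ^ 2 + 2 * w 1 1 ^ 2 - uzz * w 1 2 ^ 2) =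
          2 * (2 - (w 0 2 ^ 2 + w 1 2 ^ 2)) - uzz * (w 0 2 ^ 2 + w 1 2 ^ 2) := by
        rw [← hps]; ring
      rw [e1]
      set W := w 0 2 ^ 2 + w 1 2 ^ 2
      have e2 : (4 * u + uz ^ 2) * W = 4 * u := by
        have : (2 * F t p 0) ^ 2 + (2 * F t p 1) ^ 2 + (- uz) ^ 2 = 4 * u + uz ^ 2 := by
          rw [heq']; ring
        rw [this] at hpg
        rw [hpg, heq']; ring
      rcases hQ' with hQ' | ⟨hQ1, hQ2⟩
      · have hP : 0 < 4 * u + uz ^ 2 := by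
          rcases (show 0 ≤ 4 * u + uz ^ 2 by positivity).eq_or_lt with h1 | h1
          · exfalso
            have hu : u = 0 := by nlinarith [sq_nonneg uz]
            have huz : uz ^ 2 = 0 := by nlinarith
            rw [hu, huz] at hQ'
            simp at hQ'
          · exact h1
        have h2 : (4 * u + uz ^ 2) * (- ut) <
            (4 * u + uz ^ 2) * (2 * (2 - W) - uzz * W) := by
          have : (4 * u + uz ^ 2) * (2 * (2 - W) - uzz * W) =
              4 * (4 * u + uz ^ 2) - (2 + uzz) * ((4 * u + uz ^ 2) * W) := by ring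
          rw [this, e2]
          linarith
        exact lt_of_mul_lt_mul_left h2 hP.le
      · rcases hW0.eq_or_lt with h1 | h1
        · rw [← h1]; linarith
        · nlinarith [mul_pos h1 (sub_pos.2 hQ2), mul_nonneg (sub_nonneg.2 hpl) (sub_pos.2 hQ1).le])
  intro t htt p
  have := key t htt p
  simp only at this
  linarith

theorem outer_barrier {F : ℝ → M → E3} {T : ℝ} {f : M → E3} (h : IsMCF 2 F T f)
    {U Uz Uzz Ut : ℝ → ℝ → ℝ} (hU : ContDiff ℝ 2 (fun q : ℝ × ℝ => U q.1 q.2))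
    (hz : ∀ t z, HasDerivAt (U t) (Uz t z) z) (hzz : ∀ t z, HasDerivAt (Uz t) (Uzz t z) z)
    (ht : ∀ t z, HasDerivAt (fun s => U s z) (Ut t z) t) {a b Z : ℝ} (ha : 0 ≤ a) (hbT : b < T)
    (hZ : ∀ t ∈ Icc a b, ∀ p, F t p 2 ^ 2 ≤ Z)
    (h0 : ∀ p, F a p 0 ^ 2 + F a p 1 ^ 2 < U a (F a p 2))
    (hQ : ∀ t ∈ Icc a b, ∀ z, z ^ 2 ≤ Z → 0 ≤ U t z →
      4 * U t z * Uzz t z - 4 * Uz t z ^ 2 - 8 * U t z < (4 * U t z + Uz t z ^ 2) * Ut t z ∨
      (-4 < Ut t z ∧ Uzz t z - 2 < Ut t z)) :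
    ∀ t ∈ Icc a b, ∀ p, F t p 0 ^ 2 + F t p 1 ^ 2 < U t (F t p 2) :=
  outer_aux h hU hz hzz ht ha hbT h0 fun t htt p hU0 => hQ t htt _ (hZ t htt p) hU0

theorem inner_barrier {F : ℝ → M → E3} {T : ℝ} {f : M → E3} (h : IsMCF 2 F T f)
    {V Vz Vzz Vt : ℝ → ℝ → ℝ} (hV : ContDiff ℝ 2 (fun q : ℝ × ℝ => V q.1 q.2))
    (hz : ∀ t z, HasDerivAt (V t) (Vz t z) z) (hzz : ∀ t z, HasDerivAt (Vz t) (Vzz t z) z)
    (ht : ∀ t z, HasDerivAt (fun s => V s z) (Vt t z) t) {a b Z : ℝ} (ha : 0 ≤ a) (hbT : b < T)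
    (hZ : ∀ t ∈ Icc a b, ∀ p, F t p 2 ^ 2 ≤ Z)
    (h0 : ∀ p, V a (F a p 2) < F a p 0 ^ 2 + F a p 1 ^ 2)
    (hQ : ∀ t ∈ Icc a b, ∀ z, z ^ 2 ≤ Z → 0 ≤ V t z →
      (4 * V t z + Vz t z ^ 2) * Vt t z < 4 * V t z * Vzz t z - 4 * Vz t z ^ 2 - 8 * V t z) :
    ∀ t ∈ Icc a b, ∀ p, V t (F t p 2) < F t p 0 ^ 2 + F t p 1 ^ 2 := by
  have key := avoid h (Φ := fun t x => -(x 0 ^ 2 + x 1 ^ 2 - V t (x 2))) (a := a) (b := b)
    (by
      have h1 : ∀ i : Fin 3, ContDiff ℝ 2 (fun q : ℝ × E3 => q.2 i) := fun i =>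
        (EuclideanSpace.proj (𝕜 := ℝ) i).contDiff.comp contDiff_snd
      have h2 : ContDiff ℝ 2 (fun q : ℝ × E3 => V q.1 (q.2 2)) :=
        hV.comp (contDiff_fst.prodMk (h1 2))
      exact ((((h1 0).pow 2).add ((h1 1).pow 2)).sub h2).neg)
    ha hbT (fun p => by have := h0 p; simp only; linarith)
    (by
      intro t htt p heq w hw hw0
      have hd := fun v => rot_deriv (hz t) (hzz t) (F t p) v
      have hdt : deriv (fun s => -(F t p 0 ^ 2 + F t p 1 ^ 2 - V s (F t p 2))) t =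
          Vt t (F t p 2) := by
        have := (((ht t (F t p 2)).const_sub (F t p 0 ^ 2 + F t p 1 ^ 2)).neg).deriv
        rw [neg_neg] at this
        exact this
      have hneg1 : fderiv ℝ (fun x : E3 => -(x 0 ^ 2 + x 1 ^ 2 - V t (x 2))) =
          fun x => - fderiv ℝ (fun x : E3 => x 0 ^ 2 + x 1 ^ 2 - V t (x 2)) x := by
        funext x
        exact fderiv_fun_neg
      have hneg2 : ∀ v, fderiv ℝ (fderiv ℝ (fun x : E3 => -(x 0 ^ 2 + x 1 ^ 2 - V t (x 2))))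
          (F t p) v v = - (2 * v 0 ^ 2 + 2 * v 1 ^ 2 - Vzz t (F t p 2) * v 2 ^ 2) := by
        intro v
        rw [hneg1, fderiv_fun_neg, ← (hd v).2]
        rfl
      show deriv (fun s => -(F t p 0 ^ 2 + F t p 1 ^ 2 - V s (F t p 2))) t < _
      rw [hdt, Fin.sum_univ_two, hneg2 (w 0), hneg2 (w 1)]
      have hps := pair_sum hw
      rw [Fin.sum_univ_two] at hps
      have hpg := pair_grad hw (a := 2 * F t p 0) (b := 2 * F t p 1) (c := - Vz t (F t p 2))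
        (fun i => by
          have h1 := hw0 i
          rw [hneg1] at h1
          have h2 := (hd (w i)).1
          have h3 : fderiv ℝ (fun x : E3 => x 0 ^ 2 + x 1 ^ 2 - V t (x 2)) (F t p) (w i) = 0 :=
            neg_eq_zero.1 h1
          linarith)
      have heq' : V t (F t p 2) = F t p 0 ^ 2 + F t p 1 ^ 2 := by
        simp only at heq
        linarith
      have hV0 : 0 ≤ V t (F t p 2) := by rw [heq']; positivity
      have hQ' := hQ t ⟨htt.1.le, htt.2⟩ _ (hZ t ⟨htt.1.le, htt.2⟩ p) hV0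
      set u := V t (F t p 2)
      set uz := Vz t (F t p 2)
      set uzz := Vzz t (F t p 2)
      set ut := Vt t (F t p 2)
      have e1 : -(2 * w 0 0 ^ 2 + 2 * w 0 1 ^ 2 - uzz * w 0 2 ^ 2) +
          -(2 * w 1 0 ^ 2 + 2 * w 1 1 ^ 2 - uzz * w 1 2 ^ 2) =
          -(2 * (2 - (w 0 2 ^ 2 + w 1 2 ^ 2)) - uzz * (w 0 2 ^ 2 + w 1 2 ^ 2)) := by
        rw [← hps]; ring
      rw [e1]
      set W := w 0 2 ^ 2 + w 1 2 ^ 2
      have e2 : (4 * u + uz ^ 2) * W = 4 * u := by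
        have : (2 * F t p 0) ^ 2 + (2 * F t p 1) ^ 2 + (- uz) ^ 2 = 4 * u + uz ^ 2 := by
          rw [heq']; ring
        rw [this] at hpg
        rw [hpg, heq']; ring
      have hP : 0 < 4 * u + uz ^ 2 := by
        rcases (show 0 ≤ 4 * u + uz ^ 2 by positivity).eq_or_lt with h1 | h1
        · exfalso
          have hu : u = 0 := by nlinarith [sq_nonneg uz]
          have huz : uz ^ 2 = 0 := by nlinarith
          rw [hu, huz] at hQ'
          simp at hQ'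
        · exact h1
      have h2 : (4 * u + uz ^ 2) * ut <
          (4 * u + uz ^ 2) * (-(2 * (2 - W) - uzz * W)) := by
        have : (4 * u + uz ^ 2) * (-(2 * (2 - W) - uzz * W)) =
            (2 + uzz) * ((4 * u + uz ^ 2) * W) - 4 * (4 * u + uz ^ 2) := by ring
        rw [this, e2]
        linarith
      exact lt_of_mul_lt_mul_left h2 hP.le)
  intro t htt p
  have := key t htt p
  simp only at this
  linarith

theorem norm_sq_E3 (x : E3) : ‖x‖ ^ 2 = x 0 ^ 2 + x 1 ^ 2 + x 2 ^ 2 := by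
  rw [EuclideanSpace.norm_sq_eq, Fin.sum_univ_three]
  simp

theorem ball_barrier {F : ℝ → M → E3} {T : ℝ} {f : M → E3} (h : IsMCF 2 F T f) {R : ℝ}
    (h0 : ∀ p, ‖f p‖ ^ 2 < R) : ∀ t ∈ Ico 0 T, ∀ p, ‖F t p‖ ^ 2 < R := by
  intro t htt p
  have key := outer_aux h (U := fun _ z => R - z ^ 2) (Uz := fun _ z => -(2 * z))
    (Uzz := fun _ _ => -2) (Ut := fun _ _ => 0) (a := 0) (b := t)
    (contDiff_const.sub (contDiff_snd.pow 2))
    (fun _ z => by
      have := ((hasDerivAt_pow 2 z).const_sub R)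
      simpa using this)
    (fun _ z => by
      have := ((hasDerivAt_id z).const_mul 2).neg
      rw [mul_one] at this
      exact this)
    (fun s z => hasDerivAt_const s _) le_rfl htt.2
    (fun q => by
      have := h0 q
      rw [norm_sq_E3] at this
      rw [h.init]
      linarith)
    (fun s hs q _ => Or.inr ⟨by norm_num, by norm_num⟩)
  have := key t ⟨htt.1, le_rfl⟩ p
  rw [norm_sq_E3]
  linarith

end Pool.Agent.Lib.MP_ec58cd_gt
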