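import Pool.Agent.Lib.MP_ec58cd_gt.Frame

/-!
# SECOND: second derivatives of a composition, second derivative test
-/

noncomputable section

open Set Filter Topology MeasureTheory Metric
open scoped Manifold ContDiff RealInnerProductSpace ENNReal

namespace Pool.Agent.Lib.MP_ec58cd_gt

variable {n : ℕ} {E : Type*} [NormedAddCommGroup E] [InnerProductSpace ℝ E] [FiniteDimensional ℝ E]

/-- The derivative is differentiable. -/
theorem differentiableAt_fderiv {V W : Type*} [NormedAddCommGroup V] [NormedSpace ℝ V]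
    [NormedAddCommGroup W] [NormedSpace ℝ W] {g : W → V} {x : W} (hg : ContDiffAt ℝ 2 g x) :
    DifferentiableAt ℝ (fderiv ℝ g) x := by
  have h1 : ContDiffAt ℝ 1 (fderiv ℝ g) x :=
    hg.fderiv_right (by rw [one_add_one_eq_two])
  exact h1.differentiableAt (by norm_num)

/-- Differentiability near the point. -/
theorem eventually_differentiableAt {V W : Type*} [NormedAddCommGroup V] [NormedSpace ℝ V]
    [NormedAddCommGroup W] [NormedSpace ℝ W] {g : W → V} {x : W} (hg : ContDiffAt ℝ 2 g x) :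
    ∀ᶠ y in 𝓝 x, DifferentiableAt ℝ g y := by
  filter_upwards [hg.eventually (by simp)] with y hy
  exact hy.differentiableAt (by norm_num)

theorem fderiv2_comp {W : Type*} [NormedAddCommGroup W] [NormedSpace ℝ W]
    {Φ : E → ℝ} {X : W → E} {x : W}
    (hΦ : ContDiffAt ℝ 2 Φ (X x)) (hX : ContDiffAt ℝ 2 X x) (u v : W) :
    fderiv ℝ (fderiv ℝ (fun y => Φ (X y))) x u v =
      fderiv ℝ (fderiv ℝ Φ) (X x) (fderiv ℝ X x u) (fderiv ℝ X x v) +
        fderiv ℝ Φ (X x) (fderiv ℝ (fderiv ℝ X) x u v) := by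
  have hXc : ContinuousAt X x := hX.continuousAt
  have hev : fderiv ℝ (fun y => Φ (X y)) =ᶠ[𝓝 x]
      fun y => (fderiv ℝ Φ (X y)).comp (fderiv ℝ X y) := by
    filter_upwards [hXc.eventually (eventually_differentiableAt hΦ),
      eventually_differentiableAt hX] with y h1 h2
    exact fderiv_comp y h1 h2
  have hc : HasFDerivAt (fun y => fderiv ℝ Φ (X y))
      ((fderiv ℝ (fderiv ℝ Φ) (X x)).comp (fderiv ℝ X x)) x :=
    (differentiableAt_fderiv hΦ).hasFDerivAt.comp x
      (eventually_differentiableAt hX).self_of_nhds.hasFDerivAt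
  have hd : HasFDerivAt (fderiv ℝ X) (fderiv ℝ (fderiv ℝ X) x) x :=
    (differentiableAt_fderiv hX).hasFDerivAt
  have h := hc.clm_comp hd
  rw [hev.fderiv_eq, h.fderiv]
  simp only [add_apply, ContinuousLinearMap.comp_apply,
    ContinuousLinearMap.compL_apply, ContinuousLinearMap.flip_apply]
  rw [add_comm]

theorem sum_second {Φ : E → ℝ} {X : EuclideanSpace ℝ (Fin n) → E} {x : EuclideanSpace ℝ (Fin n)}
    (hΦ : ContDiffAt ℝ 2 Φ (X x)) (hX : ContDiffAt ℝ 2 X x)
    {u : Fin n → EuclideanSpace ℝ (Fin n)} (hu : Orthonormal ℝ (fun i => fderiv ℝ X x (u i)))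
    (h0 : ∀ v, fderiv ℝ Φ (X x) (fderiv ℝ X x v) = 0) :
    ∑ i, fderiv ℝ (fderiv ℝ (fun y => Φ (X y))) x (u i) (u i) =
      ∑ i, fderiv ℝ (fderiv ℝ Φ) (X x) (fderiv ℝ X x (u i)) (fderiv ℝ X x (u i)) +
        fderiv ℝ Φ (X x) (meanCurv X x) := by
  rw [meanCurv_eq_frame X x u hu, map_sum, ← Finset.sum_add_distrib]
  refine Finset.sum_congr rfl fun i _ => ?_
  rw [fderiv2_comp hΦ hX, apply_secondFF X x _ h0]

theorem second_nonpos {W : Type*} [NormedAddCommGroup W] [NormedSpace ℝ W] {g : W → ℝ} {x : W}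
    (hg : ContDiffAt ℝ 2 g x) (hmax : IsLocalMax g x) (u : W) :
    fderiv ℝ (fderiv ℝ g) x u u ≤ 0 := by
  by_contra hcon
  push Not at hcon
  set c : ℝ → W := fun s => x + s • u with hc
  have hc0 : c 0 = x := by simp [hc]
  have hcd : ∀ s, HasDerivAt c u s := by
    intro s
    have h1 : HasDerivAt (fun s : ℝ => s • u) ((1 : ℝ) • u) s := (hasDerivAt_id s).smul_const u
    rw [one_smul] at h1
    exact h1.const_add x
  have hcc : ContinuousAt c 0 := (hcd 0).continuousAt
  have hdiff : ∀ᶠ s in 𝓝 (0 : ℝ), DifferentiableAt ℝ g (c s) := by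
    have h1 := eventually_differentiableAt hg
    rw [← hc0] at h1
    exact hcc.eventually h1
  have hd1 : deriv (fun s => g (c s)) =ᶠ[𝓝 0] fun s => fderiv ℝ g (c s) u := by
    filter_upwards [hdiff] with s hs
    exact (hs.hasFDerivAt.comp_hasDerivAt s (hcd s)).deriv
  have hd2 : deriv (deriv (fun s => g (c s))) 0 = fderiv ℝ (fderiv ℝ g) x u u := by
    rw [hd1.deriv_eq]
    have h1 : HasFDerivAt (fderiv ℝ g) (fderiv ℝ (fderiv ℝ g) x) (c 0) := by
      rw [hc0]
      exact (differentiableAt_fderiv hg).hasFDerivAt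
    have h2 : HasDerivAt (fun s => fderiv ℝ g (c s)) (fderiv ℝ (fderiv ℝ g) x u) 0 :=
      h1.comp_hasDerivAt 0 (hcd 0)
    have h3 := h2.clm_apply (hasDerivAt_const (0 : ℝ) u)
    simpa using h3.deriv
  have hm : IsLocalMax (fun s => g (c s)) 0 := by
    have h1 : IsLocalMax g (c 0) := by rw [hc0]; exact hmax
    exact hcc.eventually h1
  have hgc : ContinuousAt (fun s => g (c s)) 0 := by
    have h1 : ContinuousAt g (c 0) := by rw [hc0]; exact hg.continuousAt
    exact h1.comp hcc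
  have hmin : IsLocalMin (fun s => g (c s)) 0 :=
    isLocalMin_of_deriv_deriv_pos (by rw [hd2]; exact hcon) hm.deriv_eq_zero hgc
  have hconst : (fun s => g (c s)) =ᶠ[𝓝 0] fun _ => g (c 0) := by
    filter_upwards [hm, hmin] with s h1 h2
    exact le_antisymm h1 h2
  have h0 : deriv (deriv (fun s => g (c s))) 0 = 0 := by
    have h1 : deriv (fun s => g (c s)) =ᶠ[𝓝 0] deriv (fun _ : ℝ => g (c 0)) := hconst.deriv
    rw [h1.deriv_eq]
    simp
  rw [hd2] at h0
  exact absurd h0 hcon.ne'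

end Pool.Agent.Lib.MP_ec58cd_gt
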