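import Pool.Agent.Lib.MP_ec58cd_gt.Second

/-!
# TOUCH: touching from one side, level sets
-/

noncomputable section

open Set Filter Topology MeasureTheory Metric
open scoped Manifold ContDiff RealInnerProductSpace ENNReal

namespace Pool.Agent.Lib.MP_ec58cd_gt

variable {n : ℕ} {E : Type*} [NormedAddCommGroup E] [InnerProductSpace ℝ E] [FiniteDimensional ℝ E]
variable {M : Type*} [TopologicalSpace M] [ChartedSpace (EuclideanSpace ℝ (Fin n)) M]
  [IsManifold (𝓡 n) ∞ M]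

omit [FiniteDimensional ℝ E] [IsManifold (𝓡 n) ∞ M] in
theorem chart_apply (f : M → E) (p : M) (y : EuclideanSpace ℝ (Fin n)) :
    writtenInExtChartAt (𝓡 n) 𝓘(ℝ, E) p f y = f ((extChartAt (𝓡 n) p).symm y) := rfl

omit [FiniteDimensional ℝ E] [IsManifold (𝓡 n) ∞ M] in
theorem chart_self (f : M → E) (p : M) :
    writtenInExtChartAt (𝓡 n) 𝓘(ℝ, E) p f (extChartAt (𝓡 n) p p) = f p := by
  rw [chart_apply, extChartAt_to_inv]

omit [FiniteDimensional ℝ E] [IsManifold (𝓡 n) ∞ M] in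
theorem chart_contDiffAt {f : M → E} (hf : IsImm n f) (p : M) :
    ContDiffAt ℝ ∞ (writtenInExtChartAt (𝓡 n) 𝓘(ℝ, E) p f) (extChartAt (𝓡 n) p p) := by
  have h := (contMDiffAt_iff.1 (hf.1 p)).2
  rw [ModelWithCorners.range_eq_univ, contDiffWithinAt_univ] at h
  exact h

omit [FiniteDimensional ℝ E] [IsManifold (𝓡 n) ∞ M] in
theorem chart_injective {f : M → E} (hf : IsImm n f) (p : M) :
    Function.Injective
      (fderiv ℝ (writtenInExtChartAt (𝓡 n) 𝓘(ℝ, E) p f) (extChartAt (𝓡 n) p p)) := by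
  have h := hf.2 p
  have hd : MDifferentiableAt (𝓡 n) 𝓘(ℝ, E) f p := (hf.1 p).mdifferentiableAt (by simp)
  rw [hd.mfderiv, ModelWithCorners.range_eq_univ, fderivWithin_univ] at h
  exact h

/-- At a local maximum of `Φ ∘ f`. -/
theorem touch {f : M → E} (hf : IsImm n f) {Φ : E → ℝ} {p : M} (hΦ : ContDiffAt ℝ 2 Φ (f p))
    (hmax : IsLocalMax (fun q => Φ (f q)) p) :
    ∃ w : Fin n → E, Orthonormal ℝ w ∧ (∀ i, fderiv ℝ Φ (f p) (w i) = 0) ∧
      ∑ i, fderiv ℝ (fderiv ℝ Φ) (f p) (w i) (w i) + fderiv ℝ Φ (f p) (MCV n f p) ≤ 0 := by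
  set X := writtenInExtChartAt (𝓡 n) 𝓘(ℝ, E) p f with hX
  set x := extChartAt (𝓡 n) p p with hx
  have hXx : X x = f p := chart_self f p
  have hXc : ContDiffAt ℝ 2 X x := (chart_contDiffAt hf p).of_le (by norm_cast)
  have hΦ' : ContDiffAt ℝ 2 Φ (X x) := by rw [hXx]; exact hΦ
  obtain ⟨u, hu⟩ := exists_frame (fderiv ℝ X x) (chart_injective hf p)
  have hcomp : ContDiffAt ℝ 2 (fun y => Φ (X y)) x := hΦ'.comp x hXc
  have hsymm : ContinuousAt (extChartAt (𝓡 n) p).symm x := continuousAt_extChartAt_symm p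
  have hm : IsLocalMax (fun y => Φ (X y)) x := by
    have h1 : ∀ᶠ q in 𝓝 ((extChartAt (𝓡 n) p).symm x), Φ (f q) ≤ Φ (f p) := by
      rw [hx, extChartAt_to_inv]
      exact hmax
    have h2 := hsymm.eventually h1
    filter_upwards [h2] with y hy
    rw [hXx]
    exact hy
  have hder : ∀ v, fderiv ℝ Φ (X x) (fderiv ℝ X x v) = 0 := by
    intro v
    have h1 : fderiv ℝ (fun y => Φ (X y)) x = (fderiv ℝ Φ (X x)).comp (fderiv ℝ X x) :=
      fderiv_comp x (hΦ'.differentiableAt (by norm_num)) (hXc.differentiableAt (by norm_num))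
    have h2 := hm.fderiv_eq_zero
    rw [h1] at h2
    exact congrArg (fun L : EuclideanSpace ℝ (Fin n) →L[ℝ] ℝ => L v) h2
  have hsum := sum_second hΦ' hXc hu hder
  have hneg : ∑ i, fderiv ℝ (fderiv ℝ (fun y => Φ (X y))) x (u i) (u i) ≤ 0 :=
    Finset.sum_nonpos fun i _ => second_nonpos hcomp hm (u i)
  refine ⟨fun i => fderiv ℝ X x (u i), hu, ?_, ?_⟩
  · intro i
    rw [← hXx]
    exact hder (u i)
  · rw [hsum, hXx] at hneg
    exact hneg

/-- If `f` takes values in the level set `Φ = 0`. -/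
theorem level {f : M → E} (hf : IsImm n f) {Φ : E → ℝ} (p : M) (hΦ : ContDiffAt ℝ 2 Φ (f p))
    (hc : ∀ q, Φ (f q) = 0) :
    ∃ w : Fin n → E, Orthonormal ℝ w ∧ (∀ i, fderiv ℝ Φ (f p) (w i) = 0) ∧
      (∀ i, ⟪w i, MCV n f p⟫ = 0) ∧
      ∑ i, fderiv ℝ (fderiv ℝ Φ) (f p) (w i) (w i) + fderiv ℝ Φ (f p) (MCV n f p) = 0 := by
  set X := writtenInExtChartAt (𝓡 n) 𝓘(ℝ, E) p f with hX
  set x := extChartAt (𝓡 n) p p with hx
  have hXx : X x = f p := chart_self f p
  have hXc : ContDiffAt ℝ 2 X x := (chart_contDiffAt hf p).of_le (by norm_cast)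
  have hΦ' : ContDiffAt ℝ 2 Φ (X x) := by rw [hXx]; exact hΦ
  obtain ⟨u, hu⟩ := exists_frame (fderiv ℝ X x) (chart_injective hf p)
  have hzero : (fun y => Φ (X y)) = fun _ => (0 : ℝ) := by
    funext y
    exact hc _
  have hder : ∀ v, fderiv ℝ Φ (X x) (fderiv ℝ X x v) = 0 := by
    intro v
    have h1 : fderiv ℝ (fun y => Φ (X y)) x = (fderiv ℝ Φ (X x)).comp (fderiv ℝ X x) :=
      fderiv_comp x (hΦ'.differentiableAt (by norm_num)) (hXc.differentiableAt (by norm_num))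
    have h2 : fderiv ℝ (fun y => Φ (X y)) x = 0 := by rw [hzero]; simp
    rw [h1] at h2
    exact congrArg (fun L : EuclideanSpace ℝ (Fin n) →L[ℝ] ℝ => L v) h2
  have hsum := sum_second hΦ' hXc hu hder
  have hz2 : ∀ i, fderiv ℝ (fderiv ℝ (fun y => Φ (X y))) x (u i) (u i) = 0 := by
    intro i
    have h1 : fderiv ℝ (fun y => Φ (X y)) = fun _ => 0 := by
      funext y
      rw [hzero]
      simp
    rw [h1]
    simp
  refine ⟨fun i => fderiv ℝ X x (u i), hu, ?_, ?_, ?_⟩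
  · intro i
    rw [← hXx]
    exact hder (u i)
  · intro i
    exact inner_meanCurv X x (u i)
  · rw [Finset.sum_eq_zero (fun i _ => hz2 i), hXx] at hsum
    exact hsum.symm

end Pool.Agent.Lib.MP_ec58cd_gt
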